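import Pool.Agent.Work.MP_2efb47_nt.D.Fin

/-! Every set that is invariant under the map `V` and is not contained in the powers of two has a positive natural density. -/

open Filter Topology

namespace Pool.Agent.Work.MP_2efb47_nt.InvariantDensity

/-- The map of the problem. -/
def V (n : ℕ) : ℕ := if n % 2 = 0 then n / 2 else if n % 4 = 1 then (n + 1) / 2 else (3 * n + 1) / 2

theorem result (S : Set ℕ) (hS : ∀ n, 1 ≤ n → (n ∈ S ↔ V n ∈ S))
    (hn : ∃ n ∈ S, 1 ≤ n ∧ ∀ j, n ≠ 2 ^ j) :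
    ∃ d : ℝ, 0 < d ∧ Tendsto (fun x : ℕ => ((S ∩ Set.Icc 1 x).ncard : ℝ) / x) atTop (𝓝 d) := by
  obtain ⟨d, h1, h2⟩ := CzD.main_V (S := S) hS
  refine ⟨d, h2 hn, ?_⟩
  have e : ∀ x : ℕ, (S ∩ Set.Icc 1 x).ncard = CzD.cnt S x := by
    intro x
    rw [CzD.cnt, ← Set.ncard_coe_finset]
    congr 1
    ext z
    simp only [Set.mem_inter_iff, Set.mem_Icc, Finset.coe_filter, Finset.mem_Icc, Set.mem_ofPred_eq]
    exact and_comm
  simpa only [e] using h1

end Pool.Agent.Work.MP_2efb47_nt.InvariantDensity
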