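import Pool.Agent.Work.MP_2efb47_nt.D.Pos1

-- merged part: Pool.Agent.Work.MP_2efb47_nt.D.Fin
section
-- merged part: Pool.Agent.Work.MP_2efb47_nt.D.Lim1
section
/-! An almost harmonic function converges. `lim_cd` (Choquet-Deny): `g u = D (u - a) - D u` satisfies the same relation up to `o(1)`; if `s = limsup g > 0` then `g u ≥ s - ε` forces `g (u - a) ≥ s - 4 ε` for large `u`, and a sum of `j` consecutive terms is at most `1`; apply to `D` and `1 - D`. Then `D (u + c) - D u → 0` by the relation.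
`lim_all`: the `v` with `D (u + v) - D u → 0` form a closed subgroup (`huc`) which contains `log 2` and `log 3`; it is dense (`AddSubgroup.dense_or_cyclic`, `2 ^ a ≠ 3 ^ b`). -/

open Finset Filter Topology
open scoped Classical

noncomputable section
namespace CzD

variable {D : ℝ → ℝ}

theorem lm1_sh (v : ℝ) : Tendsto (fun u : ℝ => u + v) atTop atTop :=
  tendsto_atTop_add_const_right _ v tendsto_id

theorem lm1_one {a c : ℝ} (ha : 0 < a) (h01 : ∀ u, 0 ≤ D u ∧ D u ≤ 1)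
    (h : Tendsto (fun u => D u - 1 / 2 * D (u - a) - 1 / 2 * D (u + c)) atTop (𝓝 0)) {ε : ℝ}
    (hε : 0 < ε) : ∀ᶠ u in atTop, D (u - a) - D u ≤ ε := by
  obtain ⟨j, hj⟩ := exists_nat_gt (2 / ε)
  rw [div_lt_iff₀ hε] at hj
  obtain ⟨η, hη, e⟩ : ∃ η > 0, 4 ^ j * η = ε / 2 := ⟨ε / 2 / 4 ^ j, by positivity, by field_simp⟩
  have r := (Metric.tendsto_nhds.1 h) (η / 2) (by linarith only [hη])
  have step : ∀ s, ε ≤ s → (∀ᶠ u in atTop, D (u - a) - D u ≤ s) →
      ∀ᶠ u in atTop, D (u - a) - D u ≤ s - η := fun s hs k => by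
    obtain ⟨U, hU⟩ := eventually_atTop.1 (((lm1_sh c).eventually k).and
      (r.and ((lm1_sh (-a)).eventually r)))
    refine eventually_atTop.2 ⟨U + j * a, fun u hu => not_lt.1 fun n => ?_⟩
    have key : ∀ i : ℕ, i ≤ j → s - 4 ^ i * η ≤ D (u - i * a - a) - D (u - i * a) ∧
        D u + i * (ε / 2) ≤ D (u - i * a) := by
      intro i
      induction i with
      | zero => intro _; simpa using n.le
      | succ i ih =>
        intro hi
        obtain ⟨i1, i2⟩ := ih (by omega)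
        have l1 : (i : ℝ) ≤ j := by exact_mod_cast (by omega : i ≤ j)
        obtain ⟨k1, k2, k3⟩ := hU (u - i * a) (by linarith only [hu, ha, l1, mul_nonneg_of_nonpos_of_nonpos (le_of_lt (Mathlib.Tactic.Linarith.sub_neg_of_lt ha)) (Mathlib.Tactic.Linarith.sub_nonpos_of_le l1)])
        rw [Real.dist_eq, sub_zero, abs_lt] at k2 k3
        have l2 : (4 : ℝ) ^ i * η ≤ 4 ^ j * η :=
          mul_le_mul_of_nonneg_right (pow_le_pow_right₀ (by norm_num) (by omega)) hη.le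
        have l3 : 1 * η ≤ (4 : ℝ) ^ i * η :=
          mul_le_mul_of_nonneg_right (one_le_pow₀ (by norm_num)) hη.le
        rw [show u - i * a + -a = u - i * a - a by ring,
          show u - i * a - a + c = u - i * a + c - a by ring] at k3
        rw [show u - ((i + 1 : ℕ) : ℝ) * a = u - i * a - a by push_cast; ring, pow_succ]
        push_cast
        constructor <;> linarith only [i1, k1, k2, k3, l3, e, hs, i2, l2, k2.1, k3.2]
    linarith only [hj, key, h01, (key j le_rfl).2, (h01 u).1, (h01 (u - j * a)).2]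
  have all : ∀ k : ℕ, ∀ᶠ u in atTop, D (u - a) - D u ≤ max ε (1 - k * η) := by
    intro k
    induction k with
    | zero => exact .of_forall fun u => le_max_of_le_right (by
        simp only [Nat.cast_zero, zero_mul]; linarith [(h01 u).1, (h01 (u - a)).2])
    | succ k ih =>
      rcases le_total ε (1 - k * η) with l | l
      · rw [max_eq_right l] at ih
        exact (step _ l ih).mono fun u hu => le_max_of_le_right (by push_cast; linarith)
      · rw [max_eq_left l] at ih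
        exact ih.mono fun u hu => le_max_of_le_left hu
  obtain ⟨k, hk⟩ := exists_nat_gt (1 / η)
  rw [div_lt_iff₀ hη] at hk
  exact (all k).mono fun u hu => hu.trans (max_le le_rfl (by linarith))

theorem lim_cd {a c : ℝ} (ha : 0 < a) (h01 : ∀ u, 0 ≤ D u ∧ D u ≤ 1)
    (h : Tendsto (fun u => D u - 1 / 2 * D (u - a) - 1 / 2 * D (u + c)) atTop (𝓝 0)) :
    Tendsto (fun u => D (u + a) - D u) atTop (𝓝 0) ∧
      Tendsto (fun u => D (u + c) - D u) atTop (𝓝 0) := by
  have g : Tendsto (fun u => D (u - a) - D u) atTop (𝓝 0) := by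
    refine tendsto_order.2 ⟨fun b hb => ?_, fun b hb => ?_⟩
    · refine (lm1_one (D := fun u => 1 - D u) (c := c) ha
        (fun u => ⟨by linarith [(h01 u).2], by linarith [(h01 u).1]⟩) ?_
        (ε := -b / 2) (by linarith)).mono fun u hu => by linarith only [hb, hu]
      simpa using h.neg.congr fun u => by ring
    · exact (lm1_one ha h01 h (half_pos hb)).mono fun u hu => by linarith
  constructor
  · simpa using (g.comp (lm1_sh a)).neg.congr fun u => by simp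
  · simpa using ((h.const_mul (-2)).sub g).congr fun u => by ring

theorem lim_all (huc : ∀ ε > 0, ∃ δ > 0, ∀ᶠ u in atTop, ∀ v, |v| ≤ δ → |D (u + v) - D u| ≤ ε)
    (h2 : Tendsto (fun u => D (u + Real.log 2) - D u) atTop (𝓝 0))
    (h3 : Tendsto (fun u => D (u + Real.log (3 / 2)) - D u) atTop (𝓝 0)) (v : ℝ) :
    Tendsto (fun u => D (u + v) - D u) atTop (𝓝 0) := by
  let H : AddSubgroup ℝ :=
    { carrier := {v | Tendsto (fun u => D (u + v) - D u) atTop (𝓝 0)}
      zero_mem' := by simp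
      add_mem' := fun {v w} hv hw => by
        simpa using ((Tendsto.comp hw (lm1_sh v)).add hv).congr fun u => by simp [add_assoc]
      neg_mem' := fun {v} hv => by
        simpa using (Tendsto.comp hv (lm1_sh (-v))).neg.congr fun u => by simp }
  have m2 : Real.log 2 ∈ H := h2
  have m3 : Real.log 3 ∈ H := by
    have := H.add_mem m2 (show Real.log (3 / 2) ∈ H from h3)
    rwa [← Real.log_mul (by norm_num) (by norm_num), show (2 : ℝ) * (3 / 2) = 3 by norm_num] at this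
  rcases H.dense_or_cyclic with d | ⟨a, e⟩
  · refine Metric.tendsto_nhds.2 fun ε hε => ?_
    obtain ⟨δ, hδ, k⟩ := huc (ε / 2) (half_pos hε)
    obtain ⟨w, hw, l⟩ := Metric.dense_iff.1 d v δ hδ
    rw [Metric.mem_ball, Real.dist_eq, abs_sub_comm] at hw
    filter_upwards [(lm1_sh w).eventually k, Metric.tendsto_nhds.1 l _ (half_pos hε)] with u k1 k2
    have k3 := k1 _ hw.le
    rw [Real.dist_eq, sub_zero, abs_lt] at k2 ⊢
    rw [show u + w + (v - w) = u + v by ring, abs_le] at k3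
    constructor <;> linarith only [k2, k3, k2.1, k2.2, k3.1, k3.2]
  · rw [e, AddSubgroup.mem_closure_singleton] at m2 m3
    obtain ⟨m, hm⟩ := m2
    obtain ⟨n, hn⟩ := m3
    have p2 := Real.log_pos (by norm_num : (1 : ℝ) < 2)
    have p3 := Real.log_pos (by norm_num : (1 : ℝ) < 3)
    have e1 : (n.natAbs : ℝ) * Real.log 2 = m.natAbs * Real.log 3 := by
      rw [Nat.cast_natAbs, Nat.cast_natAbs, Int.cast_abs, Int.cast_abs, ← abs_of_pos p2,
        ← abs_of_pos p3, ← abs_mul, ← abs_mul, ← hm, ← hn, zsmul_eq_mul, zsmul_eq_mul, mul_left_comm]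
    rw [← Real.log_pow, ← Real.log_pow] at e1
    have e2 : 2 ^ n.natAbs = 3 ^ m.natAbs := by
      exact_mod_cast Real.log_injOn_pos (Set.mem_Ioi.2 (by positivity))
        (Set.mem_Ioi.2 (by positivity)) e1
    have n0 : n.natAbs ≠ 0 := fun k => by
      rw [Int.natAbs_eq_zero.1 k, zero_smul] at hn
      linarith only [hn, p3]
    exact absurd (Nat.prime_two.dvd_of_dvd_pow (e2 ▸ dvd_pow_self 2 n0)) (by norm_num)

end CzD
end
end

-- merged part: Pool.Agent.Work.MP_2efb47_nt.D.Lim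
section
/-! An almost harmonic function converges. `lim_main`: `I u = ∫ v in u - a..u, D v - ∫ v in u..u + c, D v` is Cauchy at infinity, `I u - (a - c) D u → 0` by dominated convergence, `log (3 / 2) < log 2`. -/

open Finset Filter Topology
open scoped Classical

noncomputable section
namespace CzD

variable {D : ℝ → ℝ}

theorem lm2_int (hm : Measurable D) (h01 : ∀ u, 0 ≤ D u ∧ D u ≤ 1) (x y : ℝ) :
    IntervalIntegrable D MeasureTheory.volume x y :=
  (intervalIntegrable_const (c := (1 : ℝ))).mono_fun' hm.aestronglyMeasurable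
    (Eventually.of_forall fun v => by
      show ‖D v‖ ≤ 1
      rw [Real.norm_eq_abs, abs_of_nonneg (h01 v).1]
      exact (h01 v).2)

theorem lm2_shift (hm : Measurable D) (h01 : ∀ u, 0 ≤ D u ∧ D u ≤ 1) (s x y : ℝ) :
    IntervalIntegrable (fun v => D (s + v)) MeasureTheory.volume x y ∧
      ∫ v in x..y, D (s + v) = (∫ v in (0 : ℝ)..s + y, D v) - ∫ v in (0 : ℝ)..s + x, D v :=
  ⟨lm2_int (D := fun v => D (s + v)) (hm.comp (measurable_const_add s)) (fun _ => h01 _) x y, by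
    rw [intervalIntegral.integral_comp_add_left D s,
      intervalIntegral.integral_interval_sub_left (lm2_int hm h01 _ _) (lm2_int hm h01 _ _)]⟩

theorem lm2_dom (hm : Measurable D) (h01 : ∀ u, 0 ≤ D u ∧ D u ≤ 1)
    (hv : ∀ v, Tendsto (fun u => D (u + v) - D u) atTop (𝓝 0)) (x y : ℝ) :
    Tendsto (fun u => (∫ v in (0 : ℝ)..u + y, D v) - (∫ v in (0 : ℝ)..u + x, D v) - (y - x) * D u)
      atTop (𝓝 0) := by
  have k := intervalIntegral.tendsto_integral_filter_of_dominated_convergence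
    (μ := MeasureTheory.volume) (a := x) (b := y) (l := atTop)
    (F := fun u v => D (u + v) - D u) (f := fun _ => (0 : ℝ)) (fun _ => 1)
    (Eventually.of_forall fun u =>
      ((hm.comp (measurable_const_add u)).sub_const (D u)).aestronglyMeasurable)
    (Eventually.of_forall fun u => Eventually.of_forall fun v _ => by
      rw [Real.norm_eq_abs, abs_le]
      constructor <;> linarith only [h01, h01 u, h01 (u + v), (h01 u).1, (h01 u).2, (h01 (u + v)).1,
        (h01 (u + v)).2])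
    intervalIntegrable_const (Eventually.of_forall fun v _ => hv v)
  rw [intervalIntegral.integral_zero] at k
  refine k.congr fun u => ?_
  rw [intervalIntegral.integral_sub (lm2_shift hm h01 u x y).1 intervalIntegrable_const,
    (lm2_shift hm h01 u x y).2, intervalIntegral.integral_const, smul_eq_mul]

theorem lim_main {C : ℝ} (hm : Measurable D) (h01 : ∀ u, 0 ≤ D u ∧ D u ≤ 1)
    (huc : ∀ ε > 0, ∃ δ > 0, ∀ᶠ u in atTop, ∀ v, |v| ≤ δ → |D (u + v) - D u| ≤ ε)
    (h : ∀ u, 1 ≤ u →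
      |D u - 1 / 2 * D (u - Real.log 2) - 1 / 2 * D (u + Real.log (3 / 2))| ≤ C / u ^ 2) :
    ∃ d, Tendsto D atTop (𝓝 d) := by
  have ha : 0 < Real.log 2 := Real.log_pos (by norm_num)
  have hac : Real.log (3 / 2) < Real.log 2 := Real.log_lt_log (by norm_num) (by norm_num)
  have h0 : Tendsto (fun u => D u - 1 / 2 * D (u - Real.log 2) - 1 / 2 * D (u + Real.log (3 / 2)))
      atTop (𝓝 0) := by
    refine squeeze_zero_norm' ((eventually_ge_atTop 1).mono fun u hu => h u hu) ?_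
    exact tendsto_const_nhds.div_atTop (tendsto_pow_atTop two_ne_zero)
  have hv := lim_all huc (lim_cd ha h01 h0).1 (lim_cd ha h01 h0).2
  generalize Real.log 2 = a at *
  generalize Real.log (3 / 2) = c at *
  have mE : Measurable fun u => D u - 1 / 2 * D (u - a) - 1 / 2 * D (u + c) :=
    (hm.sub ((hm.comp (measurable_sub_const a)).const_mul _)).sub
      ((hm.comp (measurable_add_const c)).const_mul _)
  have iE : MeasureTheory.IntegrableOn (fun u => D u - 1 / 2 * D (u - a) - 1 / 2 * D (u + c))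
      (Set.Ioi 1) := by
    refine MeasureTheory.Integrable.mono'
      ((integrableOn_Ioi_rpow_of_lt (a := -2) (by norm_num) one_pos).const_mul C)
      mE.aestronglyMeasurable
      ((MeasureTheory.ae_restrict_mem measurableSet_Ioi).mono fun u hu => ?_)
    have hu' : (1 : ℝ) < u := hu
    rw [Real.rpow_neg (by linarith), Real.rpow_two, ← div_eq_mul_inv]
    exact h u hu'.le
  have t1 := MeasureTheory.intervalIntegral_tendsto_integral_Ioi 1 iE tendsto_id
  have t2 := lm2_dom hm h01 hv (-a) 0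
  have t3 := lm2_dom hm h01 hv 0 c
  refine ⟨_, ((((t1.const_mul 2).add_const (2 * (∫ v in (0 : ℝ)..0 + 1, D v) -
    (∫ v in (0 : ℝ)..(-a) + 1, D v) - ∫ v in (0 : ℝ)..c + 1, D v)).sub t2).add t3).div_const
      (a - c) |>.congr fun u => ?_⟩
  have e : (fun v => D v - 1 / 2 * D (v - a) - 1 / 2 * D (v + c)) =
      fun v => D (0 + v) - 1 / 2 * D (-a + v) - 1 / 2 * D (c + v) := by
    funext v
    rw [zero_add, neg_add_eq_sub, add_comm c v]
  rw [e, intervalIntegral.integral_sub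
      ((lm2_shift hm h01 0 _ _).1.sub ((lm2_shift hm h01 (-a) _ _).1.const_mul _))
      ((lm2_shift hm h01 c _ _).1.const_mul _),
    intervalIntegral.integral_sub (lm2_shift hm h01 0 _ _).1
      ((lm2_shift hm h01 (-a) _ _).1.const_mul _),
    intervalIntegral.integral_const_mul, intervalIntegral.integral_const_mul,
    (lm2_shift hm h01 0 _ _).2, (lm2_shift hm h01 (-a) _ _).2, (lm2_shift hm h01 c _ _).2,
    div_eq_iff (sub_pos.2 hac).ne', id, zero_add u, add_zero u, add_comm (-a) u, add_comm c u]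
  ring

end CzD
end
end

-- merged part: Pool.Agent.Work.MP_2efb47_nt.D.Den
section
/-! Existence of the density. `cnt_rec`: even `z ≤ x` correspond to `z / 2 ≤ x / 2`, odd `z ≤ x` to `w = (3 z + 1) / 2 ≤ (3 x + 1) / 2` with `w % 3 = 2`.
`den`: `D u = cnt S ⌊exp u⌋₊ / exp u`; `equi` at `Z = (3 x + 1) / 2` gives `3 #{w % 3 = 2} = cnt S Z + O(Z / log ^ 2 Z)`; `lim_main`; compose with `log x`. -/

open Finset Filter Topology
open scoped Classical

noncomputable section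
namespace CzD

theorem cnt_rec {S : Set ℕ} (hS : Inv S) (x : ℕ) : cnt S x = cnt S (x / 2) +
    ((Icc 1 ((3 * x + 1) / 2)).filter fun w => w ∈ S ∧ w % 3 = 2).card := by
  unfold cnt
  rw [← card_filter_add_card_filter_not (fun z => z % 2 = 0)]
  refine congrArg₂ (· + ·) ?_ ?_
  · refine card_nbij' (fun z => z / 2) (fun w => 2 * w) (fun z hz => ?_) (fun w hw => ?_)
      (fun z hz => ?_) (fun w _ => ?_)
    · simp only [coe_filter, mem_filter, mem_Icc, Set.mem_ofPred_eq] at hz ⊢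
      have := (hS z hz.1.1.1).1 hz.1.2
      rw [T, if_pos hz.2] at this
      exact ⟨by omega, this⟩
    · simp only [coe_filter, mem_filter, mem_Icc, Set.mem_ofPred_eq] at hw ⊢
      refine ⟨⟨by omega, (hS _ (by omega)).2 ?_⟩, by omega⟩
      rw [T, if_pos (by omega), Nat.mul_div_cancel_left _ two_pos]
      exact hw.2
    · simp only [coe_filter, mem_filter, mem_Icc, Set.mem_ofPred_eq] at hz ⊢
      omega
    · simp only
      omega
  · refine card_nbij' (fun z => (3 * z + 1) / 2) (fun w => (2 * w - 1) / 3) (fun z hz => ?_)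
      (fun w hw => ?_) (fun z hz => ?_) (fun w hw => ?_)
    · simp only [coe_filter, mem_filter, mem_Icc, Set.mem_ofPred_eq] at hz ⊢
      have := (hS z hz.1.1.1).1 hz.1.2
      rw [T, if_neg hz.2] at this
      exact ⟨by omega, this, by omega⟩
    · simp only [coe_filter, mem_filter, mem_Icc, Set.mem_ofPred_eq] at hw ⊢
      refine ⟨⟨by omega, (hS _ (by omega)).2 ?_⟩, by omega⟩
      rw [T, if_neg (by omega), show (3 * ((2 * w - 1) / 3) + 1) / 2 = w by omega]
      exact hw.2.1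
    · simp only [coe_filter, mem_filter, mem_Icc, Set.mem_ofPred_eq] at hz ⊢
      omega
    · simp only [coe_filter, mem_Icc, Set.mem_ofPred_eq] at hw ⊢
      omega

theorem cnt_lip (S : Set ℕ) {x y : ℕ} (h : x ≤ y) :
    cnt S x ≤ cnt S y ∧ cnt S y ≤ cnt S x + (y - x) := by
  unfold cnt
  refine ⟨card_le_card (filter_subset_filter _ (Icc_subset_Icc_right h)), ?_⟩
  rw [← Nat.card_Ioc]
  refine (card_le_card fun z hz => ?_).trans (card_union_le _ _)
  simp only [mem_union, mem_filter, mem_Icc, mem_Ioc] at hz ⊢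
  by_cases H : z ≤ x
  · exact Or.inl ⟨⟨hz.1.1, H⟩, hz.2⟩
  · exact Or.inr ⟨by omega, hz.1.2⟩

/-- The counting function at a real point. -/
def den_N (S : Set ℕ) (y : ℝ) : ℝ := cnt S ⌊y⌋₊

theorem den_le (S : Set ℕ) {y : ℝ} (hy : 0 ≤ y) : 0 ≤ den_N S y ∧ den_N S y ≤ y := by
  refine ⟨Nat.cast_nonneg _, le_trans ?_ (Nat.floor_le hy)⟩
  have := (cnt_lip S (Nat.zero_le ⌊y⌋₊)).2
  have h0 : cnt S 0 = 0 := by simp [cnt]
  unfold den_N
  exact_mod_cast (by omega : cnt S ⌊y⌋₊ ≤ ⌊y⌋₊)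

theorem den_lip0 (S : Set ℕ) {y z : ℝ} (hy : 0 ≤ y) (h : y ≤ z) :
    den_N S y ≤ den_N S z ∧ den_N S z ≤ den_N S y + (z - y + 1) := by
  have h1 := Nat.floor_mono h
  obtain ⟨h2, h3⟩ := cnt_lip S h1
  have h4 : (cnt S ⌊z⌋₊ : ℝ) ≤ cnt S ⌊y⌋₊ + ((⌊z⌋₊ : ℝ) - ⌊y⌋₊) := by
    rw [← Nat.cast_sub h1]
    exact_mod_cast h3
  have h5 := Nat.floor_le (hy.trans h)
  have h6 := Nat.lt_floor_add_one y
  unfold den_N
  exact ⟨by exact_mod_cast h2, by linarith only [h4, h5, h6]⟩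

theorem den_lip (S : Set ℕ) {y z : ℝ} (hy : 0 ≤ y) (hz : 0 ≤ z) :
    |den_N S z - den_N S y| ≤ |z - y| + 1 := by
  have h1 := le_abs_self (z - y)
  have h2 := neg_abs_le (z - y)
  rcases le_total y z with h | h
  · have := den_lip0 S hy h
    exact abs_le.2 ⟨by linarith only [h1, h2, this, this.1], by linarith [this.2]⟩
  · have := den_lip0 S hz h
    exact abs_le.2 ⟨by linarith [this.2], by linarith [this.1]⟩

theorem den_uc (S : Set ℕ) {y t : ℝ} (hy : 0 < y) (ht : 0 < t) :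
    |den_N S (y * t) / (y * t) - den_N S y / y| ≤ 2 * |t - 1| + 1 / y := by
  have hp := mul_pos hy ht
  have h1 := den_lip S hy.le hp.le
  obtain ⟨h2, h3⟩ := den_le S hp.le
  have e : den_N S (y * t) / (y * t) - den_N S y / y =
      (den_N S (y * t) - den_N S y) / y - den_N S (y * t) / (y * t) * (t - 1) := by
    field_simp
    ring
  rw [show y * t - y = y * (t - 1) by ring, abs_mul, abs_of_pos hy] at h1
  have h4 : |(den_N S (y * t) - den_N S y) / y| ≤ |t - 1| + 1 / y := by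
    rw [abs_div, abs_of_pos hy, div_le_iff₀ hy, add_mul, one_div_mul_cancel hy.ne']
    linarith
  have h5 : |den_N S (y * t) / (y * t) * (t - 1)| ≤ |t - 1| := by
    rw [abs_mul, abs_of_nonneg (div_nonneg h2 hp.le)]
    exact mul_le_of_le_one_left (abs_nonneg _) ((div_le_one hp).2 h3)
  rw [e]
  linarith only [h4, h5, abs_sub ((den_N S (y * t) - den_N S y) / y) (den_N S (y * t) / (y * t) * (t - 1))]

theorem den_sum (S : Set ℕ) (Z : ℕ) : ∑ z ∈ (Icc 1 Z).filter (fun z => z ∈ S), h0 z =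
    3 * (((Icc 1 Z).filter fun w => w ∈ S ∧ w % 3 = 2).card : ℝ) - cnt S Z := by
  have e : ∀ z : ℕ, h0 z = 3 * (if z % 3 = 2 then 1 else 0) - 1 := fun z => by
    unfold h0
    by_cases H : z % 3 = 2
    · rw [if_pos H, if_pos (by omega)]
      norm_num
    · rw [if_neg H, if_neg (by omega)]
      norm_num
  simp only [e, sum_sub_distrib, ← mul_sum, sum_boole, filter_filter, sum_const, nsmul_eq_mul,
    mul_one, cnt]

theorem den_rel {S : Set ℕ} (hS : Inv S) {C : ℝ} (hC : ∀ Z : ℕ, 2 ≤ Z →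
    |∑ z ∈ (Icc 1 Z).filter (fun z => z ∈ S), h0 z| ≤ C * Z / Real.log Z ^ 2) {u : ℝ} (hu : 1 ≤ u) :
    |den_N S (Real.exp u) - den_N S (Real.exp u / 2) - den_N S (Real.exp u * (3 / 2)) / 3| ≤
      (|C| + 2) * Real.exp u / u ^ 2 := by
  have hq := Real.quadratic_le_exp_of_nonneg (by linarith : 0 ≤ u)
  have hl := Real.log_exp u
  generalize Real.exp u = y at *
  have hu2 : 1 ≤ u ^ 2 := by linarith only [hu, mul_nonneg_of_nonpos_of_nonpos (Mathlib.Tactic.Linarith.sub_nonpos_of_le hu) (Mathlib.Tactic.Linarith.sub_nonpos_of_le hu)]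
  have hx : 2 ≤ ⌊y⌋₊ := Nat.le_floor (by push_cast; linarith only [hu, hq, hu2])
  have h1 := Nat.floor_le (by linarith only [hu, hq, hu2] : 0 ≤ y)
  have h2 := Nat.lt_floor_add_one y
  have h3 := cnt_rec hS ⌊y⌋₊
  have h4 : den_N S (y / 2) = cnt S (⌊y⌋₊ / 2) := by rw [den_N, Nat.floor_div_ofNat]
  obtain ⟨Z, hZ⟩ : ∃ Z, Z = (3 * ⌊y⌋₊ + 1) / 2 := ⟨_, rfl⟩
  rw [← hZ] at h3
  have z1 : (⌊y⌋₊ : ℝ) + 1 ≤ Z := by exact_mod_cast (by omega : ⌊y⌋₊ + 1 ≤ Z)
  have z2 : 2 * (Z : ℝ) ≤ 3 * ⌊y⌋₊ + 1 := by exact_mod_cast (by omega : 2 * Z ≤ 3 * ⌊y⌋₊ + 1)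
  have z3 : 3 * (⌊y⌋₊ : ℝ) ≤ 2 * Z := by exact_mod_cast (by omega : 3 * ⌊y⌋₊ ≤ 2 * Z)
  have h5 := hC Z (by omega)
  rw [den_sum] at h5
  have h6 := den_lip S (y := y * (3 / 2)) (z := Z) (by linarith only [hu, hq, hu2]) (Nat.cast_nonneg _)
  have h7 : |(Z : ℝ) - y * (3 / 2)| ≤ 2 := abs_le.2 ⟨by linarith only [h2, z3], by linarith only [h1, z2]⟩
  rw [show den_N S Z = cnt S Z by rw [den_N, Nat.floor_natCast]] at h6
  have h8 : u ≤ Real.log Z := hl ▸ Real.log_le_log (by linarith only [hu, hq, hu2]) (by linarith only [h2, z1])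
  have h9 : C * Z / Real.log Z ^ 2 ≤ |C| * (3 * y) / u ^ 2 := by
    refine le_trans (div_le_div_of_nonneg_right (mul_le_mul (le_abs_self C)
      (by linarith only [hu, hq, hu2, h1, z2] : (Z : ℝ) ≤ 3 * y) (Nat.cast_nonneg _) (abs_nonneg C)) (sq_nonneg _)) ?_
    exact div_le_div_of_nonneg_left (mul_nonneg (abs_nonneg C) (by linarith only [hu, hq, hu2])) (by linarith only [hu2])
      (pow_le_pow_left₀ (by linarith only [hu]) h8 2)
  have h10 : 1 ≤ 2 * y / u ^ 2 := by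
    rw [le_div_iff₀ (by linarith only [hu2])]
    linarith only [hu, hq]
  have e : (|C| + 2) * y / u ^ 2 = |C| * (3 * y) / u ^ 2 / 3 + 2 * y / u ^ 2 := by ring
  have h11 : den_N S y = cnt S (⌊y⌋₊ / 2) +
      (((Icc 1 Z).filter fun w => w ∈ S ∧ w % 3 = 2).card : ℝ) := by
    rw [den_N, h3, Nat.cast_add]
  rw [h4, h11, e]
  obtain ⟨a1, a2⟩ := abs_le.1 h5
  obtain ⟨b1, b2⟩ := abs_le.1 h6
  exact abs_le.2 ⟨by linarith only [h7, h9, h10, a1, b1], by linarith only [h7, h9, h10, a2, b2]⟩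

theorem den {S : Set ℕ} (hS : Inv S) :
    ∃ d : ℝ, Tendsto (fun x : ℕ => (cnt S x : ℝ) / x) atTop (𝓝 d) := by
  obtain ⟨C, hC⟩ := equi
  refine (lim_main (D := fun u => den_N S (Real.exp u) / Real.exp u) (C := |C| + 2)
    (((Measurable.of_discrete (f := fun n : ℕ => (cnt S n : ℝ))).comp
      (Nat.measurable_floor.comp Real.measurable_exp)).div Real.measurable_exp)
    (fun u => ⟨div_nonneg (den_le S (Real.exp_pos u).le).1 (Real.exp_pos u).le,
      (div_le_one (Real.exp_pos u)).2 (den_le S (Real.exp_pos u).le).2⟩) (fun ε hε => ?_)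
    (fun u hu => ?_)).imp fun d hd => ?_
  · refine ⟨min 1 (ε / 8), by positivity, ?_⟩
    filter_upwards [Real.tendsto_exp_atTop.eventually_ge_atTop (2 / ε)] with u hu v hv
    have h1 := den_uc S (Real.exp_pos u) (Real.exp_pos v)
    have h2 := Real.abs_exp_sub_one_le (hv.trans (min_le_left _ _))
    have h3 := hv.trans (min_le_right _ _)
    have h4 : 1 / Real.exp u ≤ ε / 2 := by
      rw [div_le_iff₀ hε] at hu
      rw [div_le_iff₀ (Real.exp_pos u)]
      linarith only [hu]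
    rw [Real.exp_add]
    linarith only [h1, h2, h3, h4]
  · have h1 := den_rel hS (hC S hS) hu
    have hp := Real.exp_pos u
    rw [Real.exp_add, Real.exp_sub, Real.exp_log two_pos, Real.exp_log (by norm_num)]
    rw [show den_N S (Real.exp u) / Real.exp u -
        1 / 2 * (den_N S (Real.exp u / 2) / (Real.exp u / 2)) -
        1 / 2 * (den_N S (Real.exp u * (3 / 2)) / (Real.exp u * (3 / 2))) =
        (den_N S (Real.exp u) - den_N S (Real.exp u / 2) - den_N S (Real.exp u * (3 / 2)) / 3) /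
          Real.exp u by field_simp, abs_div, abs_of_pos hp, div_le_iff₀ hp, div_mul_eq_mul_div]
    exact h1
  · refine (hd.comp (Real.tendsto_log_atTop.comp tendsto_natCast_atTop_atTop)).congr' ?_
    filter_upwards [eventually_gt_atTop 0] with x hx
    simp only [Function.comp, Real.exp_log (Nat.cast_pos.2 hx : (0 : ℝ) < x), den_N,
      Nat.floor_natCast]

end CzD
end
end

-- merged part: Pool.Agent.Work.MP_2efb47_nt.D.Pos2
section
/-! A good residue class. The mean of `PP d0 d0` over a period `3 ^ (d0 ^ 2 + d0)` is `#(GG d0) / 2 ^ (d0 ^ 2) ≥ 1 / 2` (`av_paths`, `av_FF`, `card_rr_gt`, `Ex_tail`); `PP d d a ≥ PP d0 d0 a - 2 C (1 / (d0 - 1) - 1 / (d - 1))` by induction; every `L ≥ d0 ^ 2 + d0` is `d ^ 2 + j` with `d ≤ j ≤ 4 d`, and `PP d j a ≤ FF (d ^ 2 + j) a` (`FF_add`). -/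

open Finset Filter Topology
open scoped Classical

noncomputable section
namespace CzD

theorem card_GG : ∀ᶠ d : ℕ in atTop, (1 / 2 : ℝ) ≤ (GG d).card / 2 ^ d ^ 2 := by
  obtain ⟨ρ, h0, h1, hρ⟩ := Ex_tail (δ := 1 / 20) (by norm_num)
  have ht : ∀ᶠ d : ℕ in atTop, ρ ^ d ≤ 1 / 4 :=
    (tendsto_pow_atTop_nhds_zero_of_lt_one h0.le h1).eventually (ge_mem_nhds (by norm_num))
  filter_upwards [ht, eventually_ge_atTop 1] with d hd hd1
  have hL : ρ ^ d ^ 2 ≤ 1 / 4 :=
    (pow_le_pow_of_le_one h0.le h1.le (Nat.le_self_pow two_ne_zero d)).trans hd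
  have hA := (hρ (d ^ 2)).1
  rw [Ex_ind] at hA
  have hd0 : (0 : ℝ) < ((d ^ 2 : ℕ) : ℝ) := by positivity
  have hB := card_rr_gt (d ^ 2) hd0
  have hB' : ((d ^ 2 : ℕ) : ℝ) / (4 * ((d ^ 2 : ℕ) : ℝ)) = 1 / 4 := by
    field_simp
  rw [hB'] at hB
  have hp : (0 : ℝ) < 2 ^ d ^ 2 := by positivity
  have hA' := (div_le_iff₀ hp).1 (hA.trans hL)
  have hsub : allB (d ^ 2) ⊆ GG d ∪
      ((allB (d ^ 2)).filter (fun β => (1 / 2 + 1 / 20 : ℝ) * ((d ^ 2 : ℕ) : ℝ) ≤ (cn β : ℝ)) ∪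
        (allB (d ^ 2)).filter fun β => ((d ^ 2 : ℕ) : ℝ) * 2 ^ d ^ 2 < (rr β : ℝ)) := by
    intro β hβ
    simp only [GG, mem_union, mem_filter]
    by_cases c1 : 20 * cn β ≤ 11 * d ^ 2
    · by_cases c2 : rr β ≤ d ^ 2 * 2 ^ d ^ 2
      · exact Or.inl ⟨hβ, c1, c2⟩
      · refine Or.inr (Or.inr ⟨hβ, ?_⟩)
        have c3 : d ^ 2 * 2 ^ d ^ 2 < rr β := not_le.1 c2
        exact_mod_cast c3
    · refine Or.inr (Or.inl ⟨hβ, ?_⟩)
      have c3 : 11 * d ^ 2 ≤ 20 * cn β := (not_le.1 c1).le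
      have c4 : (11 : ℝ) * ((d ^ 2 : ℕ) : ℝ) ≤ 20 * (cn β : ℝ) := by exact_mod_cast c3
      linarith only [c4]
  have hc := (card_le_card hsub).trans ((card_union_le _ _).trans
    (Nat.add_le_add_left (card_union_le _ _) _))
  rw [card_allB] at hc
  have hc' := (Nat.cast_le (α := ℝ)).2 hc
  simp only [Nat.cast_add] at hc'
  rw [Nat.cast_pow, Nat.cast_ofNat] at hc'
  rw [le_div_iff₀ hp]
  linarith only [hB, hA', hc']

theorem FF_three {a : ℤ} (h : 3 ∣ a) (L : ℕ) : FF L a = 1 / 2 ^ L := by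
  induction L generalizing a with
  | zero => simp [FF, allB, tm, rr]
  | succ L ih =>
    have h1 := FF_add 1 L a
    rw [add_comm 1 L] at h1
    rw [h1, sum_allB_succ]
    have h2 : ¬ (3 : ℤ) ∣ 2 * a - 1 := by omega
    have h3 : (3 : ℤ) ∣ 2 * a := by omega
    have h4 := ih h3
    simp only [allB, sum_singleton]
    have e1 : tm [false] (FF L) a = 1 / 2 * FF L (2 * a) := by simp [tm, rr]
    have e2 : tm [true] (FF L) a = 0 := by simp [tm, rr, h2]
    rw [e1, e2, h4, pow_succ]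
    field_simp
    ring

theorem ps2_PP_le (d j : ℕ) (a : ℤ) : PP d j a ≤ FF (d ^ 2 + j) a := by
  rw [FF_add]
  exact sum_le_sum_of_subset_of_nonneg (filter_subset _ _)
    fun β _ _ => tm_nonneg (FF_nonneg j) β a

theorem ps2_paths (d : ℕ) : Per (d ^ 2 + d) (PP d d) ∧
    av (d ^ 2 + d) (PP d d) = (GG d).card / 2 ^ d ^ 2 := by
  have hG : ∀ β ∈ GG d, β.length = d ^ 2 := fun β hβ => mem_allB.1 (mem_filter.1 hβ).1
  have h := av_paths (per_FF d) (n' := d ^ 2 + d) hG fun β hβ => by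
    have := cn_le β
    rw [hG β hβ] at this
    omega
  refine ⟨h.1, ?_⟩
  have h2 := h.2.1
  rw [av_FF, mul_one] at h2
  exact h2

theorem ps2_exists {n : ℕ} {φ : ℤ → ℝ} {c : ℝ} (h : c ≤ av n φ) : ∃ w, c ≤ φ w := by
  by_contra hc
  push Not at hc
  have hp : (0 : ℝ) < 3 ^ n := by positivity
  have h1 : ∑ w ∈ range (3 ^ n), φ w < ∑ _w ∈ range (3 ^ n), c :=
    sum_lt_sum_of_nonempty ⟨0, mem_range.2 (by positivity)⟩ fun w _ => hc w
  rw [sum_const, card_range, nsmul_eq_mul] at h1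
  rw [av, le_div_iff₀ hp] at h
  push_cast at h1
  linarith

theorem ps2_split {d0 L : ℕ} (hd : 1 ≤ d0) (h : d0 ^ 2 + d0 ≤ L) :
    ∃ d j, d0 ≤ d ∧ d ≤ j ∧ j ≤ 4 * d ∧ L = d ^ 2 + j := by
  induction L, h using Nat.le_induction with
  | base => exact ⟨d0, d0, le_rfl, le_rfl, by omega, rfl⟩
  | succ L _ ih =>
    obtain ⟨d, j, h1, h2, h3, h4⟩ := ih
    by_cases c : j + 1 ≤ 4 * d
    · exact ⟨d, j + 1, h1, by omega, c, by omega⟩
    · refine ⟨d + 1, 2 * d, by omega, by omega, by omega, ?_⟩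
      have : j = 4 * d := by omega
      rw [h4, this]
      ring

theorem good_class : ∃ (K : ℕ) (a0 : ℤ), ¬ 3 ∣ a0 ∧ ∀ a : ℤ, (3 : ℤ) ^ K ∣ a - a0 →
    ∀ L, K ≤ L → 1 / 4 ≤ FF L a := by
  obtain ⟨C1, hC1, s1⟩ := stage1
  obtain ⟨C2, hC2, s2⟩ := stage2
  have hev : ∀ᶠ d : ℕ in atTop, 4 * (2 * C1 + C2) + 1 ≤ (d : ℝ) :=
    tendsto_natCast_atTop_atTop.eventually (eventually_ge_atTop _)
  obtain ⟨d0, hG, hbig, h80⟩ := (card_GG.and (hev.and (eventually_ge_atTop 80))).exists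
  obtain ⟨hper, hav⟩ := ps2_paths d0
  rw [← hav] at hG
  obtain ⟨a0, ha0⟩ := ps2_exists hG
  refine ⟨d0 ^ 2 + d0, a0, fun h3 => ?_, fun a ha L hL => ?_⟩
  · have h1 := ps2_PP_le d0 d0 a0
    rw [FF_three h3] at h1
    have h2 : (2 : ℝ) ^ 2 ≤ 2 ^ (d0 ^ 2 + d0) := pow_le_pow_right₀ (by norm_num) (by omega)
    have h4 : (1 : ℝ) / 2 ^ (d0 ^ 2 + d0) ≤ 1 / 2 ^ 2 :=
      one_div_le_one_div_of_le (by norm_num) h2
    norm_num at h4 h1 ha0
    linarith only [h4, h1, ha0]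
  · have hpa : PP d0 d0 a = PP d0 d0 a0 := by
      obtain ⟨k, hk⟩ := ha
      have e : a = a0 + k * 3 ^ (d0 ^ 2 + d0) := by linear_combination hk
      rw [e]
      exact hper.mul a0 k
    have hd0 : (80 : ℝ) ≤ d0 := by exact_mod_cast h80
    have key : ∀ d, d0 ≤ d → 1 / 2 - (C1 + C2) * (1 / ((d0 : ℝ) - 1) - 1 / ((d : ℝ) - 1)) ≤
        PP d d a := by
      intro d hd
      induction d, hd using Nat.le_induction with
      | base => rw [hpa]; simpa using ha0
      | succ d hd ih =>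
        have hd' : (80 : ℝ) ≤ d := by exact_mod_cast h80.trans hd
        have t1 := s1 d (3 * d + 2) (h80.trans hd) (by omega) (by omega) a
        have t2 := s2 d (h80.trans hd) a
        have t3 : 1 / (d : ℝ) ^ 2 ≤ 1 / ((d : ℝ) - 1) - 1 / (d : ℝ) := by
          have p1 : (0 : ℝ) < (d : ℝ) - 1 := by linarith only [hd']
          have p2 : (0 : ℝ) < (d : ℝ) := by linarith only [hd']
          rw [div_sub_div _ _ p1.ne' p2.ne', div_le_div_iff₀ (by positivity) (by positivity)]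
          linarith only [hd']
        have t4 := mul_le_mul_of_nonneg_left t3 (add_pos hC1 hC2).le
        have e1 : C1 / (d : ℝ) ^ 2 = C1 * (1 / (d : ℝ) ^ 2) := by ring
        have e2 : C2 / (d : ℝ) ^ 2 = C2 * (1 / (d : ℝ) ^ 2) := by ring
        have e3 : ((d + 1 : ℕ) : ℝ) - 1 = d := by push_cast; ring
        rw [e3]
        rw [e1] at t1
        rw [e2] at t2
        linarith only [ih, t1, t2, t4]
    obtain ⟨d, j, h1, h2, h3, rfl⟩ := ps2_split (by omega) hL
    have hd' : (d0 : ℝ) ≤ d := by exact_mod_cast h1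
    have u1 := key d h1
    have u2 := s1 d j (h80.trans h1) h2 h3 a
    have u3 := ps2_PP_le d j a
    have p0 : (0 : ℝ) < (d0 : ℝ) - 1 := by linarith only [hd0]
    have p1 : (0 : ℝ) ≤ 1 / ((d : ℝ) - 1) := by
      apply div_nonneg zero_le_one
      linarith only [hd0, hd']
    have p2 : 1 / (d : ℝ) ^ 2 ≤ 1 / ((d0 : ℝ) - 1) :=
      one_div_le_one_div_of_le p0 (by linarith only [hd0, hd', mul_nonneg_of_nonpos_of_nonpos (Mathlib.Tactic.Linarith.sub_nonpos_of_le (Mathlib.Tactic.Linarith.natCast_nonneg ℝ d0)) (Mathlib.Tactic.Linarith.sub_nonpos_of_le hd0), mul_nonneg_of_nonpos_of_nonpos (Mathlib.Tactic.Linarith.sub_nonpos_of_le (Mathlib.Tactic.Linarith.natCast_nonneg ℝ d0)) (Mathlib.Tactic.Linarith.sub_nonpos_of_le hd'), mul_nonneg_of_nonpos_of_nonpos (Mathlib.Tactic.Linarith.sub_nonpos_of_le (Mathlib.Tactic.Linarith.natCast_nonneg ℝ d)) (Mathlib.Tactic.Linarith.sub_nonpos_of_le hd')])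
    have p3 : (2 * C1 + C2) * (1 / ((d0 : ℝ) - 1)) ≤ 1 / 4 := by
      rw [mul_one_div, div_le_iff₀ p0]
      linarith only [hbig]
    have e1 : C1 / (d : ℝ) ^ 2 = C1 * (1 / (d : ℝ) ^ 2) := by ring
    rw [e1] at u2
    have p4 := mul_le_mul_of_nonneg_left p2 hC1.le
    have p5 := mul_nonneg (add_pos hC1 hC2).le p1
    linarith only [u1, u2, u3, p3, p4, p5]

end CzD
end
end

-- merged part: Pool.Agent.Work.MP_2efb47_nt.D.Pos3
section
/-! Positivity. `pre_sum`: the valid paths give distinct `z ≤ 2 ^ L a` with `T^[L] z = a` and `3 ^ k / 2 ^ L ≤ a / z`. `exists_start`: the orbit of `n` contains `b` prime to three; `prim`; if `a = 2 ^ j b` is periodic it lies in the then finite orbit of `b`, so a large `j` works.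
`pos`: the sets `{z | T^[L] z = a}` are disjoint, so `∑ 1 / z` over `z ∈ S`, `z ≤ 2 ^ I a` is at least `(I - K) / (4 a)`; if the density is `0` this sum is `o(I)` (dyadic blocks, Cesaro means). -/

open Finset Filter Topology
open scoped Classical

noncomputable section
namespace CzD

theorem pre_sum {a : ℕ} (ha : 1 ≤ a) (L : ℕ) :
    FF L a / a ≤ ∑ z ∈ (Icc 1 (2 ^ L * a)).filter (fun z => T^[L] z = a), (1 : ℝ) / z := by
  have ha' : (0 : ℝ) < a := by exact_mod_cast ha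
  set Z := (Icc 1 (2 ^ L * a)).filter (fun z => T^[L] z = a) with hZ
  have nn : ∀ β, 0 ≤ tm β (fun _ => (1 : ℝ)) (a : ℤ) := fun β => tm_nonneg (fun _ => zero_le_one) β _
  have h1 : FF L a ≤ ∑ β ∈ Z.image (par L), tm β (fun _ => (1 : ℝ)) (a : ℤ) := by
    rw [FF, ← sum_filter_ne_zero]
    refine sum_le_sum_of_subset_of_nonneg (fun β hβ => ?_) fun β _ _ => nn β
    obtain ⟨k1, k2⟩ := mem_filter.1 hβ
    have k3 : (3 : ℤ) ^ cn β ∣ 2 ^ β.length * (a : ℤ) - rr β := by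
      by_contra k
      exact k2 (by rw [tm, if_neg k])
    obtain ⟨z, z1, z2⟩ := valid_pos ha k3
    obtain ⟨z3, z4⟩ := par_uniq z2
    rw [mem_allB.1 k1] at z2 z3 z4
    refine mem_image.2 ⟨z, mem_filter.2 ⟨mem_Icc.2 ⟨z1, ?_⟩, z4⟩, z3⟩
    have : 1 * z ≤ 3 ^ cn β * z := Nat.mul_le_mul_right z (Nat.one_le_pow _ _ (by norm_num))
    omega
  have h2 := h1.trans (sum_image_le_of_nonneg fun β _ => nn β)
  refine (div_le_div_of_nonneg_right h2 ha'.le).trans ?_
  rw [sum_div]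
  refine sum_le_sum fun z hz => ?_
  obtain ⟨z1, z2⟩ := mem_filter.1 hz
  have z0 : (0 : ℝ) < z := by exact_mod_cast (mem_Icc.1 z1).1
  have e := par_spec L z
  rw [z2] at e
  have e' : (3 : ℝ) ^ cn (par L z) * z ≤ 2 ^ L * a := by
    exact_mod_cast e ▸ Nat.le_add_right _ _
  have k : tm (par L z) (fun _ => (1 : ℝ)) (a : ℤ) ≤ 3 ^ cn (par L z) / 2 ^ L := by
    rw [tm, par_len]
    split_ifs
    · rw [mul_one]
    · positivity
  rw [div_le_div_iff₀ ha' z0]
  refine (mul_le_mul_of_nonneg_right k z0.le).trans ?_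
  rw [div_mul_eq_mul_div, div_le_iff₀ (by positivity)]
  linarith only [e']

theorem ps3_three (n : ℕ) : 1 ≤ n → ∃ L, ¬ 3 ∣ T^[L] n := by
  induction n using Nat.strong_induction_on with
  | _ n ih =>
    intro hn
    by_cases k : n % 2 = 0
    · obtain ⟨L, hL⟩ := ih (n / 2) (by omega) (by omega)
      exact ⟨L + 1, by rwa [Function.iterate_succ_apply, T, if_pos k]⟩
    · refine ⟨1, ?_⟩
      rw [Function.iterate_one, T, if_neg k]
      omega

theorem ps3_two (j b : ℕ) : T^[j] (2 ^ j * b) = b := by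
  induction j with
  | zero => simp
  | succ j ih =>
    have e : T (2 ^ (j + 1) * b) = 2 ^ j * b := by
      rw [T, pow_succ', mul_assoc, if_pos (Nat.mul_mod_right _ _), Nat.mul_div_cancel_left _ two_pos]
    rw [Function.iterate_succ_apply, e, ih]

theorem ps3_np {b : ℕ} (hb : 1 ≤ b) : ∃ J, ∀ j, J ≤ j → ∀ p, 1 ≤ p → T^[p] (2 ^ j * b) ≠ 2 ^ j * b := by
  by_cases H : ∃ q, 1 ≤ q ∧ T^[q] b = b
  · obtain ⟨q, q1, q2⟩ := H
    refine ⟨∑ i ∈ range q, T^[i] b, fun j hj p hp e => ?_⟩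
    have e1 : Function.IsPeriodicPt T p (2 ^ j * b) := e
    have e2 : T^[p * j] (2 ^ j * b) = 2 ^ j * b := e1.mul_const j
    obtain ⟨r, hr⟩ := Nat.exists_eq_add_of_le' (Nat.le_mul_of_pos_left j hp)
    rw [hr, Function.iterate_add_apply, ps3_two,
      ← Function.IsPeriodicPt.iterate_mod_apply (show Function.IsPeriodicPt T q b from q2)] at e2
    have e3 : T^[r % q] b ≤ ∑ i ∈ range q, T^[i] b :=
      single_le_sum (f := fun i => T^[i] b) (fun _ _ => Nat.zero_le _)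
        (mem_range.2 (Nat.mod_lt _ q1))
    have e4 : j < 2 ^ j := Nat.lt_two_pow_self
    have e5 : 2 ^ j * 1 ≤ 2 ^ j * b := Nat.mul_le_mul_left _ hb
    omega
  · refine ⟨0, fun j _ p hp e => H ⟨p, hp, ?_⟩⟩
    have e1 := congrArg T^[j] e
    rwa [← Function.iterate_add_apply, add_comm, Function.iterate_add_apply, ps3_two] at e1

theorem exists_start {S : Set ℕ} (hS : Inv S) {n : ℕ} (hn : 1 ≤ n) (h : n ∈ S) {a0 : ℤ}
    (h0 : ¬ 3 ∣ a0) (K : ℕ) : ∃ a : ℕ, 1 ≤ a ∧ a ∈ S ∧ (3 : ℤ) ^ K ∣ a - a0 ∧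
      ∀ p, 1 ≤ p → T^[p] a ≠ a := by
  obtain ⟨L, hL⟩ := ps3_three n hn
  have b1 := T_pos hn L
  obtain ⟨J, hJ⟩ := ps3_np b1
  obtain ⟨j, j1, j2⟩ := prim (b := (T^[L] n : ℕ)) h0 (by exact_mod_cast hL) K J
  have a1 : 1 ≤ 2 ^ j * T^[L] n := Nat.mul_pos (by positivity) b1
  refine ⟨2 ^ j * T^[L] n, a1, ?_, by exact_mod_cast j2, hJ j j1⟩
  rw [hS.iter a1 j, ps3_two]
  exact (hS.iter hn L).1 h

theorem ps3_dy (S : Set ℕ) (I : ℕ) :
    ∑ z ∈ (Icc 1 (2 ^ I)).filter (fun z => z ∈ S), (1 : ℝ) / z ≤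
      1 + ∑ i ∈ range I, 2 * ((cnt S (2 ^ (i + 1)) : ℝ) / (2 ^ (i + 1) : ℕ)) := by
  induction I with
  | zero =>
    rw [pow_zero, Icc_self, sum_range_zero, add_zero]
    refine (sum_le_sum_of_subset_of_nonneg (filter_subset _ _) fun _ _ _ => by positivity).trans ?_
    simp
  | succ I ih =>
    have sub : (Icc 1 (2 ^ I)).filter (fun z => z ∈ S) ⊆
        (Icc 1 (2 ^ (I + 1))).filter (fun z => z ∈ S) :=
      filter_subset_filter _ (Icc_subset_Icc_right (Nat.pow_le_pow_right two_pos I.le_succ))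
    rw [← sum_sdiff sub, sum_range_succ, ← add_assoc, add_comm]
    refine add_le_add ih ?_
    refine (sum_le_card_nsmul _ _ ((1 : ℝ) / 2 ^ I) fun z hz => ?_).trans ?_
    · obtain ⟨z1, z2⟩ := mem_sdiff.1 hz
      obtain ⟨z3, z4⟩ := mem_filter.1 z1
      have z5 : 2 ^ I ≤ z := by
        by_contra k
        exact z2 (mem_filter.2 ⟨mem_Icc.2 ⟨(mem_Icc.1 z3).1, by omega⟩, z4⟩)
      exact one_div_le_one_div_of_le (by positivity) (by exact_mod_cast z5)
    · have c : (((Icc 1 (2 ^ (I + 1))).filter (fun z => z ∈ S) \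
          (Icc 1 (2 ^ I)).filter (fun z => z ∈ S)).card : ℝ) ≤ cnt S (2 ^ (I + 1)) := by
        exact_mod_cast card_le_card sdiff_subset
      rw [nsmul_eq_mul]
      refine (mul_le_mul_of_nonneg_right c (by positivity)).trans (le_of_eq ?_)
      push_cast
      rw [pow_succ (2 : ℝ)]
      field_simp

theorem log_small {S : Set ℕ} (h : Tendsto (fun x : ℕ => (cnt S x : ℝ) / x) atTop (𝓝 0)) :
    Tendsto (fun I : ℕ => (∑ z ∈ (Icc 1 (2 ^ I)).filter (fun z => z ∈ S), (1 : ℝ) / z) / I) atTop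
      (𝓝 0) := by
  have h1 : Tendsto (fun i : ℕ => 2 * ((cnt S (2 ^ (i + 1)) : ℝ) / (2 ^ (i + 1) : ℕ))) atTop (𝓝 0) := by
    have k := (h.comp ((tendsto_pow_atTop_atTop_of_one_lt one_lt_two).comp
      (tendsto_add_atTop_nat 1))).const_mul 2
    rwa [mul_zero] at k
  have h2 := (tendsto_inv_atTop_nhds_zero_nat (𝕜 := ℝ)).add h1.cesaro
  rw [add_zero] at h2
  refine squeeze_zero (fun I => by positivity) (fun I => ?_) h2
  refine (div_le_div_of_nonneg_right (ps3_dy S I) (Nat.cast_nonneg I)).trans (le_of_eq ?_)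
  rw [div_eq_inv_mul, mul_add, mul_one]

theorem pos {S : Set ℕ} (hS : Inv S) {n : ℕ} (hn : 1 ≤ n) (h : n ∈ S) {d : ℝ}
    (hd : Tendsto (fun x : ℕ => (cnt S x : ℝ) / x) atTop (𝓝 d)) : 0 < d := by
  refine (ge_of_tendsto' hd fun x => by positivity).lt_of_ne fun e => ?_
  subst e
  obtain ⟨K, a0, h0, hK⟩ := good_class
  obtain ⟨a, a1, a2, a3, a4⟩ := exists_start hS hn h h0 K
  have ha' : (0 : ℝ) < a := by exact_mod_cast a1
  obtain ⟨M, hM⟩ := eventually_atTop.1
    ((log_small hd).eventually (gt_mem_nhds (show (0 : ℝ) < 1 / (8 * a) by positivity)))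
  have k1 := hM (K + (K + a + M) + a) (by omega)
  have dj : ∀ {L L' z : ℕ}, L < L' → T^[L] z = a → T^[L'] z ≠ a := by
    intro L L' z hL e1 e2
    obtain ⟨p, rfl⟩ := Nat.exists_eq_add_of_lt hL
    rw [add_assoc, add_comm, Function.iterate_add_apply, e1] at e2
    exact a4 _ (by omega) e2
  have k2 : ∑ L ∈ Ico K (K + (K + a + M)),
      ∑ z ∈ (Icc 1 (2 ^ L * a)).filter (fun z => T^[L] z = a), (1 : ℝ) / z ≤
      ∑ z ∈ (Icc 1 (2 ^ (K + (K + a + M) + a))).filter (fun z => z ∈ S), (1 : ℝ) / z := by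
    rw [← sum_biUnion]
    · refine sum_le_sum_of_subset_of_nonneg (fun z hz => ?_) fun _ _ _ => by positivity
      obtain ⟨L, L1, L2⟩ := mem_biUnion.1 hz
      obtain ⟨z1, z2⟩ := mem_filter.1 L2
      obtain ⟨z3, z4⟩ := mem_Icc.1 z1
      refine mem_filter.2 ⟨mem_Icc.2 ⟨z3, z4.trans ?_⟩, (hS.iter z3 L).2 (z2 ▸ a2)⟩
      rw [pow_add]
      exact Nat.mul_le_mul (Nat.pow_le_pow_right two_pos (mem_Ico.1 L1).2.le)
        Nat.lt_two_pow_self.le
    · intro L _ L' _ hn'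
      refine disjoint_left.2 fun z h1 h2 => ?_
      rcases lt_or_gt_of_ne hn' with k | k
      · exact dj k (mem_filter.1 h1).2 (mem_filter.1 h2).2
      · exact dj k (mem_filter.1 h2).2 (mem_filter.1 h1).2
  have k3 := (card_nsmul_le_sum (Ico K (K + (K + a + M))) _ ((1 : ℝ) / 4 / a) fun L hL =>
    (div_le_div_of_nonneg_right (hK a a3 L (mem_Ico.1 hL).1) ha'.le).trans (pre_sum a1 L)).trans k2
  rw [Nat.card_Ico, Nat.add_sub_cancel_left, nsmul_eq_mul] at k3
  rw [div_lt_iff₀ (by exact_mod_cast (by omega))] at k1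
  have k4 := k3.trans_lt k1
  push_cast at k4
  rw [div_div, mul_one_div, one_div_mul_eq_div, div_lt_div_iff₀ (by positivity) (by positivity)] at k4
  have : (0 : ℝ) ≤ M * a := by positivity
  linarith only [k4, this]

end CzD
end
end

-- merged part: Pool.Agent.Work.MP_2efb47_nt.D.Mn4
section
/-! The support of the law of the minimum. `far`: if some `2 ^ j0 a` is in the orbit of `c`, this orbit is contained in a finite set together with the orbit of `a`; if `2 ^ j a`, `j ≥ 1`, is in the orbit of `a` then `a` is periodic and its orbit is finite.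
`posA`: `good_class`, `prim` with the `J` of `far`, `b = 2 ^ j a` is not periodic, every `z ≥ 1` with `T^[L] z = b` has `mnT z = a`; then as in `pos` (`pre_sum`, `log_small`).
`zeroA`: the set is empty, or `3 ∣ a` and it consists of numbers `2 ^ k a`. -/

open Finset Filter Topology
open scoped Classical

noncomputable section
namespace CzD

theorem mnT_le (n k : ℕ) : mnT n ≤ T^[k] n := by
  exact Nat.sInf_le ⟨k, rfl⟩

theorem mnT_mem (n : ℕ) : ∃ k, T^[k] n = mnT n := by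
  exact Nat.sInf_mem (s := Set.range fun k => T^[k] n) ⟨n, 0, rfl⟩

theorem mn4_mono (n k : ℕ) : mnT n ≤ mnT (T^[k] n) := by
  obtain ⟨j, hj⟩ := mnT_mem (T^[k] n)
  rw [← hj, ← Function.iterate_add_apply]
  exact mnT_le _ _

theorem AInv_mn (A : Set ℕ) : AInv {n | mnT n ∈ A} := by
  intro n _ h
  have e : mnT n = mnT (T n) := by
    refine le_antisymm (mn4_mono n 1) ?_
    obtain ⟨j, hj⟩ := mnT_mem n
    rcases j with _ | j
    · by_contra c
      refine h fun k hk => ?_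
      obtain ⟨k, rfl⟩ := Nat.exists_eq_add_of_le' hk
      have k1 := mnT_le (T n) k
      rw [Function.iterate_succ_apply]
      rw [Function.iterate_zero_apply] at hj
      omega
    · rw [← hj, Function.iterate_succ_apply]
      exact mnT_le _ _
  change mnT n ∈ A ↔ mnT (T n) ∈ A
  rw [e]

theorem mn4_far {a : ℕ} (ha : 1 ≤ a) (c : ℕ) : ∃ J, ∀ j, J ≤ j → ∀ s, T^[s] c ≠ 2 ^ j * a := by
  by_cases H : ∃ s, T^[s] c = a
  · obtain ⟨s1, h1⟩ := H
    obtain ⟨J, hJ⟩ := ps3_np ha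
    refine ⟨∑ i ∈ range s1, T^[i] c + J + 1, fun j hj s e => ?_⟩
    by_cases k : s < s1
    · have e3 : T^[s] c ≤ ∑ i ∈ range s1, T^[i] c :=
        single_le_sum (f := fun i => T^[i] c) (fun _ _ => Nat.zero_le _) (mem_range.2 k)
      have e4 : j < 2 ^ j := Nat.lt_two_pow_self
      have e5 : 2 ^ j * 1 ≤ 2 ^ j * a := Nat.mul_le_mul_left _ ha
      omega
    · obtain ⟨r, rfl⟩ := Nat.exists_eq_add_of_le' (not_lt.1 k)
      rw [Function.iterate_add_apply, h1] at e
      refine hJ j (by omega) (r + j) (by omega) ?_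
      rw [Function.iterate_add_apply, ps3_two, e]
  · refine ⟨0, fun j _ s e => H ⟨j + s, ?_⟩⟩
    rw [Function.iterate_add_apply, e, ps3_two]

theorem far {a : ℕ} (ha : 1 ≤ a) : ∃ J, ∀ j, J ≤ j → ∀ c ≤ a, ∀ s, T^[s] c ≠ 2 ^ j * a := by
  choose J hJ using mn4_far ha
  refine ⟨∑ c ∈ range (a + 1), J c, fun j hj c hc => hJ c j (le_trans ?_ hj)⟩
  exact single_le_sum (f := J) (fun _ _ => Nat.zero_le _) (mem_range.2 (Nat.lt_succ_of_le hc))

theorem mn4_ge {a : ℕ} (h2 : mnT a = a) (j r : ℕ) : a ≤ T^[r] (2 ^ j * a) := by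
  induction j generalizing r with
  | zero =>
    rw [pow_zero, one_mul]
    exact h2.ge.trans (mnT_le a r)
  | succ j ih =>
    rcases r with _ | r
    · exact Nat.le_mul_of_pos_left a (by positivity)
    · have e : T (2 ^ (j + 1) * a) = 2 ^ j * a := by
        rw [T, pow_succ', mul_assoc, if_pos (Nat.mul_mod_right _ _),
          Nat.mul_div_cancel_left _ two_pos]
      rw [Function.iterate_succ_apply, e]
      exact ih r

theorem mn4_pos {S : Set ℕ} {a K : ℕ} (a1 : 1 ≤ a) (hK : ∀ L, K ≤ L → 1 / 4 ≤ FF L a)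
    (a4 : ∀ p, 1 ≤ p → T^[p] a ≠ a) (hS : ∀ L z, T^[L] z = a → z ∈ S) {d : ℝ}
    (hd : Tendsto (fun x : ℕ => (cnt S x : ℝ) / x) atTop (𝓝 d)) : 0 < d := by
  refine (ge_of_tendsto' hd fun x => by positivity).lt_of_ne fun e => ?_
  subst e
  have ha' : (0 : ℝ) < a := by exact_mod_cast a1
  obtain ⟨M, hM⟩ := eventually_atTop.1
    ((log_small hd).eventually (gt_mem_nhds (show (0 : ℝ) < 1 / (8 * a) by positivity)))
  have k1 := hM (K + (K + a + M) + a) (by omega)
  have dj : ∀ {L L' z : ℕ}, L < L' → T^[L] z = a → T^[L'] z ≠ a := by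
    intro L L' z hL e1 e2
    obtain ⟨p, rfl⟩ := Nat.exists_eq_add_of_lt hL
    rw [add_assoc, add_comm, Function.iterate_add_apply, e1] at e2
    exact a4 _ (by omega) e2
  have k2 : ∑ L ∈ Ico K (K + (K + a + M)),
      ∑ z ∈ (Icc 1 (2 ^ L * a)).filter (fun z => T^[L] z = a), (1 : ℝ) / z ≤
      ∑ z ∈ (Icc 1 (2 ^ (K + (K + a + M) + a))).filter (fun z => z ∈ S), (1 : ℝ) / z := by
    rw [← sum_biUnion]
    · refine sum_le_sum_of_subset_of_nonneg (fun z hz => ?_) fun _ _ _ => by positivity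
      obtain ⟨L, L1, L2⟩ := mem_biUnion.1 hz
      obtain ⟨z1, z2⟩ := mem_filter.1 L2
      obtain ⟨z3, z4⟩ := mem_Icc.1 z1
      refine mem_filter.2 ⟨mem_Icc.2 ⟨z3, z4.trans ?_⟩, hS L z z2⟩
      rw [pow_add]
      exact Nat.mul_le_mul (Nat.pow_le_pow_right two_pos (mem_Ico.1 L1).2.le)
        Nat.lt_two_pow_self.le
    · intro L _ L' _ hn'
      refine disjoint_left.2 fun z h1 h2 => ?_
      rcases lt_or_gt_of_ne hn' with k | k
      · exact dj k (mem_filter.1 h1).2 (mem_filter.1 h2).2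
      · exact dj k (mem_filter.1 h2).2 (mem_filter.1 h1).2
  have k3 := (card_nsmul_le_sum (Ico K (K + (K + a + M))) _ ((1 : ℝ) / 4 / a) fun L hL =>
    (div_le_div_of_nonneg_right (hK L (mem_Ico.1 hL).1) ha'.le).trans (pre_sum a1 L)).trans k2
  rw [Nat.card_Ico, Nat.add_sub_cancel_left, nsmul_eq_mul] at k3
  rw [div_lt_iff₀ (by exact_mod_cast (by omega))] at k1
  have k4 := k3.trans_lt k1
  push_cast at k4
  rw [div_div, mul_one_div, one_div_mul_eq_div, div_lt_div_iff₀ (by positivity) (by positivity)] at k4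
  have : (0 : ℝ) ≤ M * a := by positivity
  linarith only [k4, this]

theorem posA {a : ℕ} (h2 : mnT a = a) (h3 : ¬ 3 ∣ a) {d : ℝ}
    (hd : Tendsto (fun x : ℕ => (cnt {n | mnT n = a} x : ℝ) / x) atTop (𝓝 d)) : 0 < d := by
  have ha : 1 ≤ a := by omega
  obtain ⟨K, a0, h0, hK⟩ := good_class
  obtain ⟨J, hJ⟩ := far ha
  obtain ⟨J', hJ'⟩ := ps3_np ha
  obtain ⟨j, j1, j2⟩ := prim (b := (a : ℕ)) h0 (by exact_mod_cast h3) K (J + J')
  refine mn4_pos (a := 2 ^ j * a) (K := K) (Nat.mul_pos (by positivity) ha)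
    (hK _ (by exact_mod_cast j2)) (hJ' j (by omega)) (fun L z e => ?_) hd
  have e1 : mnT z ≤ a := by
    have := mnT_le z (j + L)
    rwa [Function.iterate_add_apply, e, ps3_two] at this
  refine le_antisymm e1 ?_
  obtain ⟨k, hk⟩ := mnT_mem z
  rcases le_total k L with c | c
  · obtain ⟨r, rfl⟩ := Nat.exists_eq_add_of_le' c
    rw [Function.iterate_add_apply, hk] at e
    exact absurd e (hJ j (by omega) _ e1 r)
  · obtain ⟨r, rfl⟩ := Nat.exists_eq_add_of_le' c
    rw [← hk, Function.iterate_add_apply, e]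
    exact mn4_ge h2 j r

theorem mn4_three {a : ℕ} (h : 3 ∣ a) (k n : ℕ) (e : T^[k] n = a) : n = 2 ^ k * a := by
  induction k generalizing n with
  | zero => simpa using e
  | succ k ih =>
    rw [Function.iterate_succ_apply] at e
    have e1 := ih _ e
    have e2 : 3 ∣ T n := e1 ▸ h.mul_left _
    rw [pow_succ', mul_assoc, ← e1]
    unfold T at e2 ⊢
    split_ifs at e2 ⊢ with c <;> omega

theorem mn4_cnt {S : Set ℕ} {a : ℕ} (h : ∀ z, 1 ≤ z → z ∈ S → ∃ k, z = 2 ^ k * a) (x : ℕ) :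
    cnt S x ≤ Nat.log 2 x + 1 := by
  have sub : (Icc 1 x).filter (fun z => z ∈ S) ⊆
      (range (Nat.log 2 x + 1)).image fun k => 2 ^ k * a := by
    intro z hz
    obtain ⟨z1, z2⟩ := mem_filter.1 hz
    obtain ⟨z3, z4⟩ := mem_Icc.1 z1
    obtain ⟨k, e3⟩ := h z z3 z2
    have e4 : 1 ≤ a := Nat.pos_of_ne_zero fun c => by
      rw [c, mul_zero] at e3
      omega
    refine mem_image.2 ⟨k, mem_range.2 (Nat.lt_succ_of_le ?_), e3.symm⟩
    refine Nat.le_log_of_pow_le one_lt_two ?_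
    have : 2 ^ k * 1 ≤ 2 ^ k * a := Nat.mul_le_mul_left _ e4
    omega
  exact (card_le_card sub).trans (card_image_le.trans (card_range _).le)

theorem zeroA {a : ℕ} (h : ¬ (mnT a = a ∧ ¬ 3 ∣ a)) :
    Tendsto (fun x : ℕ => (cnt {n | mnT n = a} x : ℝ) / x) atTop (𝓝 0) := by
  have key : ∀ x, cnt {n | mnT n = a} x ≤ Nat.log 2 x + 1 := mn4_cnt (a := a) fun z z3 z2 => by
    have z5 : mnT z = a := z2
    obtain ⟨k, hk⟩ := mnT_mem z
    rw [z5] at hk
    have e1 : mnT a = a := by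
      refine le_antisymm (mnT_le a 0) ?_
      have := mn4_mono z k
      rwa [z5, hk] at this
    have e2 : 3 ∣ a := by_contra fun c => h ⟨e1, c⟩
    exact ⟨k, mn4_three e2 k z hk⟩
  have h1 : Tendsto (fun x : ℕ => Real.logb 2 x / (x : ℝ)) atTop (𝓝 0) :=
    (Real.isLittleO_logb_id_atTop (b := 2)).tendsto_div_nhds_zero.comp tendsto_natCast_atTop_atTop
  have h2 := h1.add (tendsto_inv_atTop_nhds_zero_nat (𝕜 := ℝ))
  rw [add_zero] at h2
  refine squeeze_zero (fun x => by positivity) (fun x => ?_) h2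
  rw [← one_div, ← add_div]
  refine div_le_div_of_nonneg_right ?_ (Nat.cast_nonneg x)
  have k1 : (cnt {n | mnT n = a} x : ℝ) ≤ (Nat.log 2 x : ℝ) + 1 := by exact_mod_cast key x
  have k2 := Real.natLog_le_logb x 2
  push_cast at k2
  linarith

end CzD
end
end

-- merged part: Pool.Agent.Work.MP_2efb47_nt.D.Fin
section
/-! Transfer to `V`: `S' = {m | 2 m + 1 ∈ S}` is invariant under `T` (`V (2 m + 1) = 2 T m + 1`); `cnt S x = cnt S (x / 2) + cnt S' ((x - 1) / 2) + O(1)`; `halve`: `e x = e (x / 2) + o(x)` gives `e x = o(x)`. -/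

open Finset Filter Topology
open scoped Classical

noncomputable section
namespace CzD

theorem halve {e : ℕ → ℝ} (h : Tendsto (fun x : ℕ => (e x - e (x / 2)) / x) atTop (𝓝 0)) :
    Tendsto (fun x : ℕ => e x / x) atTop (𝓝 0) := by
  rw [Metric.tendsto_atTop] at h ⊢
  intro ε hε
  obtain ⟨N, hN⟩ := h (ε / 4) (by positivity)
  set M : ℝ := ∑ y ∈ range (N + 1), |e y| with hM
  have hM0 : 0 ≤ M := Finset.sum_nonneg fun _ _ => abs_nonneg _
  have key : ∀ x : ℕ, |e x| ≤ M + ε / 2 * x := by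
    intro x
    induction x using Nat.strong_induction_on with
    | _ x ih =>
      by_cases hx : x < N + 1
      · have h1 : |e x| ≤ M :=
          Finset.single_le_sum (f := fun y => |e y|) (fun _ _ => abs_nonneg _) (mem_range.2 hx)
        have h2 : 0 ≤ ε / 2 * x := by positivity
        linarith only [h1, h2]
      · have hx1 : 0 < x := by omega
        have hxr : (0 : ℝ) < x := by exact_mod_cast hx1
        have h1 := hN x (by omega)
        rw [Real.dist_eq, sub_zero, abs_div, abs_of_pos hxr, div_lt_iff₀ hxr] at h1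
        have h2 := ih (x / 2) (by omega)
        have h3 : ((x / 2 : ℕ) : ℝ) ≤ (x : ℝ) / 2 := Nat.cast_div_le
        have h4 : |e x| ≤ |e x - e (x / 2)| + |e (x / 2)| := by
          have := abs_add_le (e x - e (x / 2)) (e (x / 2))
          rwa [sub_add_cancel] at this
        have h5 : ε / 2 * ((x / 2 : ℕ) : ℝ) ≤ ε / 2 * ((x : ℝ) / 2) :=
          mul_le_mul_of_nonneg_left h3 (by positivity)
        linarith only [h1, h2, h4, h5]
  obtain ⟨K, hK⟩ := exists_nat_gt (4 * M / ε)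
  refine ⟨K + 1, fun x hx => ?_⟩
  have hxr : (0 : ℝ) < x := by exact_mod_cast (show 0 < x by omega)
  have hKx : (K : ℝ) ≤ x := by exact_mod_cast (show K ≤ x by omega)
  rw [Real.dist_eq, sub_zero, abs_div, abs_of_pos hxr, div_lt_iff₀ hxr]
  have h1 : 4 * M < ε * x := by
    have h2 : 4 * M / ε < x := lt_of_lt_of_le hK hKx
    rw [div_lt_iff₀ hε] at h2
    linarith only [h2]
  have h3 := key x
  have h4 : 0 < ε * x := by positivity
  linarith only [hM0, h1, h3]

theorem fin_odd (m : ℕ) : V (2 * m + 1) = 2 * T m + 1 := by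
  unfold V T
  split_ifs <;> omega

theorem fin_even (m : ℕ) : V (2 * m) = m := by
  unfold V
  split_ifs <;> omega

theorem fin_cnt {S : Set ℕ} (hS : ∀ n, 1 ≤ n → (n ∈ S ↔ V n ∈ S)) (x : ℕ) :
    cnt S (x / 2) + cnt {m | 2 * m + 1 ∈ S} ((x - 1) / 2) ≤ cnt S x ∧
      cnt S x ≤ cnt S (x / 2) + cnt {m | 2 * m + 1 ∈ S} ((x - 1) / 2) + 1 := by
  set A := ((Icc 1 (x / 2)).filter fun z => z ∈ S).image fun y => 2 * y with hA
  set B := ((Icc 1 ((x - 1) / 2)).filter fun z => z ∈ {m | 2 * m + 1 ∈ S}).image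
    fun y => 2 * y + 1 with hB
  have cA : A.card = cnt S (x / 2) :=
    Finset.card_image_of_injective _ fun a b hab => by
      have : 2 * a = 2 * b := hab
      omega
  have cB : B.card = cnt {m | 2 * m + 1 ∈ S} ((x - 1) / 2) :=
    Finset.card_image_of_injective _ fun a b hab => by
      have : 2 * a + 1 = 2 * b + 1 := hab
      omega
  have hd : Disjoint A B := by
    rw [Finset.disjoint_left]
    intro z hz hz'
    obtain ⟨a, -, ha⟩ := mem_image.1 hz
    obtain ⟨b, -, hb⟩ := mem_image.1 hz'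
    omega
  have hev : ∀ y, 1 ≤ y → (2 * y ∈ S ↔ y ∈ S) := fun y hy => by
    have := hS (2 * y) (by omega)
    rwa [fin_even] at this
  rw [← cA, ← cB, ← Finset.card_union_of_disjoint hd]
  constructor
  · refine Finset.card_le_card fun z hz => ?_
    rcases mem_union.1 hz with hz | hz
    · obtain ⟨a, ha, rfl⟩ := mem_image.1 hz
      obtain ⟨ha1, ha2⟩ := mem_filter.1 ha
      obtain ⟨h1, h2⟩ := mem_Icc.1 ha1
      exact mem_filter.2 ⟨mem_Icc.2 ⟨by omega, by omega⟩, (hev a h1).2 ha2⟩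
    · obtain ⟨a, ha, rfl⟩ := mem_image.1 hz
      obtain ⟨ha1, ha2⟩ := mem_filter.1 ha
      obtain ⟨h1, h2⟩ := mem_Icc.1 ha1
      exact mem_filter.2 ⟨mem_Icc.2 ⟨by omega, by omega⟩, ha2⟩
  · refine le_trans (Finset.card_le_card (t := insert 1 (A ∪ B)) fun z hz => ?_)
      (Finset.card_insert_le _ _)
    obtain ⟨hz1, hz2⟩ := mem_filter.1 hz
    obtain ⟨h1, h2⟩ := mem_Icc.1 hz1
    by_cases hz1 : z = 1
    · exact mem_insert.2 (Or.inl hz1)
    refine mem_insert.2 (Or.inr (mem_union.2 ?_))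
    rcases Nat.even_or_odd' z with ⟨a, rfl | rfl⟩
    · exact Or.inl (mem_image.2 ⟨a, mem_filter.2 ⟨mem_Icc.2 ⟨by omega, by omega⟩,
        (hev a (by omega)).1 hz2⟩, rfl⟩)
    · exact Or.inr (mem_image.2 ⟨a, mem_filter.2 ⟨mem_Icc.2 ⟨by omega, by omega⟩, hz2⟩, rfl⟩)

theorem fin_half : Tendsto (fun x : ℕ => (x - 1) / 2) atTop atTop :=
  tendsto_atTop_atTop.2 fun b => ⟨2 * b + 1, fun a ha => by omega⟩

theorem fin_sq {u : ℕ → ℝ} (hu : ∀ x : ℕ, |u x - x / 2| ≤ 2) :
    Tendsto (fun x : ℕ => u x / x) atTop (𝓝 (1 / 2)) := by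
  have h0 : Tendsto (fun x : ℕ => (2 : ℝ) / x) atTop (𝓝 0) := tendsto_const_div_atTop_nhds_zero_nat 2
  have h1 : Tendsto (fun x : ℕ => u x / x - 1 / 2) atTop (𝓝 0) := by
    refine squeeze_zero_norm' ?_ h0
    filter_upwards [eventually_ge_atTop 1] with x hx
    have hxr : (0 : ℝ) < x := by exact_mod_cast hx
    have e1 : u x / x - 1 / 2 = (u x - x / 2) / x := by field_simp
    rw [e1, Real.norm_eq_abs, abs_div, abs_of_pos hxr]
    exact div_le_div_of_nonneg_right (hu x) hxr.le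
  have h2 := h1.add_const (1 / 2)
  simpa using h2

theorem fin_pow {S : Set ℕ} (hS : ∀ n, 1 ≤ n → (n ∈ S ↔ V n ∈ S)) (j q : ℕ) (hq : 1 ≤ q)
    (h : 2 ^ j * q ∈ S) : q ∈ S := by
  induction j with
  | zero => simpa using h
  | succ j ih =>
    apply ih
    have hp : 1 ≤ 2 ^ j * q := Nat.mul_pos (by positivity) hq
    have h1 := hS (2 * (2 ^ j * q)) (by omega)
    rw [fin_even] at h1
    apply h1.1
    have e1 : 2 * (2 ^ j * q) = 2 ^ (j + 1) * q := by ring
    rwa [e1]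

theorem main_V {S : Set ℕ} (hS : ∀ n, 1 ≤ n → (n ∈ S ↔ V n ∈ S)) :
    ∃ d : ℝ, Tendsto (fun x : ℕ => (cnt S x : ℝ) / x) atTop (𝓝 d) ∧
      ((∃ n ∈ S, 1 ≤ n ∧ ∀ j, n ≠ 2 ^ j) → 0 < d) := by
  set S' : Set ℕ := {m | 2 * m + 1 ∈ S} with hS'
  have hI : Inv S' := fun m _ => by
    have := hS (2 * m + 1) (by omega)
    rwa [fin_odd] at this
  obtain ⟨d, hd⟩ := den hI
  refine ⟨d, ?_, ?_⟩
  · have a1 : Tendsto (fun x : ℕ => (((x - 1) / 2 : ℕ) : ℝ) / x) atTop (𝓝 (1 / 2)) := by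
      refine fin_sq fun x => ?_
      have h1 : 2 * ((x - 1) / 2) ≤ x := by omega
      have h2 : x ≤ 2 * ((x - 1) / 2) + 2 := by omega
      have h1' : (2 : ℝ) * (((x - 1) / 2 : ℕ) : ℝ) ≤ x := by exact_mod_cast h1
      have h2' : (x : ℝ) ≤ 2 * (((x - 1) / 2 : ℕ) : ℝ) + 2 := by exact_mod_cast h2
      rw [abs_le]
      constructor <;> linarith only [h2', h1']
    have a2 : Tendsto (fun x : ℕ => ((x / 2 : ℕ) : ℝ) / x) atTop (𝓝 (1 / 2)) := by
      refine fin_sq fun x => ?_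
      have h1 : 2 * (x / 2) ≤ x := by omega
      have h2 : x ≤ 2 * (x / 2) + 2 := by omega
      have h1' : (2 : ℝ) * ((x / 2 : ℕ) : ℝ) ≤ x := by exact_mod_cast h1
      have h2' : (x : ℝ) ≤ 2 * ((x / 2 : ℕ) : ℝ) + 2 := by exact_mod_cast h2
      rw [abs_le]
      constructor <;> linarith only [h2', h1']
    have a3 : Tendsto (fun x : ℕ => (cnt S' ((x - 1) / 2) : ℝ) / x) atTop (𝓝 (d * (1 / 2))) := by
      refine ((hd.comp fin_half).mul a1).congr' ?_
      filter_upwards [eventually_ge_atTop 3] with x hx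
      have h1 : (0 : ℝ) < (((x - 1) / 2 : ℕ) : ℝ) := by
        exact_mod_cast (show 0 < (x - 1) / 2 by omega)
      simp only [Function.comp]
      field_simp
    have a4 : Tendsto (fun x : ℕ =>
        ((cnt S x : ℝ) - cnt S (x / 2) - cnt S' ((x - 1) / 2)) / x) atTop (𝓝 0) := by
      refine squeeze_zero_norm' ?_ (tendsto_const_div_atTop_nhds_zero_nat (1 : ℝ))
      filter_upwards [eventually_ge_atTop 1] with x hx
      have hxr : (0 : ℝ) < x := by exact_mod_cast hx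
      obtain ⟨h1, h2⟩ := fin_cnt hS x
      have h1' : (cnt S (x / 2) : ℝ) + cnt S' ((x - 1) / 2) ≤ cnt S x := by exact_mod_cast h1
      have h2' : (cnt S x : ℝ) ≤ cnt S (x / 2) + cnt S' ((x - 1) / 2) + 1 := by exact_mod_cast h2
      rw [Real.norm_eq_abs, abs_div, abs_of_pos hxr]
      refine div_le_div_of_nonneg_right ?_ hxr.le
      rw [abs_le]
      constructor <;> linarith only [h1', h2']
    have a5 : Tendsto (fun x : ℕ => (((cnt S x : ℝ) - d * x) -
        ((cnt S (x / 2) : ℝ) - d * ((x / 2 : ℕ) : ℝ))) / x) atTop (𝓝 0) := by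
      have b1 := ((a4.add a3).add (a2.const_mul d)).sub_const d
      have e0 : 0 + d * (1 / 2) + d * (1 / 2) - d = 0 := by ring
      rw [e0] at b1
      refine b1.congr' ?_
      filter_upwards [eventually_ge_atTop 1] with x hx
      have hxr : (0 : ℝ) < x := by exact_mod_cast hx
      field_simp
      ring
    have a6 := (halve (e := fun x : ℕ => (cnt S x : ℝ) - d * x) a5).add_const d
    rw [zero_add] at a6
    refine a6.congr' ?_
    filter_upwards [eventually_ge_atTop 1] with x hx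
    have hxr : (0 : ℝ) < x := by exact_mod_cast hx
    field_simp
    ring
  · rintro ⟨n, hn, h1, h2⟩
    obtain ⟨j, q, hq, rfl⟩ := Nat.exists_eq_two_pow_mul_odd (show n ≠ 0 by omega)
    obtain ⟨m, rfl⟩ := hq
    have hm : 1 ≤ m := by
      rcases Nat.eq_zero_or_pos m with h0 | h0
      · exact absurd (by simp [h0]) (h2 j)
      · exact h0
    exact pos hI hm (fin_pow hS j _ (by omega) hn) hd

end CzD
end
end
end

-- merged part: Pool.Agent.Work.MP_2efb47_nt.D.Mn5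
section
-- merged part: Pool.Agent.Work.MP_2efb47_nt.D.Mn2
section
/-! Countable additivity of the limit (gliding hump). Let `μ x A = cnt {n | l n ∈ A} x / x`, `d A` its limit (finitely additive, monotone, `d univ = 1`), `t M = d {a | M ≤ a}`, decreasing. Suppose `η = inf t > 0`, `ε = η / 4`; take `M 0` with `t (M 0) ≤ η + ε`, so `d [M 0, M) ≤ ε` for all `M`. Given `M k` choose `x k ≥ k` with `μ (x k) [M 0, M k) ≤ 2 ε` and `μ (x k) [M k, ∞) ≥ 3 ε`, then `M (k + 1) > M k` above all `l n`, `n ≤ x k`. For `A` the union of the `[M (2 k), M (2 k + 1))` one has `μ (x k) A ≥ 3 ε` for even `k` and `≤ 2 ε` for odd `k`, a contradiction. So `t → 0`; `w a = d {a}`, `|d A - ∑ a < M, indicator A w a| ≤ t M`, `hasSum_iff_tendsto_nat_of_nonneg`. -/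

open Finset Filter Topology
open scoped Classical

noncomputable section
namespace CzD

theorem mn2_sub {m : Set ℕ → ℝ} (h0 : ∀ A, 0 ≤ m A)
    (ha : ∀ A B, Disjoint A B → m (A ∪ B) = m A + m B) {A B C : Set ℕ} (h : C ⊆ A ∪ B) :
    m C ≤ m A + m B := by
  have mono : ∀ S T : Set ℕ, S ⊆ T → m S ≤ m T := fun S T H => by
    have := ha S (T \ S) Set.disjoint_sdiff_right
    rw [Set.union_sdiff_cancel H] at this
    linarith [h0 (T \ S)]
  have h1 := ha A (B \ A) Set.disjoint_sdiff_right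
  rw [Set.union_sdiff_self] at h1
  linarith [mono _ _ h, mono (B \ A) B Set.sdiff_subset]

theorem mn2_empty {m : Set ℕ → ℝ} (ha : ∀ A B, Disjoint A B → m (A ∪ B) = m A + m B) :
    m ∅ = 0 := by
  have := ha ∅ ∅ (Set.disjoint_empty _)
  rw [Set.union_empty] at this
  linarith

theorem mn2_tail {μ : ℕ → Set ℕ → ℝ} {d : Set ℕ → ℝ} (h0 : ∀ x A, 0 ≤ μ x A)
    (ha : ∀ x A B, Disjoint A B → μ x (A ∪ B) = μ x A + μ x B)
    (hf : ∀ x M, ∃ N, M < N ∧ μ x (Set.Ici N) = 0)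
    (hd : ∀ A, Tendsto (fun x => μ x A) atTop (𝓝 (d A))) (d0 : ∀ A, 0 ≤ d A)
    (da : ∀ A B, Disjoint A B → d (A ∪ B) = d A + d B) :
    Tendsto (fun M => d (Set.Ici M)) atTop (𝓝 0) := by
  have anti : Antitone fun M => d (Set.Ici M) := fun a b H => by
    have := mn2_sub d0 da (A := Set.Ici a) (B := ∅) (C := Set.Ici b)
      fun z hz => Or.inl (H.trans hz)
    rwa [mn2_empty da, add_zero] at this
  have bdd : BddBelow (Set.range fun M => d (Set.Ici M)) := ⟨0, by rintro _ ⟨M, rfl⟩; exact d0 _⟩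
  have lim := tendsto_atTop_ciInf anti bdd
  have low := ciInf_le bdd
  generalize ⨅ M, d (Set.Ici M) = η at lim low
  rcases (ge_of_tendsto' lim fun M => d0 _).eq_or_lt with H | H
  · exact H ▸ lim
  exfalso
  obtain ⟨M0, hM0⟩ := (lim.eventually_lt_const (by linarith only [H] : η < η + η / 4)).exists
  have key : ∀ M k, ∃ x N, k ≤ x ∧ M < N ∧ μ x (Set.Ico M0 M) ≤ 2 * (η / 4) ∧
      3 * (η / 4) ≤ μ x (Set.Ici M) ∧ μ x (Set.Ici N) = 0 := fun M k => by
    have h1 := da (Set.Ico M0 M) (Set.Ici (max M0 M))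
      (Set.disjoint_left.2 fun z h1 h2 => h1.2.not_ge ((le_max_right _ _).trans h2))
    rw [show Set.Ico M0 M ∪ Set.Ici (max M0 M) = Set.Ici M0 by
      ext z
      simp only [Set.mem_union, Set.mem_Ico, Set.mem_Ici]
      omega] at h1
    obtain ⟨x, h2, h3, h4⟩ := ((eventually_ge_atTop k).and (((hd (Set.Ico M0 M)).eventually_le_const
      (by linarith only [H, hM0, h1, low, low (max M0 M)] : _ < 2 * (η / 4))).and ((hd (Set.Ici M)).eventually_const_le
        (by linarith [low M] : 3 * (η / 4) < _)))).exists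
    obtain ⟨N, h5, h6⟩ := hf x M
    exact ⟨x, N, h2, h5, h3, h4, h6⟩
  choose X N k1 k2 k3 k4 k5 using key
  obtain ⟨M, e0, e1⟩ : ∃ M : ℕ → ℕ, M 0 = M0 ∧ ∀ k, M (k + 1) = N (M k) k :=
    ⟨fun k => Nat.rec M0 (fun k m => N m k) k, rfl, fun _ => rfl⟩
  have sm : Monotone M := (strictMono_nat_of_lt_succ fun k => e1 k ▸ k2 _ _).monotone
  have hA := hd {a | ∃ j, j % 2 = 0 ∧ M j ≤ a ∧ a < M (j + 1)}
  have t1 : Tendsto (fun k => X (M (2 * k)) (2 * k)) atTop atTop :=
    tendsto_atTop_mono (fun k => le_trans (by simp only [id]; omega) (k1 _ _)) tendsto_id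
  have t2 : Tendsto (fun k => X (M (2 * k + 1)) (2 * k + 1)) atTop atTop :=
    tendsto_atTop_mono (fun k => le_trans (by simp only [id]; omega) (k1 _ _)) tendsto_id
  have l1 := ge_of_tendsto' (b := 3 * (η / 4)) (hA.comp t1) fun k => by
    have := mn2_sub (h0 (X (M (2 * k)) (2 * k))) (ha _) (C := Set.Ici (M (2 * k)))
      (A := {a | ∃ j, j % 2 = 0 ∧ M j ≤ a ∧ a < M (j + 1)}) (B := Set.Ici (M (2 * k + 1)))
      fun z hz => (lt_or_ge z (M (2 * k + 1))).imp (fun H => ⟨2 * k, by omega, hz, H⟩) id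
    rw [e1, k5, add_zero] at this
    exact (k4 _ _).trans this
  have l2 := le_of_tendsto' (b := 2 * (η / 4)) (hA.comp t2) fun k => by
    have := mn2_sub (h0 (X (M (2 * k + 1)) (2 * k + 1))) (ha _) (A := Set.Ico M0 (M (2 * k + 1)))
      (C := {a | ∃ j, j % 2 = 0 ∧ M j ≤ a ∧ a < M (j + 1)}) (B := Set.Ici (M (2 * k + 1 + 1)))
      fun z ⟨j, j0, j1, j2⟩ => (lt_or_ge j (2 * k + 1)).imp
        (fun H => ⟨e0 ▸ (sm j.zero_le).trans j1, j2.trans_le (sm H)⟩)
        fun H => (sm (by omega)).trans j1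
    rw [e1 (2 * k + 1), k5, add_zero] at this
    exact this.trans (k3 _ _)
  linarith only [H, l1, l2]

theorem mn2_sum {d : Set ℕ → ℝ} (d0 : ∀ A, 0 ≤ d A)
    (da : ∀ A B, Disjoint A B → d (A ∪ B) = d A + d B)
    (ht : Tendsto (fun M => d (Set.Ici M)) atTop (𝓝 0)) (A : Set ℕ) :
    HasSum (A.indicator fun a => d {a}) (d A) := by
  have h1 : ∀ M, ∑ a ∈ range M, A.indicator (fun a => d {a}) a = d A - d (A ∩ Set.Ici M) := by
    intro M
    induction M with
    | zero => simp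
    | succ M ih =>
      rw [sum_range_succ, ih]
      by_cases H : M ∈ A
      · have := da {M} (A ∩ Set.Ici (M + 1)) (by simp)
        rw [show {M} ∪ A ∩ Set.Ici (M + 1) = A ∩ Set.Ici M by
          ext z
          simp only [Set.mem_union, Set.mem_singleton_iff, Set.mem_inter_iff, Set.mem_Ici]
          exact ⟨fun h => h.elim (fun e => ⟨e ▸ H, e.ge⟩) fun h => ⟨h.1, by omega⟩,
            fun h => h.2.eq_or_lt.imp Eq.symm fun h' => ⟨h.1, h'⟩⟩] at this
        rw [Set.indicator_of_mem H, this]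
        ring
      · rw [Set.indicator_of_notMem H, add_zero, show A ∩ Set.Ici (M + 1) = A ∩ Set.Ici M by
          ext z
          simp only [Set.mem_inter_iff, Set.mem_Ici]
          exact ⟨fun h => ⟨h.1, by omega⟩,
            fun h => ⟨h.1, h.2.lt_of_ne fun e => H (e ▸ h.1)⟩⟩]
  rw [hasSum_iff_tendsto_nat_of_nonneg fun a => Set.indicator_nonneg (fun _ _ => d0 _) a]
  simp only [h1]
  have h2 : Tendsto (fun M => d (A ∩ Set.Ici M)) atTop (𝓝 0) :=
    squeeze_zero (fun M => d0 _) (fun M => by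
      have := mn2_sub d0 da (A := Set.Ici M) (B := ∅) (C := A ∩ Set.Ici M) fun z hz => Or.inl hz.2
      rwa [mn2_empty da, add_zero] at this) ht
  simpa using h2.const_sub (d A)

theorem mn2_add {S T : Set ℕ} (H : Disjoint S T) (x : ℕ) : cnt (S ∪ T) x = cnt S x + cnt T x := by
  unfold cnt
  rw [← card_union_of_disjoint (disjoint_filter.2 fun z _ h1 h2 => Set.disjoint_left.1 H h1 h2)]
  refine congrArg card (Finset.ext fun z => ?_)
  simp only [mem_union, mem_filter, Set.mem_union, and_or_left]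

theorem mn2_zero {S : Set ℕ} {x : ℕ} (H : ∀ z ∈ Icc 1 x, z ∉ S) : cnt S x = 0 :=
  card_eq_zero.2 (filter_eq_empty_iff.2 H)

theorem schur {l : ℕ → ℕ} (h : ∀ A : Set ℕ, ∃ d : ℝ,
    Tendsto (fun x : ℕ => (cnt {n | l n ∈ A} x : ℝ) / x) atTop (𝓝 d)) :
    ∃ w : ℕ → ℝ, (∀ a, 0 ≤ w a) ∧ HasSum w 1 ∧ ∀ A : Set ℕ,
      Tendsto (fun x : ℕ => (cnt {n | l n ∈ A} x : ℝ) / x) atTop (𝓝 (∑' a, A.indicator w a)) := by
  choose d hd using h
  have h0 : ∀ (x : ℕ) (A : Set ℕ), 0 ≤ (cnt {n | l n ∈ A} x : ℝ) / x := fun x A => by positivity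
  have ha : ∀ (x : ℕ) (A B : Set ℕ), Disjoint A B → (cnt {n | l n ∈ A ∪ B} x : ℝ) / x =
      (cnt {n | l n ∈ A} x : ℝ) / x + (cnt {n | l n ∈ B} x : ℝ) / x := fun x A B H => by
    rw [← add_div, ← Nat.cast_add]
    refine congrArg (fun n : ℕ => (n : ℝ) / x) ?_
    exact mn2_add (S := {n | l n ∈ A}) (T := {n | l n ∈ B})
      (Set.disjoint_left.2 fun z h1 h2 => Set.disjoint_left.1 H h1 h2) x
  have d0 : ∀ A, 0 ≤ d A := fun A => ge_of_tendsto' (hd A) fun x => h0 x A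
  have da : ∀ A B, Disjoint A B → d (A ∪ B) = d A + d B := fun A B H =>
    tendsto_nhds_unique (hd _) (((hd A).add (hd B)).congr fun x => (ha x A B H).symm)
  have ht := mn2_tail (μ := fun x A => (cnt {n | l n ∈ A} x : ℝ) / x) h0 ha (fun x M => by
    refine ⟨M + (Icc 1 x).sup l + 1, by omega, ?_⟩
    have : cnt {n | l n ∈ Set.Ici (M + (Icc 1 x).sup l + 1)} x = 0 := by
      refine mn2_zero fun z hz H => ?_
      have h1 := le_sup (f := l) hz
      have h2 : M + (Icc 1 x).sup l + 1 ≤ l z := H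
      omega
    simp only [this, Nat.cast_zero, zero_div]) hd d0 da
  have d1 : d Set.univ = 1 := by
    refine tendsto_nhds_unique (hd _) (tendsto_const_nhds.congr' ?_)
    filter_upwards [eventually_gt_atTop 0] with x hx
    simp [cnt, hx.ne']
  refine ⟨fun a => d {a}, fun a => d0 _, ?_, fun A => ?_⟩
  · simpa [d1] using mn2_sum d0 da ht Set.univ
  · rw [(mn2_sum d0 da ht A).tsum_eq]
    exact hd A

end CzD
end
end

-- merged part: Pool.Agent.Work.MP_2efb47_nt.D.Mn1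
section
/-! Few orbits meet `EE` early. `card_par`: `par_spec` gives `2 ^ L ∣ 3 ^ k (z - z')`, so all `z` lie in one class mod `2 ^ L`.
`bad_small`: `L = Nat.log 2 Z / 10 ≥ 10` (small `Z` trivially). Let `y = T^[j] z ∈ EE`, `k = cn (par L y)`. If `20 k ≤ 11 L` then `2 * 3 ^ k ≤ 2 ^ L` (`3 ^ 11 ≤ 2 ^ 18`), and `2 ^ L y < 2 ^ L T^[L] y ≤ 3 ^ k y + 3 ^ L` (`par_spec`, `rr_le`) gives `z ≤ 2 ^ j y < 2 * 3 ^ L`. Otherwise `par (L + j) z = β ++ β'` with `20 cn β > 11 L`: at most `ρ ^ L (Z + 2 ^ (L + j)) ≤ 2 ρ ^ L Z` values `z` (`card_par`, `Ex_ind`, `Ex_tail`). Finally `2 ^ (10 L) ≤ Z`, `log Z ≤ 10 (L + 1)`. -/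

open Finset Filter Topology
open scoped Classical

noncomputable section
namespace CzD

theorem card_par (β : List Bool) (Z : ℕ) :
    (((Icc 1 Z).filter fun z => par β.length z = β).card : ℝ) ≤ Z / 2 ^ β.length + 1 := by
  have h1 : ((Icc 1 Z).filter fun z => par β.length z = β).card ≤
      (range (Z / 2 ^ β.length + 1)).card := by
    refine card_le_card_of_injOn (fun z => z / 2 ^ β.length) (fun z hz => ?_) fun z hz z' hz' e => ?_
    · exact mem_coe.2 (mem_range.2 (Nat.lt_succ_of_le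
        (Nat.div_le_div_right (mem_Icc.1 (mem_filter.1 hz).1).2)))
    · have a := par_spec β.length z
      have b := par_spec β.length z'
      rw [(mem_filter.1 hz).2] at a
      rw [(mem_filter.1 hz').2] at b
      have c : 3 ^ cn β * z + rr β ≡ 3 ^ cn β * z' + rr β [MOD 2 ^ β.length] := by
        rw [← a, ← b, Nat.ModEq, Nat.mul_mod_right, Nat.mul_mod_right]
      have d : z % 2 ^ β.length = z' % 2 ^ β.length := Nat.ModEq.cancel_left_of_coprime
        (Nat.Coprime.pow _ _ (by norm_num)) (Nat.ModEq.add_right_cancel' _ c)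
      rw [← Nat.div_add_mod z (2 ^ β.length), ← Nat.div_add_mod z' (2 ^ β.length), d]
      exact congrArg (2 ^ β.length * · + _) e
  rw [card_range] at h1
  have h2 : ((Z / 2 ^ β.length : ℕ) : ℝ) ≤ Z / 2 ^ β.length := by
    simpa using Nat.cast_div_le (α := ℝ) (m := Z) (n := 2 ^ β.length)
  exact (Nat.cast_le.2 h1).trans (by push_cast; linarith only [h2])

theorem par_add (K j z : ℕ) : par (K + j) z = par K (T^[j] z) ++ par j z := by
  induction K with
  | zero => rw [zero_add]; rfl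
  | succ K ih => rw [add_right_comm, par, par, ih, Function.iterate_add_apply, List.cons_append]

theorem mn1_bd {r : ℝ} (h0 : 0 < r) (h1 : r < 1) :
    ∃ C : ℝ, ∀ L : ℕ, ((L : ℝ) + 1) ^ 3 * r ^ L ≤ C := by
  obtain ⟨C, hC⟩ := (tendsto_pow_const_mul_const_pow_of_abs_lt_one 3 (r := r)
    (by rwa [abs_of_pos h0])).bddAbove_range
  refine ⟨C / r, fun L => ?_⟩
  have : (((L + 1 : ℕ) : ℝ)) ^ 3 * r ^ (L + 1) ≤ C := hC ⟨L + 1, rfl⟩
  rwa [le_div_iff₀ h0, mul_assoc, ← pow_succ, ← Nat.cast_succ]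

theorem mn1_small {L j z : ℕ} (hL : 10 ≤ L) (hj : j ≤ L) (h : T^[j] z ∈ EE)
    (hk : 20 * cn (par L (T^[j] z)) ≤ 11 * L) : z < 2 * 3 ^ L := by
  have h1 := par_spec j z
  have h2 := par_spec L (T^[j] z)
  have h3 := rr_le (par L (T^[j] z))
  have h4 := h L (by omega)
  rw [par_len] at h3
  generalize T^[j] z = y at h1 h2 h3 h4 hk
  generalize cn (par L y) = k at h2 hk
  have h5 : 2 * 3 ^ k ≤ 2 ^ L := by
    refine (Nat.pow_le_pow_iff_left (n := 20) (by norm_num)).1 ?_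
    calc (2 * 3 ^ k) ^ 20 = 2 ^ 20 * 3 ^ (20 * k) := by ring
      _ ≤ 2 ^ (2 * L) * (3 ^ 11) ^ L := by
        rw [← pow_mul]
        exact Nat.mul_le_mul (Nat.pow_le_pow_right two_pos (by omega))
          (Nat.pow_le_pow_right three_pos hk)
      _ ≤ 2 ^ (2 * L) * (2 ^ 18) ^ L := Nat.mul_le_mul_left _ (Nat.pow_le_pow_left (by norm_num) _)
      _ = _ := by rw [← pow_mul, ← pow_add, ← pow_mul]; congr 1; ring
  have h6 : z ≤ 2 ^ L * y := calc
    z ≤ 3 ^ cn (par j z) * z := Nat.le_mul_of_pos_left _ (by positivity)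
    _ ≤ 2 ^ j * y := by omega
    _ ≤ _ := Nat.mul_le_mul_right _ (Nat.pow_le_pow_right two_pos hj)
  have h7 := Nat.mul_le_mul_right y h5
  have h8 := Nat.mul_le_mul_left (2 ^ L) h4.le
  have h9 : 0 < 2 ^ L := by positivity
  rw [mul_assoc] at h7
  omega

theorem mn1_tail (p : ℕ → Prop) (L j Z : ℕ) :
    (((Icc 1 Z).filter fun z => p (cn (par L (T^[j] z)))).card : ℝ) ≤
      Ex L (fun k => ind (p k)) * (Z + 2 ^ (L + j)) := by
  have h1 : ((Icc 1 Z).filter fun z => p (cn (par L (T^[j] z)))) ⊆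
      (((allB L).filter fun β => p (cn β)) ×ˢ allB j).biUnion fun q =>
        (Icc 1 Z).filter fun z => par (q.1 ++ q.2).length z = q.1 ++ q.2 := fun z hz =>
    mem_biUnion.2 ⟨(par L (T^[j] z), par j z), mem_product.2 ⟨mem_filter.2
      ⟨mem_allB.2 (par_len _ _), (mem_filter.1 hz).2⟩, mem_allB.2 (par_len _ _)⟩,
      mem_filter.2 ⟨(mem_filter.1 hz).1, by rw [← par_add, par_len]⟩⟩
  refine (Nat.cast_le.2 ((card_le_card h1).trans card_biUnion_le)).trans ?_
  rw [Nat.cast_sum]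
  refine (sum_le_card_nsmul _ _ ((Z : ℝ) / 2 ^ (L + j) + 1) fun q hq => ?_).trans (le_of_eq ?_)
  · have := card_par (q.1 ++ q.2) Z
    rwa [show (q.1 ++ q.2).length = L + j by
      rw [List.length_append, mem_allB.1 (mem_filter.1 (mem_product.1 hq).1).1,
        mem_allB.1 (mem_product.1 hq).2]] at this ⊢
  · rw [Ex_ind, card_product, card_allB, nsmul_eq_mul, pow_add]
    push_cast
    field_simp

theorem bad_small : ∃ C : ℝ, ∀ Z : ℕ, 2 ≤ Z →
    (((Icc 1 Z).filter fun z => ∃ j ≤ Nat.log 2 Z / 10, T^[j] z ∈ EE).card : ℝ) ≤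
      C * Z / Real.log Z ^ 2 := by
  obtain ⟨ρ, r0, r1, hρ⟩ := Ex_tail (δ := 1 / 20) (by norm_num)
  obtain ⟨C, hC⟩ := mn1_bd r0 r1
  obtain ⟨C', hC'⟩ := mn1_bd (r := 3 / 1024) (by norm_num) (by norm_num)
  refine ⟨max 10000 (200 * C + 200 * C'), fun Z hZ => ?_⟩
  have a1 := Nat.pow_log_le_self 2 (show Z ≠ 0 by omega)
  have a2 := Nat.lt_pow_succ_log_self one_lt_two Z
  obtain ⟨L, hL⟩ : ∃ L, Nat.log 2 Z / 10 = L := ⟨_, rfl⟩
  have a3 : 2 ^ (10 * L) ≤ Z := (Nat.pow_le_pow_right two_pos (by omega)).trans a1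
  have a4 : Z ≤ 2 ^ (10 * (L + 1)) := a2.le.trans (Nat.pow_le_pow_right two_pos (by omega))
  have z0 : (1 : ℝ) < Z := by exact_mod_cast hZ
  have l0 := Real.log_pos z0
  have l1 : Real.log Z ≤ 10 * (L + 1) := by
    refine (Real.log_le_log (by linarith only [r0, r1, z0]) (Nat.cast_le.2 a4)).trans ?_
    have := Real.log_two_lt_d9
    rw [Nat.cast_pow, Real.log_pow]
    push_cast
    linarith only [r0, r1, this, (Nat.cast_nonneg L : (0 : ℝ) ≤ L), mul_nonneg_of_nonpos_of_nonpos (Mathlib.Tactic.Linarith.sub_nonpos_of_le (Mathlib.Tactic.Linarith.natCast_nonneg ℝ L)) (le_of_lt (Mathlib.Tactic.Linarith.sub_neg_of_lt this))]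
  have l2 : Real.log Z ^ 2 ≤ 100 * (L + 1) ^ 2 := by (refine le_of_not_gt fun h_nl => ?_; linarith only [h_nl, l1, r0, r1, l0, mul_nonneg_of_nonpos_of_nonpos (Mathlib.Tactic.Linarith.sub_nonpos_of_le (Mathlib.Tactic.Linarith.natCast_nonneg ℝ L)) (Mathlib.Tactic.Linarith.sub_nonpos_of_le l1), mul_pos_of_neg_of_neg (Mathlib.Tactic.Linarith.sub_neg_of_lt r0) (Mathlib.Tactic.Linarith.sub_neg_of_lt h_nl), mul_pos_of_neg_of_neg (Mathlib.Tactic.Linarith.sub_neg_of_lt r1) (Mathlib.Tactic.Linarith.sub_neg_of_lt h_nl), mul_nonneg_of_nonpos_of_nonpos (le_of_lt (Mathlib.Tactic.Linarith.sub_neg_of_lt l0)) (Mathlib.Tactic.Linarith.sub_nonpos_of_le l1)])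
  rw [hL, le_div_iff₀ (by positivity)]
  by_cases h : L < 10
  · have b1 : (((Icc 1 Z).filter fun z => ∃ j ≤ L, T^[j] z ∈ EE).card : ℝ) ≤ Z := by
      exact_mod_cast (card_filter_le _ _).trans (by simp)
    have b2 : (L : ℝ) + 1 ≤ 10 := by exact_mod_cast h
    have b3 : Real.log Z ^ 2 ≤ max 10000 (200 * C + 200 * C') :=
      le_max_of_le_left (by linarith only [l2, b2, (Nat.cast_nonneg L : (0 : ℝ) ≤ L), mul_nonneg_of_nonpos_of_nonpos (Mathlib.Tactic.Linarith.sub_nonpos_of_le (Mathlib.Tactic.Linarith.natCast_nonneg ℝ L)) (Mathlib.Tactic.Linarith.sub_nonpos_of_le b2)])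
    rw [mul_comm]
    exact mul_le_mul b3 b1 (Nat.cast_nonneg _) (le_max_of_le_left (by norm_num))
  have b1 : ((Icc 1 Z).filter fun z => ∃ j ≤ L, T^[j] z ∈ EE) ⊆ range (2 * 3 ^ L) ∪
      (range (L + 1)).biUnion fun j => (Icc 1 Z).filter fun z =>
        (1 / 2 + 1 / 20 : ℝ) * L ≤ cn (par L (T^[j] z)) := fun z hz => by
    obtain ⟨z1, j, hj, z2⟩ := mem_filter.1 hz
    by_cases k : 20 * cn (par L (T^[j] z)) ≤ 11 * L
    · exact mem_union_left _ (mem_range.2 (mn1_small (by omega) hj z2 k))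
    · refine mem_union_right _ (mem_biUnion.2 ⟨j, mem_range.2 (by omega), mem_filter.2 ⟨z1, ?_⟩⟩)
      have : (11 * L : ℝ) ≤ 20 * cn (par L (T^[j] z)) := by exact_mod_cast (not_le.1 k).le
      linarith only [this]
  have b2 : (((Icc 1 Z).filter fun z => ∃ j ≤ L, T^[j] z ∈ EE).card : ℝ) ≤
      2 * (3 / 1024) ^ L * Z + (L + 1) * (ρ ^ L * (2 * Z)) := by
    refine (Nat.cast_le.2 ((card_le_card b1).trans ((card_union_le _ _).trans
      (Nat.add_le_add_left card_biUnion_le _)))).trans ?_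
    rw [Nat.cast_add, Nat.cast_sum, card_range]
    refine add_le_add ?_ ((sum_le_card_nsmul _ _ (ρ ^ L * (2 * Z)) fun j hj => ?_).trans (by simp))
    · have : ((1024 : ℝ)) ^ L ≤ Z := by
        rw [pow_mul] at a3
        exact_mod_cast a3
      rw [div_pow, mul_assoc, div_mul_eq_mul_div, mul_div_assoc]
      push_cast
      exact mul_le_mul_of_nonneg_left (le_mul_of_one_le_right (by positivity)
        ((one_le_div (by positivity)).2 this)) two_pos.le
    · have : (2 : ℝ) ^ (L + j) ≤ Z := by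
        have := mem_range.1 hj
        exact_mod_cast (Nat.pow_le_pow_right two_pos (by omega)).trans a3
      exact (mn1_tail (fun k => (1 / 2 + 1 / 20 : ℝ) * L ≤ k) L j Z).trans
        (mul_le_mul (hρ L).1 (by linarith only [this]) (by positivity) (by positivity))
  refine (mul_le_mul b2 l2 (by positivity) (by positivity)).trans
    (le_trans ?_ (mul_le_mul_of_nonneg_right (le_max_right _ _) (by linarith only [r0, r1, z0])))
  have c1 := hC L
  have c2 : ((L : ℝ) + 1) ^ 2 * (3 / 1024) ^ L ≤ C' := le_trans (mul_le_mul_of_nonneg_right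
    (pow_le_pow_right₀ (by linarith only [(Nat.cast_nonneg L : (0 : ℝ) ≤ L)]) (by norm_num))
      (by positivity)) (hC' L)
  calc _ = (200 * (((L : ℝ) + 1) ^ 3 * ρ ^ L) + 200 * ((L + 1) ^ 2 * (3 / 1024) ^ L)) * Z := by ring
    _ ≤ _ := mul_le_mul_of_nonneg_right (by linarith only [c1, c2]) (by linarith only [r0, r1, z0])

end CzD
end
end

-- merged part: Pool.Agent.Work.MP_2efb47_nt.D.Mn3
section
/-! Densities of almost invariant sets. -/

open Finset Filter Topology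
open scoped Classical

noncomputable section
namespace CzD

theorem mn3_main (S : Set ℕ) (β : List Bool) (Z : ℕ) :
    2 ^ β.length / 3 ^ cn β * ∑ w ∈ (Icc 1 (3 ^ cn β * Z / 2 ^ β.length)).filter (fun w => w ∈ S),
      tm β h0 (w : ℕ) = ∑ z ∈ ((Icc 1 Z).filter
        (fun z => z ∈ T^[β.length] ⁻¹' S ∧ par β.length z = β)).filter
        (fun z => T^[β.length] z ≤ 3 ^ cn β * Z / 2 ^ β.length), h0 z := by
  rw [mul_sum, ← sum_congr rfl fun z hz => eq1_tm (eq1_spec (mem_filter.1 (mem_filter.1 hz).1).2.2),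
    ← sum_image (g := fun z => T^[β.length] z)
      (f := fun w : ℕ => (2 : ℝ) ^ β.length / 3 ^ cn β * tm β h0 (w : ℕ)) fun z hz z' hz' e =>
        eq1_inj (mem_filter.1 (mem_filter.1 hz).1).2.2 (mem_filter.1 (mem_filter.1 hz').1).2.2 e]
  refine (sum_subset (fun w hw => ?_) fun w hw n => ?_).symm
  · obtain ⟨z, hz, rfl⟩ := mem_image.1 hw
    simp only [mem_filter, mem_Icc] at hz ⊢
    exact ⟨⟨T_pos hz.1.1.1 _, hz.2⟩, hz.1.2.1⟩
  · simp only [mem_filter, mem_Icc] at hw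
    rw [tm, if_neg, mul_zero]
    intro d
    obtain ⟨z, z1, e⟩ := valid_pos hw.1.1 d
    obtain ⟨e1, e2⟩ := par_uniq e
    refine n (mem_image.2 ⟨z, ?_, e2⟩)
    simp only [mem_filter, mem_Icc]
    refine ⟨⟨⟨z1, ?_⟩, show T^[β.length] z ∈ S from e2 ▸ hw.2, e1⟩, e2 ▸ hw.1.2⟩
    have a := (Nat.le_div_iff_mul_le (by positivity)).1 hw.1.2
    refine Nat.le_of_mul_le_mul_left (c := 3 ^ cn β) ?_ (by positivity)
    rw [mul_comm] at a
    omega

theorem mn3_path (S : Set ℕ) (β : List Bool) (Z : ℕ) :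
    |∑ z ∈ (Icc 1 Z).filter (fun z => z ∈ T^[β.length] ⁻¹' S ∧ par β.length z = β), h0 z -
      2 ^ β.length / 3 ^ cn β * ∑ w ∈ (Icc 1 (3 ^ cn β * Z / 2 ^ β.length)).filter (fun w => w ∈ S),
        tm β h0 (w : ℕ)| ≤ 4 * (3 / 2) ^ β.length := by
  rw [mn3_main S, ← sum_filter_add_sum_filter_not _
    (fun z => T^[β.length] z ≤ 3 ^ cn β * Z / 2 ^ β.length), add_sub_cancel_left]
  refine (abs_sum_le_sum_abs _ _).trans ((sum_le_card_nsmul _ _ 2 fun (z : ℕ) _ => eq1_h0 z).trans ?_)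
  have := eq1_card (S := T^[β.length] ⁻¹' S) β Z
  have p : (0 : ℝ) < (3 / 2) ^ β.length := by positivity
  rw [nsmul_eq_mul]
  linarith only [this, p]

theorem mn3_sum (S : Set ℕ) (L Z : ℕ) :
    |∑ z ∈ (Icc 1 Z).filter (fun z => z ∈ T^[L] ⁻¹' S), h0 z| ≤
      (Z + 3 * 2 ^ L) * ∑ k ∈ range (L + 1), av (k + 1) (fun w => |HH L k w|) + 4 * 3 ^ L := by
  set X : List Bool → ℝ := fun β => 2 ^ L / 3 ^ cn β *
    ∑ w ∈ (Icc 1 (3 ^ cn β * Z / 2 ^ L)).filter (fun w => w ∈ S), tm β h0 (w : ℕ) with hX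
  set Y : List Bool → ℝ := fun β =>
    ∑ z ∈ (Icc 1 Z).filter (fun z => z ∈ T^[L] ⁻¹' S ∧ par L z = β), h0 z with hY
  have e1 : ∑ z ∈ (Icc 1 Z).filter (fun z => z ∈ T^[L] ⁻¹' S), h0 z = ∑ β ∈ allB L, Y β := by
    rw [← sum_fiberwise_of_maps_to (t := allB L) (g := par L)
      (fun z _ => mem_allB.2 (par_len L z))]
    refine sum_congr rfl fun β _ => ?_
    rw [filter_filter]
  have e2 : |∑ β ∈ allB L, (Y β - X β)| ≤ 4 * 3 ^ L := by
    refine (abs_sum_le_sum_abs _ _).trans ?_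
    refine (sum_le_card_nsmul _ _ (4 * (3 / 2) ^ L) fun β hβ => ?_).trans (le_of_eq ?_)
    · have := mn3_path S β Z
      rw [mem_allB.1 hβ] at this
      exact this
    · rw [card_allB, nsmul_eq_mul, div_pow]
      push_cast
      field_simp
  have e3 : ∑ β ∈ allB L, X β = ∑ k ∈ range (L + 1), (2 : ℝ) ^ L / 3 ^ k *
      ∑ w ∈ (Icc 1 (3 ^ k * Z / 2 ^ L)).filter (fun w => w ∈ S), HH L k (w : ℕ) := by
    rw [← sum_fiberwise_of_maps_to (s := allB L) (t := range (L + 1)) (g := cn)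
      (fun β hβ => mem_range.2 (Nat.lt_succ_of_le (mem_allB.1 hβ ▸ cn_le β)))]
    refine sum_congr rfl fun k _ => ?_
    simp only [HH]
    rw [sum_comm, mul_sum]
    refine sum_congr rfl fun β hβ => ?_
    simp only [hX, (mem_filter.1 hβ).2]
  have e4 : |∑ β ∈ allB L, X β| ≤
      (Z + 3 * 2 ^ L) * ∑ k ∈ range (L + 1), av (k + 1) (fun w => |HH L k w|) := by
    rw [e3, mul_sum]
    refine (abs_sum_le_sum_abs _ _).trans (sum_le_sum fun k _ => ?_)
    have h1 : (0 : ℝ) ≤ 2 ^ L / 3 ^ k := by positivity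
    rw [abs_mul, abs_of_nonneg h1]
    refine (mul_le_mul_of_nonneg_left (eq2_HH S L k _) h1).trans ?_
    rw [← mul_assoc]
    refine mul_le_mul_of_nonneg_right ?_ (eq2_av L k)
    have h2 : ((3 ^ k * Z / 2 ^ L : ℕ) : ℝ) ≤ 3 ^ k * Z / 2 ^ L := by
      simpa using Nat.cast_div_le (α := ℝ) (m := 3 ^ k * Z) (n := 2 ^ L)
    refine (mul_le_mul_of_nonneg_left (add_le_add_left h2 _) h1).trans (le_of_eq ?_)
    field_simp
    ring
  rw [e1]
  rw [sum_sub_distrib] at e2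
  have := abs_sub_abs_le_abs_sub (∑ β ∈ allB L, Y β) (∑ β ∈ allB L, X β)
  linarith only [e2, e4, this]

theorem mn3_equi : ∃ C : ℝ, ∀ S : Set ℕ, ∀ Z : ℕ, 2 ≤ Z →
    |∑ z ∈ (Icc 1 Z).filter (fun z => z ∈ T^[Nat.log 2 Z / 10 + 1] ⁻¹' S), h0 z| ≤
      C * Z / Real.log Z ^ 2 := by
  obtain ⟨C, hC, hmix⟩ := mix 2
  refine ⟨100 * (3073 * C + 4096), fun S Z hZ => ?_⟩
  obtain ⟨L, hL⟩ : ∃ L, L = Nat.log 2 Z / 10 + 1 := ⟨_, rfl⟩
  rw [← hL]
  have hL1 : 1 ≤ L := by omega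
  have a1 : 2 ^ Nat.log 2 Z ≤ Z := Nat.pow_log_le_self 2 (by omega)
  have a2 : Z < 2 ^ (Nat.log 2 Z + 1) := Nat.lt_pow_succ_log_self (by norm_num) Z
  have a3 : 1024 ^ L ≤ 1024 * Z := by
    calc 1024 ^ L = 2 ^ (10 * L) := by rw [pow_mul]; norm_num
      _ ≤ 2 ^ (10 + Nat.log 2 Z) := Nat.pow_le_pow_right (by norm_num) (by omega)
      _ = 1024 * 2 ^ Nat.log 2 Z := by rw [pow_add]; norm_num
      _ ≤ 1024 * Z := Nat.mul_le_mul_left _ a1
  have a4 : Z ≤ 2 ^ (10 * L) := a2.le.trans (Nat.pow_le_pow_right (by norm_num) (by omega))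
  have a5 : 2 ^ L ≤ 1024 * Z := (Nat.pow_le_pow_left (by norm_num) L).trans a3
  have a6 : 3 ^ L * L ^ 2 ≤ 1024 * Z := by
    have : L ^ 2 ≤ (2 ^ L) ^ 2 := Nat.pow_le_pow_left (Nat.lt_two_pow_self).le 2
    calc 3 ^ L * L ^ 2 ≤ 3 ^ L * (2 ^ L) ^ 2 := Nat.mul_le_mul_left _ this
      _ = 12 ^ L := by rw [← pow_mul, mul_comm L 2, pow_mul, ← mul_pow]; norm_num
      _ ≤ 1024 ^ L := Nat.pow_le_pow_left (by norm_num) L
      _ ≤ 1024 * Z := a3
  have hZ' : (2 : ℝ) ≤ Z := by exact_mod_cast hZ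
  have hL' : (1 : ℝ) ≤ L := by exact_mod_cast hL1
  have b1 : 0 < Real.log Z := Real.log_pos (by linarith only [hZ'])
  have b2 : Real.log Z ≤ 10 * L := by
    have h1 : (Z : ℝ) ≤ 2 ^ (10 * L) := by exact_mod_cast a4
    have h2 := Real.log_le_log (by linarith only [hZ']) h1
    rw [Real.log_pow] at h2
    have h3 : Real.log 2 ≤ 1 := by linarith only [Real.log_two_lt_d9]
    push_cast at h2
    linarith only [h2, h3, mul_nonneg_of_nonpos_of_nonpos (Mathlib.Tactic.Linarith.sub_nonpos_of_le (Mathlib.Tactic.Linarith.natCast_nonneg ℝ L)) (Mathlib.Tactic.Linarith.sub_nonpos_of_le h3)]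
  have b5 : (2 : ℝ) ^ L ≤ 1024 * Z := by exact_mod_cast a5
  have b6 : (3 : ℝ) ^ L ≤ 1024 * Z / L ^ 2 := by
    rw [le_div_iff₀ (by positivity)]
    exact_mod_cast a6
  have b7 : (Z + 3 * 2 ^ L) * ∑ k ∈ range (L + 1), av (k + 1) (fun w => |HH L k w|) ≤
      3073 * Z * (C / (L : ℝ) ^ 2) :=
    mul_le_mul (by linarith only [b5]) (hmix L hL1) (sum_nonneg fun k _ => eq2_av L k) (by positivity)
  refine (mn3_sum S L Z).trans ?_
  calc _ ≤ 3073 * Z * (C / (L : ℝ) ^ 2) + 4 * (1024 * Z / L ^ 2) := by linarith only [b6, b7]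
    _ = 100 * (3073 * C + 4096) * Z / (10 * L) ^ 2 := by field_simp; ring
    _ ≤ _ := div_le_div_of_nonneg_left (by positivity) (by positivity)
        (pow_le_pow_left₀ b1.le b2 2)

theorem mn3_iter {S : Set ℕ} (hS : AInv S) {z : ℕ} (hz : 1 ≤ z) (L : ℕ)
    (h : ∀ j < L, T^[j] z ∉ EE) : z ∈ S ↔ T^[L] z ∈ S := by
  induction L with
  | zero => rfl
  | succ L ih =>
    rw [ih fun j hj => h j (by omega), Function.iterate_succ_apply']
    exact hS _ (T_pos hz L) (h L (by omega))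

/-- Two sets that agree outside an exceptional set. -/
theorem mn3_diff (s : Finset ℕ) (p q b : ℕ → Prop) [DecidablePred p] [DecidablePred q]
    [DecidablePred b] (f : ℕ → ℝ) {c : ℝ} (hf : ∀ z, |f z| ≤ c)
    (h : ∀ z ∈ s, ¬ b z → (p z ↔ q z)) :
    |∑ z ∈ s.filter p, f z - ∑ z ∈ s.filter q, f z| ≤ c * (s.filter b).card := by
  rw [sum_filter, sum_filter, ← sum_sub_distrib, card_filter]
  push_cast
  rw [mul_sum]
  refine (abs_sum_le_sum_abs _ _).trans (sum_le_sum fun z hz => ?_)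
  have c0 : 0 ≤ c := (abs_nonneg _).trans (hf z)
  by_cases hb : b z
  · by_cases hp : p z <;> by_cases hq : q z <;> simp [hb, hp, hq, hf z, c0]
  · have := h z hz hb
    by_cases hp : p z
    · simp [hb, hp, this.1 hp]
    · simp [hb, hp, mt this.2 hp]

theorem equiA : ∃ C : ℝ, ∀ S : Set ℕ, AInv S → ∀ Z : ℕ, 2 ≤ Z →
    |∑ z ∈ (Icc 1 Z).filter (fun z => z ∈ S), h0 z| ≤ C * Z / Real.log Z ^ 2 := by
  obtain ⟨C, hC⟩ := mn3_equi
  obtain ⟨C', hC'⟩ := bad_small
  refine ⟨C + 2 * C', fun S hS Z hZ => ?_⟩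
  have h1 := hC S Z hZ
  have h2 := hC' Z hZ
  have h3 := mn3_diff (Icc 1 Z) (fun z => z ∈ S) (fun z => z ∈ T^[Nat.log 2 Z / 10 + 1] ⁻¹' S)
    (fun z => ∃ j ≤ Nat.log 2 Z / 10, T^[j] z ∈ EE) (fun z => h0 z) (fun z => eq1_h0 z)
    fun z hz hb => mn3_iter hS (mem_Icc.1 hz).1 _ fun j hj e => hb ⟨j, by omega, e⟩
  have h4 := abs_sub_abs_le_abs_sub (∑ z ∈ (Icc 1 Z).filter (fun z => z ∈ S), h0 z)
    (∑ z ∈ (Icc 1 Z).filter (fun z => z ∈ T^[Nat.log 2 Z / 10 + 1] ⁻¹' S), h0 z)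
  rw [show (C + 2 * C') * Z / Real.log Z ^ 2 =
    C * Z / Real.log Z ^ 2 + 2 * (C' * Z / Real.log Z ^ 2) by ring]
  linarith only [h1, h2, h3, h4]

theorem mn3_rec (S : Set ℕ) (x : ℕ) : cnt (T ⁻¹' S) x = cnt S (x / 2) +
    ((Icc 1 ((3 * x + 1) / 2)).filter fun w => w ∈ S ∧ w % 3 = 2).card := by
  unfold cnt
  rw [← card_filter_add_card_filter_not (fun z => z % 2 = 0)]
  refine congrArg₂ (· + ·) ?_ ?_
  · refine card_nbij' (fun z => z / 2) (fun w => 2 * w) (fun z hz => ?_) (fun w hw => ?_)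
      (fun z hz => ?_) (fun w _ => ?_)
    · simp only [coe_filter, mem_filter, mem_Icc, Set.mem_ofPred_eq, Set.mem_preimage] at hz ⊢
      have := hz.1.2
      rw [T, if_pos hz.2] at this
      exact ⟨by omega, this⟩
    · simp only [coe_filter, mem_filter, mem_Icc, Set.mem_ofPred_eq, Set.mem_preimage] at hw ⊢
      refine ⟨⟨by omega, ?_⟩, by omega⟩
      rw [T, if_pos (by omega), Nat.mul_div_cancel_left _ two_pos]
      exact hw.2
    · simp only [coe_filter, mem_filter, mem_Icc, Set.mem_ofPred_eq] at hz ⊢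
      omega
    · simp only
      omega
  · refine card_nbij' (fun z => (3 * z + 1) / 2) (fun w => (2 * w - 1) / 3) (fun z hz => ?_)
      (fun w hw => ?_) (fun z hz => ?_) (fun w hw => ?_)
    · simp only [coe_filter, mem_filter, mem_Icc, Set.mem_ofPred_eq, Set.mem_preimage] at hz ⊢
      have := hz.1.2
      rw [T, if_neg hz.2] at this
      exact ⟨by omega, this, by omega⟩
    · simp only [coe_filter, mem_filter, mem_Icc, Set.mem_ofPred_eq, Set.mem_preimage] at hw ⊢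
      refine ⟨⟨by omega, ?_⟩, by omega⟩
      rw [T, if_neg (by omega), show (3 * ((2 * w - 1) / 3) + 1) / 2 = w by omega]
      exact hw.2.1
    · simp only [coe_filter, mem_filter, mem_Icc, Set.mem_ofPred_eq] at hz ⊢
      omega
    · simp only [coe_filter, mem_Icc, Set.mem_ofPred_eq] at hw ⊢
      omega

theorem mn3_cnt : ∃ C : ℝ, ∀ S : Set ℕ, AInv S → ∀ x Z : ℕ, 2 ≤ Z → x ≤ Z →
    |(cnt S x : ℝ) - cnt (T ⁻¹' S) x| ≤ C * Z / Real.log Z ^ 2 := by
  obtain ⟨C, hC⟩ := bad_small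
  refine ⟨C, fun S hS x Z hZ hx => le_trans ?_ (hC Z hZ)⟩
  have h3 := mn3_diff (Icc 1 x) (fun z => z ∈ S) (fun z => z ∈ T ⁻¹' S) (fun z => z ∈ EE)
    (fun _ => 1) (c := 1) (fun _ => by simp) fun z hz hb => hS z (mem_Icc.1 hz).1 hb
  simp only [sum_const, nsmul_eq_mul, mul_one, one_mul] at h3
  refine h3.trans (Nat.cast_le.2 (card_le_card fun z hz => ?_))
  simp only [mem_filter, mem_Icc] at hz ⊢
  exact ⟨⟨hz.1.1, hz.1.2.trans hx⟩, 0, Nat.zero_le _, hz.2⟩

theorem mn3_rel {S : Set ℕ} {C C' : ℝ} (hC : ∀ Z : ℕ, 2 ≤ Z →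
    |∑ z ∈ (Icc 1 Z).filter (fun z => z ∈ S), h0 z| ≤ C * Z / Real.log Z ^ 2)
    (hC' : ∀ x Z : ℕ, 2 ≤ Z → x ≤ Z → |(cnt S x : ℝ) - cnt (T ⁻¹' S) x| ≤ C' * Z / Real.log Z ^ 2)
    {u : ℝ} (hu : 1 ≤ u) :
    |den_N S (Real.exp u) - den_N S (Real.exp u / 2) - den_N S (Real.exp u * (3 / 2)) / 3| ≤
      (|C| + 3 * |C'| + 2) * Real.exp u / u ^ 2 := by
  have hq := Real.quadratic_le_exp_of_nonneg (by linarith : 0 ≤ u)
  have hl := Real.log_exp u
  generalize Real.exp u = y at *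
  have hu2 : 1 ≤ u ^ 2 := by linarith only [hu, mul_nonneg_of_nonpos_of_nonpos (Mathlib.Tactic.Linarith.sub_nonpos_of_le hu) (Mathlib.Tactic.Linarith.sub_nonpos_of_le hu)]
  have hx : 2 ≤ ⌊y⌋₊ := Nat.le_floor (by push_cast; linarith only [hu, hq, hu2])
  have h1 := Nat.floor_le (by linarith only [hu, hq, hu2] : 0 ≤ y)
  have h2 := Nat.lt_floor_add_one y
  have h3 := mn3_rec S ⌊y⌋₊
  have h4 : den_N S (y / 2) = cnt S (⌊y⌋₊ / 2) := by rw [den_N, Nat.floor_div_ofNat]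
  obtain ⟨Z, hZ⟩ : ∃ Z, Z = (3 * ⌊y⌋₊ + 1) / 2 := ⟨_, rfl⟩
  rw [← hZ] at h3
  have z1 : (⌊y⌋₊ : ℝ) + 1 ≤ Z := by exact_mod_cast (by omega : ⌊y⌋₊ + 1 ≤ Z)
  have z2 : 2 * (Z : ℝ) ≤ 3 * ⌊y⌋₊ + 1 := by exact_mod_cast (by omega : 2 * Z ≤ 3 * ⌊y⌋₊ + 1)
  have z3 : 3 * (⌊y⌋₊ : ℝ) ≤ 2 * Z := by exact_mod_cast (by omega : 3 * ⌊y⌋₊ ≤ 2 * Z)
  have h5 := hC Z (by omega)
  have h5' := hC' ⌊y⌋₊ Z (by omega) (by omega)
  rw [den_sum] at h5
  have h6 := den_lip S (y := y * (3 / 2)) (z := Z) (by linarith only [hu, hq, hu2]) (Nat.cast_nonneg _)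
  have h7 : |(Z : ℝ) - y * (3 / 2)| ≤ 2 := abs_le.2 ⟨by linarith only [h2, z3], by linarith only [h1, z2]⟩
  rw [show den_N S Z = cnt S Z by rw [den_N, Nat.floor_natCast]] at h6
  have h8 : u ≤ Real.log Z := hl ▸ Real.log_le_log (by linarith only [hu, hq, hu2]) (by linarith only [h2, z1])
  have h9 : ∀ C : ℝ, C * Z / Real.log Z ^ 2 ≤ |C| * (3 * y) / u ^ 2 := fun C => by
    refine le_trans (div_le_div_of_nonneg_right (mul_le_mul (le_abs_self C)
      (by linarith only [hu, hq, hu2, h1, z2] : (Z : ℝ) ≤ 3 * y) (Nat.cast_nonneg _) (abs_nonneg C)) (sq_nonneg _)) ?_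
    exact div_le_div_of_nonneg_left (mul_nonneg (abs_nonneg C) (by linarith only [hu, hq, hu2])) (by linarith only [hu2])
      (pow_le_pow_left₀ (by linarith only [hu]) h8 2)
  have h10 : 1 ≤ 2 * y / u ^ 2 := by
    rw [le_div_iff₀ (by linarith only [hu2])]
    linarith only [hu, hq]
  have e : (|C| + 3 * |C'| + 2) * y / u ^ 2 =
      |C| * (3 * y) / u ^ 2 / 3 + |C'| * (3 * y) / u ^ 2 + 2 * y / u ^ 2 := by ring
  rw [h3, Nat.cast_add] at h5'
  rw [h4, e, den_N]
  obtain ⟨a1, a2⟩ := abs_le.1 h5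
  obtain ⟨b1, b2⟩ := abs_le.1 h6
  obtain ⟨c1, c2⟩ := abs_le.1 h5'
  have := h9 C
  have := h9 C'
  exact abs_le.2 ⟨by linarith, by linarith⟩

theorem denA {S : Set ℕ} (hS : AInv S) :
    ∃ d : ℝ, Tendsto (fun x : ℕ => (cnt S x : ℝ) / x) atTop (𝓝 d) := by
  obtain ⟨C, hC⟩ := equiA
  obtain ⟨C', hC'⟩ := mn3_cnt
  refine (lim_main (D := fun u => den_N S (Real.exp u) / Real.exp u) (C := |C| + 3 * |C'| + 2)
    (((Measurable.of_discrete (f := fun n : ℕ => (cnt S n : ℝ))).comp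
      (Nat.measurable_floor.comp Real.measurable_exp)).div Real.measurable_exp)
    (fun u => ⟨div_nonneg (den_le S (Real.exp_pos u).le).1 (Real.exp_pos u).le,
      (div_le_one (Real.exp_pos u)).2 (den_le S (Real.exp_pos u).le).2⟩) (fun ε hε => ?_)
    (fun u hu => ?_)).imp fun d hd => ?_
  · refine ⟨min 1 (ε / 8), by positivity, ?_⟩
    filter_upwards [Real.tendsto_exp_atTop.eventually_ge_atTop (2 / ε)] with u hu v hv
    have h1 := den_uc S (Real.exp_pos u) (Real.exp_pos v)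
    have h2 := Real.abs_exp_sub_one_le (hv.trans (min_le_left _ _))
    have h3 := hv.trans (min_le_right _ _)
    have h4 : 1 / Real.exp u ≤ ε / 2 := by
      rw [div_le_iff₀ hε] at hu
      rw [div_le_iff₀ (Real.exp_pos u)]
      linarith only [hu]
    rw [Real.exp_add]
    linarith only [h1, h2, h3, h4]
  · have h1 := mn3_rel (hC S hS) (hC' S hS) hu
    have hp := Real.exp_pos u
    rw [Real.exp_add, Real.exp_sub, Real.exp_log two_pos, Real.exp_log (by norm_num)]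
    rw [show den_N S (Real.exp u) / Real.exp u -
        1 / 2 * (den_N S (Real.exp u / 2) / (Real.exp u / 2)) -
        1 / 2 * (den_N S (Real.exp u * (3 / 2)) / (Real.exp u * (3 / 2))) =
        (den_N S (Real.exp u) - den_N S (Real.exp u / 2) - den_N S (Real.exp u * (3 / 2)) / 3) /
          Real.exp u by field_simp, abs_div, abs_of_pos hp, div_le_iff₀ hp, div_mul_eq_mul_div]
    exact h1
  · refine (hd.comp (Real.tendsto_log_atTop.comp tendsto_natCast_atTop_atTop)).congr' ?_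
    filter_upwards [eventually_gt_atTop 0] with x hx
    simp only [Function.comp, Real.exp_log (Nat.cast_pos.2 hx : (0 : ℝ) < x), den_N,
      Nat.floor_natCast]

end CzD
end
end

-- merged part: Pool.Agent.Work.MP_2efb47_nt.D.Mn5
section
/-! Transfer to `V`. -/

open Finset Filter Topology
open scoped Classical

noncomputable section
namespace CzD

theorem mn5_cnt {S S' : Set ℕ} (hev : ∀ n, 1 ≤ n → (2 * n ∈ S ↔ n ∈ S))
    (hod : ∀ m, 1 ≤ m → (2 * m + 1 ∈ S ↔ m ∈ S')) (x : ℕ) :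
    cnt S (x / 2) + cnt S' ((x - 1) / 2) ≤ cnt S x ∧
      cnt S x ≤ cnt S (x / 2) + cnt S' ((x - 1) / 2) + 1 := by
  set A := ((Icc 1 (x / 2)).filter fun z => z ∈ S).image fun y => 2 * y with hA
  set B := ((Icc 1 ((x - 1) / 2)).filter fun z => z ∈ S').image fun y => 2 * y + 1 with hB
  have cA : A.card = cnt S (x / 2) :=
    Finset.card_image_of_injective _ fun a b hab => by
      have : 2 * a = 2 * b := hab
      omega
  have cB : B.card = cnt S' ((x - 1) / 2) :=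
    Finset.card_image_of_injective _ fun a b hab => by
      have : 2 * a + 1 = 2 * b + 1 := hab
      omega
  have hd : Disjoint A B := by
    rw [Finset.disjoint_left]
    intro z hz hz'
    obtain ⟨a, -, ha⟩ := mem_image.1 hz
    obtain ⟨b, -, hb⟩ := mem_image.1 hz'
    omega
  rw [← cA, ← cB, ← Finset.card_union_of_disjoint hd]
  constructor
  · refine Finset.card_le_card fun z hz => ?_
    rcases mem_union.1 hz with hz | hz
    · obtain ⟨a, ha, rfl⟩ := mem_image.1 hz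
      obtain ⟨ha1, ha2⟩ := mem_filter.1 ha
      obtain ⟨h1, h2⟩ := mem_Icc.1 ha1
      exact mem_filter.2 ⟨mem_Icc.2 ⟨by omega, by omega⟩, (hev a h1).2 ha2⟩
    · obtain ⟨a, ha, rfl⟩ := mem_image.1 hz
      obtain ⟨ha1, ha2⟩ := mem_filter.1 ha
      obtain ⟨h1, h2⟩ := mem_Icc.1 ha1
      exact mem_filter.2 ⟨mem_Icc.2 ⟨by omega, by omega⟩, (hod a h1).2 ha2⟩
  · refine le_trans (Finset.card_le_card (t := insert 1 (A ∪ B)) fun z hz => ?_)
      (Finset.card_insert_le _ _)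
    obtain ⟨hz1, hz2⟩ := mem_filter.1 hz
    obtain ⟨h1, h2⟩ := mem_Icc.1 hz1
    by_cases hz1 : z = 1
    · exact mem_insert.2 (Or.inl hz1)
    refine mem_insert.2 (Or.inr (mem_union.2 ?_))
    rcases Nat.even_or_odd' z with ⟨a, rfl | rfl⟩
    · exact Or.inl (mem_image.2 ⟨a, mem_filter.2 ⟨mem_Icc.2 ⟨by omega, by omega⟩,
        (hev a (by omega)).1 hz2⟩, rfl⟩)
    · exact Or.inr (mem_image.2 ⟨a, mem_filter.2 ⟨mem_Icc.2 ⟨by omega, by omega⟩,
        (hod a (by omega)).1 hz2⟩, rfl⟩)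

theorem transfer {S S' : Set ℕ} (h1 : ∀ n, 1 ≤ n → (2 * n ∈ S ↔ n ∈ S))
    (h2 : ∀ m, 1 ≤ m → (2 * m + 1 ∈ S ↔ m ∈ S')) {d : ℝ}
    (hd : Tendsto (fun x : ℕ => (cnt S' x : ℝ) / x) atTop (𝓝 d)) :
    Tendsto (fun x : ℕ => (cnt S x : ℝ) / x) atTop (𝓝 d) := by
  have a1 : Tendsto (fun x : ℕ => (((x - 1) / 2 : ℕ) : ℝ) / x) atTop (𝓝 (1 / 2)) := by
    refine fin_sq fun x => ?_
    have h1 : 2 * ((x - 1) / 2) ≤ x := by omega
    have h2 : x ≤ 2 * ((x - 1) / 2) + 2 := by omega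
    have h1' : (2 : ℝ) * (((x - 1) / 2 : ℕ) : ℝ) ≤ x := by exact_mod_cast h1
    have h2' : (x : ℝ) ≤ 2 * (((x - 1) / 2 : ℕ) : ℝ) + 2 := by exact_mod_cast h2
    rw [abs_le]
    constructor <;> linarith only [h2', h1']
  have a2 : Tendsto (fun x : ℕ => ((x / 2 : ℕ) : ℝ) / x) atTop (𝓝 (1 / 2)) := by
    refine fin_sq fun x => ?_
    have h1 : 2 * (x / 2) ≤ x := by omega
    have h2 : x ≤ 2 * (x / 2) + 2 := by omega
    have h1' : (2 : ℝ) * ((x / 2 : ℕ) : ℝ) ≤ x := by exact_mod_cast h1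
    have h2' : (x : ℝ) ≤ 2 * ((x / 2 : ℕ) : ℝ) + 2 := by exact_mod_cast h2
    rw [abs_le]
    constructor <;> linarith only [h2', h1']
  have a3 : Tendsto (fun x : ℕ => (cnt S' ((x - 1) / 2) : ℝ) / x) atTop (𝓝 (d * (1 / 2))) := by
    refine ((hd.comp fin_half).mul a1).congr' ?_
    filter_upwards [eventually_ge_atTop 3] with x hx
    have h1 : (0 : ℝ) < (((x - 1) / 2 : ℕ) : ℝ) := by
      exact_mod_cast (show 0 < (x - 1) / 2 by omega)
    simp only [Function.comp]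
    field_simp
  have a4 : Tendsto (fun x : ℕ =>
      ((cnt S x : ℝ) - cnt S (x / 2) - cnt S' ((x - 1) / 2)) / x) atTop (𝓝 0) := by
    refine squeeze_zero_norm' ?_ (tendsto_const_div_atTop_nhds_zero_nat (1 : ℝ))
    filter_upwards [eventually_ge_atTop 1] with x hx
    have hxr : (0 : ℝ) < x := by exact_mod_cast hx
    obtain ⟨h1, h2⟩ := mn5_cnt h1 h2 x
    have h1' : (cnt S (x / 2) : ℝ) + cnt S' ((x - 1) / 2) ≤ cnt S x := by exact_mod_cast h1
    have h2' : (cnt S x : ℝ) ≤ cnt S (x / 2) + cnt S' ((x - 1) / 2) + 1 := by exact_mod_cast h2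
    rw [Real.norm_eq_abs, abs_div, abs_of_pos hxr]
    refine div_le_div_of_nonneg_right ?_ hxr.le
    rw [abs_le]
    constructor <;> linarith only [h1', h2']
  have a5 : Tendsto (fun x : ℕ => (((cnt S x : ℝ) - d * x) -
      ((cnt S (x / 2) : ℝ) - d * ((x / 2 : ℕ) : ℝ))) / x) atTop (𝓝 0) := by
    have b1 := ((a4.add a3).add (a2.const_mul d)).sub_const d
    have e0 : 0 + d * (1 / 2) + d * (1 / 2) - d = 0 := by ring
    rw [e0] at b1
    refine b1.congr' ?_
    filter_upwards [eventually_ge_atTop 1] with x hx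
    have hxr : (0 : ℝ) < x := by exact_mod_cast hx
    field_simp
    ring
  have a6 := (halve (e := fun x : ℕ => (cnt S x : ℝ) - d * x) a5).add_const d
  rw [zero_add] at a6
  refine a6.congr' ?_
  filter_upwards [eventually_ge_atTop 1] with x hx
  have hxr : (0 : ℝ) < x := by exact_mod_cast hx
  field_simp
  ring

theorem mnV_le (n k : ℕ) : mnV n ≤ V^[k] n := Nat.sInf_le ⟨k, rfl⟩

theorem mnV_mem (n : ℕ) : ∃ k, V^[k] n = mnV n :=
  Nat.sInf_mem (s := Set.range fun k => V^[k] n) ⟨n, 0, rfl⟩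

theorem mnV_two (n : ℕ) : mnV (2 * n) = mnV n := by
  apply le_antisymm
  · obtain ⟨k, hk⟩ := mnV_mem n
    have := mnV_le (2 * n) (k + 1)
    rwa [Function.iterate_succ_apply, fin_even, hk] at this
  · obtain ⟨k, hk⟩ := mnV_mem (2 * n)
    rcases k with _ | k
    · have := mnV_le n 0
      simp only [Function.iterate_zero, id] at hk this
      omega
    · rw [Function.iterate_succ_apply, fin_even] at hk
      exact hk ▸ mnV_le n k

theorem mn5_iter (m k : ℕ) : V^[k] (2 * m + 1) = 2 * T^[k] m + 1 := by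
  induction k with
  | zero => rfl
  | succ k ih => rw [Function.iterate_succ_apply', Function.iterate_succ_apply', ih, fin_odd]

theorem mnV_odd (m : ℕ) : mnV (2 * m + 1) = 2 * mnT m + 1 := by
  apply le_antisymm
  · obtain ⟨k, hk⟩ := mnT_mem m
    have := mnV_le (2 * m + 1) k
    rwa [mn5_iter, hk] at this
  · obtain ⟨k, hk⟩ := mnV_mem (2 * m + 1)
    have := mnT_le m k
    rw [mn5_iter] at hk
    omega

theorem mn5_tr (A : Set ℕ) {d : ℝ}
    (hd : Tendsto (fun x : ℕ => (cnt {m | 2 * mnT m + 1 ∈ A} x : ℝ) / x) atTop (𝓝 d)) :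
    Tendsto (fun x : ℕ => (cnt {n | mnV n ∈ A} x : ℝ) / x) atTop (𝓝 d) :=
  transfer (fun n _ => by simp only [Set.mem_ofPred_eq, mnV_two])
    (fun m _ => by simp only [Set.mem_ofPred_eq, mnV_odd]) hd

theorem main_mn : ∃ w : ℕ → ℝ, (∀ a, 0 ≤ w a) ∧ HasSum w 1 ∧ (∀ A : Set ℕ,
    Tendsto (fun x : ℕ => (cnt {n | mnV n ∈ A} x : ℝ) / x) atTop (𝓝 (∑' a, A.indicator w a))) ∧
      ∀ a, 0 < w a ↔ mnV a = a ∧ (a % 6 = 3 ∨ a % 6 = 5) := by
  obtain ⟨w, w0, w1, hw⟩ := schur (l := mnV) fun A =>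
    (denA (AInv_mn {c | 2 * c + 1 ∈ A})).imp fun d hd => mn5_tr A hd
  refine ⟨w, w0, w1, hw, fun a => ?_⟩
  have h1 := hw {a}
  rw [tsum_eq_single a (fun b hb => Set.indicator_of_notMem (by simpa using hb) _),
    Set.indicator_of_mem (Set.mem_singleton a)] at h1
  rcases Nat.even_or_odd' a with ⟨c, rfl | rfl⟩
  · have e : {m | 2 * mnT m + 1 ∈ ({2 * c} : Set ℕ)} = ∅ := by
      ext m
      simp only [Set.mem_ofPred_eq, Set.mem_singleton_iff, Set.mem_empty_iff_false, iff_false]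
      omega
    have h2 := mn5_tr {2 * c} (d := 0) (by rw [e]; simp [cnt])
    rw [tendsto_nhds_unique h1 h2]
    exact ⟨fun h => absurd h (lt_irrefl _), fun h => by omega⟩
  · have e : {m | 2 * mnT m + 1 ∈ ({2 * c + 1} : Set ℕ)} = {m | mnT m = c} := by
      ext m
      simp only [Set.mem_ofPred_eq, Set.mem_singleton_iff]
      omega
    rw [mnV_odd]
    constructor
    · intro h
      by_contra h'
      have h2 := mn5_tr {2 * c + 1} (d := 0) (by rw [e]; exact zeroA fun g => h' (by omega))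
      exact h.ne' (tendsto_nhds_unique h1 h2)
    · intro h
      obtain ⟨d, hd⟩ := denA (AInv_mn {c})
      have h2 := mn5_tr {2 * c + 1} (d := d) (by rw [e]; exact hd)
      rw [tendsto_nhds_unique h1 h2]
      exact posA (a := c) (by omega) (by omega) hd

end CzD
end
end
end
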