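import Mathlib

-- merged part: Pool.Agent.Work.MP_2efb47_nt.D.Equi1
section
-- merged part: Pool.Agent.Work.MP_2efb47_nt.D.Defs
section
/-! Densities of invariant sets of the 3x+1 map: definitions. A list of bits is a backward path, the head is the first backward step. -/

open Finset Filter Topology
open scoped Classical

noncomputable section
namespace CzD

/-- All bit lists of length `L`. -/
def allB : ℕ → Finset (List Bool)
  | 0 => {[]}
  | L + 1 => (allB L).image (List.cons false) ∪ (allB L).image (List.cons true)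

/-- Number of odd steps. -/
def cn (β : List Bool) : ℕ := β.count true

/-- The additive constant of the path. -/
def rr : List Bool → ℕ
  | [] => 0
  | false :: β => rr β
  | true :: β => 2 ^ β.length + 3 * rr β

/-- Weighted value of `φ` at the end of the backward path `β` from `w`. -/
def tm (β : List Bool) (φ : ℤ → ℝ) (w : ℤ) : ℝ :=
  if (3 : ℤ) ^ cn β ∣ 2 ^ β.length * w - rr β then
    3 ^ cn β / 2 ^ β.length * φ ((2 ^ β.length * w - rr β) / 3 ^ cn β) else 0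

/-- Period `3 ^ n`, and the mean over a period. -/
def Per (n : ℕ) (φ : ℤ → ℝ) : Prop := ∀ w, φ (w + 3 ^ n) = φ w
def av (n : ℕ) (φ : ℤ → ℝ) : ℝ := (∑ w ∈ range (3 ^ n), φ w) / 3 ^ n

def h0 (z : ℤ) : ℝ := if z % 3 = 2 then 2 else -1
def FF (L : ℕ) (w : ℤ) : ℝ := ∑ β ∈ allB L, tm β (fun _ => 1) w
def HH (L k : ℕ) (w : ℤ) : ℝ := ∑ β ∈ (allB L).filter (fun β => cn β = k), tm β h0 w

/-- Binomial expectation. -/
def Ex (L : ℕ) (φ : ℕ → ℝ) : ℝ := (∑ β ∈ allB L, φ (cn β)) / 2 ^ L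

/-- Indicator. -/
def ind (p : Prop) : ℝ := if p then 1 else 0

/-- The 3x+1 map, parity vectors, invariant sets, counting function. -/
def T (n : ℕ) : ℕ := if n % 2 = 0 then n / 2 else (3 * n + 1) / 2
def par : ℕ → ℕ → List Bool
  | 0, _ => []
  | L + 1, z => decide (T^[L] z % 2 = 1) :: par L z
def Inv (S : Set ℕ) : Prop := ∀ n, 1 ≤ n → (n ∈ S ↔ T n ∈ S)
def cnt (S : Set ℕ) (x : ℕ) : ℕ := ((Icc 1 x).filter (fun z => z ∈ S)).card

instance (n : ℕ) : NeZero (3 ^ n) := ⟨by positivity⟩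

/-- Inverse of two, characteristic function, black points of height `h`, level, cosine factor. -/
def i2 (n : ℕ) : ZMod (3 ^ n) := (2 : ZMod (3 ^ n))⁻¹
def Ph (n L : ℕ) (ξ : ZMod (3 ^ n)) (k : ℕ) : ℂ :=
  (∑ β ∈ (allB L).filter (fun β => cn β = k), ZMod.stdAddChar (ξ * (rr β : ZMod (3 ^ n)) * i2 n ^ L)) / 2 ^ L
def Bl (n : ℕ) (ω : ZMod (3 ^ n)) (h : ℕ) : Prop :=
  ∃ x : ℤ, ω = 4 ^ h * x ∧ 20 * 4 ^ h * |x| ≤ 3 ^ n
def Lev (n m : ℕ) (ω : ZMod (3 ^ n)) : Prop := ∃ u, IsUnit u ∧ ω = 3 ^ (n - m) * u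
def cc (n : ℕ) (ω : ZMod (3 ^ n)) : ℝ := ‖(1 : ℂ) + (ZMod.stdAddChar ω : ℂ)‖ / 2
def om (n : ℕ) (ω : ZMod (3 ^ n)) (t N : ℕ) : ZMod (3 ^ n) := 3 ^ N * (i2 n ^ 2) ^ t * ω

/-- The abstract walk: time `t`, position `N`, right edge `n0`. -/
structure WK (κ : ℝ) (n0 : ℕ) (B : ℕ → ℕ → ℕ → Prop) (c Q : ℕ → ℕ → ℝ) : Prop where
  q01 : ∀ t N, 0 ≤ Q t N ∧ Q t N ≤ 1
  c01 : ∀ t N, 0 ≤ c t N ∧ c t N ≤ 1
  wh : ∀ t N, ¬ B t N 0 → c t N ≤ 1 - κ
  rec' : ∀ t N, N + 3 ≤ n0 →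
    Q t N ≤ 1 / 4 * Q (t + 1) N + 1 / 2 * c t N * Q (t + 1) (N + 1) + 1 / 4 * Q (t + 1) (N + 2)
  nxt : ∀ t N h j, B t N 0 → ¬ B t N (h + 1) → j ≤ 2 → ¬ B (t + 1) (N + j) h
  ht : ∀ t N h, N < n0 → B t N h → 5 * h ≤ 4 * (n0 - N)
  cl : ∀ t N h p H a b, B t N h → ¬ B t N (h + 1) → 1 ≤ p → a < b → 4 * b ≤ 5 * h →
    B (t + (h + p)) (N + a) H → B (t + (h + p)) (N + b) H → b - a ≤ H → b - a ≤ 2 * p

/-- The weighted kernel applied `j` times to the terminal function `φ`. -/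
def Kop (c : ℕ → ℕ → ℝ) : ℕ → (ℕ → ℝ) → ℕ → ℕ → ℝ
  | 0, φ, _, N => φ N
  | j + 1, φ, t, N => 1 / 4 * Kop c j φ (t + 1) N + 1 / 2 * c t N * Kop c j φ (t + 1) (N + 1) +
      1 / 4 * Kop c j φ (t + 1) (N + 2)

/-- Good paths of depth `d ^ 2` and their weight with look-ahead `j`. -/
def GG (d : ℕ) : Finset (List Bool) :=
  (allB (d ^ 2)).filter fun β => 20 * cn β ≤ 11 * d ^ 2 ∧ rr β ≤ d ^ 2 * 2 ^ d ^ 2
def PP (d j : ℕ) (a : ℤ) : ℝ := ∑ β ∈ GG d, tm β (FF j) a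

/-- The map of the problem. -/
def V (n : ℕ) : ℕ := if n % 2 = 0 then n / 2 else if n % 4 = 1 then (n + 1) / 2 else (3 * n + 1) / 2

end CzD
end
end

-- merged part: Pool.Agent.Work.MP_2efb47_nt.D.Mn0
section
/-! The minimum of an orbit: definitions. -/

open Finset Filter Topology
open scoped Classical

noncomputable section
namespace CzD

/-- Points whose later iterates are all larger. -/
def EE : Set ℕ := {n | ∀ k, 1 ≤ k → n < T^[k] n}

/-- Invariance outside `EE`. -/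
def AInv (S : Set ℕ) : Prop := ∀ n, 1 ≤ n → n ∉ EE → (n ∈ S ↔ T n ∈ S)

/-- Minimum of the orbit. -/
def mnT (n : ℕ) : ℕ := sInf (Set.range fun k => T^[k] n)
def mnV (n : ℕ) : ℕ := sInf (Set.range fun k => V^[k] n)

end CzD
end
end

-- merged part: Pool.Agent.Work.MP_2efb47_nt.D.Bas
section
/-! Bit lists. -/

open Finset Filter Topology
open scoped Classical

noncomputable section
namespace CzD

theorem mem_allB {L : ℕ} {β : List Bool} : β ∈ allB L ↔ β.length = L := by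
  induction L generalizing β with
  | zero => simp [allB]
  | succ L ih =>
    rcases β with _ | ⟨b, β⟩
    · simp [allB]
    · cases b <;> simp [allB, ih]

theorem sum_allB_succ {M : Type} [AddCommMonoid M] (L : ℕ) (f : List Bool → M) :
    ∑ β ∈ allB (L + 1), f β = ∑ β ∈ allB L, (f (false :: β) + f (true :: β)) := by
  rw [allB, sum_union, sum_image (by intro a _ b _ h; simpa using h),
    sum_image (by intro a _ b _ h; simpa using h), sum_add_distrib]
  rw [disjoint_left]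
  intro a ha hb
  simp only [mem_image] at ha hb
  obtain ⟨x, -, rfl⟩ := ha
  obtain ⟨y, -, h⟩ := hb
  simp at h

theorem sum_allB_add {M : Type} [AddCommMonoid M] (L L' : ℕ) (f : List Bool → M) :
    ∑ β ∈ allB (L + L'), f β = ∑ β ∈ allB L, ∑ β' ∈ allB L', f (β ++ β') := by
  induction L generalizing f with
  | zero => simp [allB]
  | succ L ih =>
    rw [show L + 1 + L' = (L + L') + 1 by ring, sum_allB_succ, sum_allB_succ,
      ih (fun β => f (false :: β) + f (true :: β))]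
    simp [sum_add_distrib]

theorem card_allB (L : ℕ) : (allB L).card = 2 ^ L := by
  induction L with
  | zero => simp [allB]
  | succ L ih =>
    rw [card_eq_sum_ones, sum_allB_succ]
    simp [ih, pow_succ]

@[simp] theorem cn_nil : cn [] = 0 := rfl
@[simp] theorem cn_false (β : List Bool) : cn (false :: β) = cn β := by simp [cn]
@[simp] theorem cn_true (β : List Bool) : cn (true :: β) = cn β + 1 := by simp [cn]

theorem cn_le (β : List Bool) : cn β ≤ β.length := List.count_le_length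

theorem cn_append (β β' : List Bool) : cn (β ++ β') = cn β + cn β' := List.count_append

theorem rr_append (β β' : List Bool) :
    rr (β ++ β') = 2 ^ β'.length * rr β + 3 ^ cn β * rr β' := by
  induction β with
  | nil => simp [rr]
  | cons b β ih =>
    cases b
    · simp [rr, ih]
    · simp only [List.cons_append, rr, ih, List.length_append, cn_true]
      ring

theorem rr_le (β : List Bool) : rr β + 2 ^ β.length ≤ 3 ^ β.length := by
  induction β with
  | nil => simp [rr]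
  | cons b β ih =>
    cases b <;> simp only [rr, List.length_cons, pow_succ] <;> omega

theorem rr_inj {β β' : List Bool} (h1 : β.length = β'.length) (h2 : cn β = cn β')
    (h3 : rr β = rr β') : β = β' := by
  induction β using List.reverseRecOn generalizing β' with
  | nil => exact (List.length_eq_zero_iff.1 h1.symm).symm
  | append_singleton β b ih =>
    induction β' using List.reverseRecOn with
    | nil => simp at h1
    | append_singleton β' b' _ =>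
      have o1 : 3 ^ cn β % 2 = 1 := by simp [Nat.pow_mod]
      have o2 : 3 ^ cn β' % 2 = 1 := by simp [Nat.pow_mod]
      simp only [List.length_append, List.length_singleton, Nat.add_right_cancel_iff] at h1
      rw [cn_append, cn_append] at h2
      rw [rr_append, rr_append] at h3
      cases b <;> cases b' <;>
        simp only [rr, cn_true, cn_false, cn_nil, List.length_singleton, List.length_nil] at h2 h3
      · rw [ih h1 (by omega) (by omega)]
      · omega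
      · omega
      · have e : cn β = cn β' := by omega
        rw [e] at h3
        rw [ih h1 e (by omega)]

theorem sum_rr (L : ℕ) : 4 * ∑ β ∈ allB L, rr β = L * 4 ^ L := by
  induction L with
  | zero => simp [allB, rr]
  | succ L ih =>
    rw [sum_allB_succ, sum_congr rfl (g := fun β => 2 ^ L + 4 * rr β)
      (fun β hβ => by simp only [rr, mem_allB.1 hβ]; ring), sum_add_distrib, ← mul_sum, ih,
      sum_const, card_allB, smul_eq_mul, ← mul_pow]
    ring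

theorem card_rr_gt (L : ℕ) {M : ℝ} (hM : 0 < M) :
    (((allB L).filter fun β => M * 2 ^ L < rr β).card : ℝ) ≤ L / (4 * M) * 2 ^ L := by
  have h1 : (((allB L).filter fun β => M * 2 ^ L < rr β).card : ℝ) * (M * 2 ^ L) ≤
      ∑ β ∈ allB L, (rr β : ℝ) := by
    rw [← nsmul_eq_mul, ← sum_const]
    exact (sum_le_sum fun β hβ => (mem_filter.1 hβ).2.le).trans
      (sum_le_sum_of_subset_of_nonneg (filter_subset _ _) fun _ _ _ => by positivity)
  have h2 : (4 : ℝ) * ∑ β ∈ allB L, (rr β : ℝ) = L * (2 ^ L * 2 ^ L) := by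
    rw [← mul_pow, show (2 : ℝ) * 2 = 4 by norm_num]
    exact_mod_cast sum_rr L
  have h3 : (0 : ℝ) < 2 ^ L := by positivity
  rw [div_mul_eq_mul_div, le_div_iff₀ (by positivity)]
  (refine le_of_not_gt fun h_nl => ?_; linarith only [h_nl, h1, h2, h3, mul_pos_of_neg_of_neg (Mathlib.Tactic.Linarith.sub_neg_of_lt h3) (Mathlib.Tactic.Linarith.sub_neg_of_lt h_nl)])

theorem two_i2 (n : ℕ) : 2 * i2 n = 1 := by
  have h : Nat.Coprime 2 (3 ^ n) := Nat.Coprime.pow_right _ (by norm_num)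
  have := ZMod.coe_mul_inv_eq_one 2 h
  simpa [i2] using this

end CzD
end
end

-- merged part: Pool.Agent.Work.MP_2efb47_nt.D.Pth
section
/-! Backward paths are parity vectors. -/

open Finset Filter Topology
open scoped Classical

noncomputable section
namespace CzD

theorem par_len (L z : ℕ) : (par L z).length = L := by
  induction L with
  | zero => rfl
  | succ L ih => simp [par, ih]

theorem par_spec (L z : ℕ) : 2 ^ L * T^[L] z = 3 ^ cn (par L z) * z + rr (par L z) := by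
  induction L with
  | zero => simp [par, rr]
  | succ L ih =>
    rw [Function.iterate_succ_apply', par]
    generalize T^[L] z = y at ih ⊢
    rcases Nat.mod_two_eq_zero_or_one y with h | h
    · have e : 2 * T y = y := by
        unfold T
        rw [if_pos h]
        omega
      have d : decide (y % 2 = 1) = false := by simp [h]
      rw [d, cn_false, rr, ← ih, pow_succ, mul_assoc, e]
    · have e : 2 * T y = 3 * y + 1 := by
        unfold T
        rw [if_neg (by omega)]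
        omega
      have d : decide (y % 2 = 1) = true := by simp [h]
      rw [d, cn_true, rr, par_len, pow_succ, mul_assoc, e, pow_succ]
      calc 2 ^ L * (3 * y + 1) = 3 * (2 ^ L * y) + 2 ^ L := by ring
        _ = _ := by rw [ih]; ring

theorem par_uniq {β : List Bool} {w z : ℕ} (h : 2 ^ β.length * w = 3 ^ cn β * z + rr β) :
    par β.length z = β ∧ T^[β.length] z = w := by
  induction β generalizing w with
  | nil => simpa [par, rr] using h.symm
  | cons b β ih =>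
    rw [List.length_cons, Function.iterate_succ_apply', par]
    cases b
    · rw [cn_false, rr, List.length_cons, pow_succ, mul_assoc] at h
      obtain ⟨h1, h2⟩ := ih h
      rw [h1, h2]
      refine ⟨by simp, ?_⟩
      unfold T
      rw [if_pos (by omega)]
      omega
    · rw [cn_true, rr, List.length_cons, pow_succ, pow_succ] at h
      have hp : 0 < 2 ^ β.length := by positivity
      obtain ⟨v, rfl⟩ : ∃ v, w = v + 1 := by
        rcases w with _ | v
        · omega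
        · exact ⟨v, rfl⟩
      have h3 : 2 ^ β.length * (2 * v + 1) = 3 * (3 ^ cn β * z + rr β) := by
        have e1 : 2 ^ β.length * 2 * (v + 1) = 2 ^ β.length * (2 * v + 1) + 2 ^ β.length := by ring
        have e2 : 3 ^ cn β * 3 * z = 3 * (3 ^ cn β * z) := by ring
        omega
      obtain ⟨y, hy⟩ : 3 ∣ 2 * v + 1 :=
        (Nat.Coprime.pow_right β.length (by norm_num : Nat.Coprime 3 2)).dvd_of_dvd_mul_left
          ⟨_, h3⟩
      have h4 : 2 ^ β.length * y = 3 ^ cn β * z + rr β := by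
        rw [hy, show 2 ^ β.length * (3 * y) = 3 * (2 ^ β.length * y) by ring] at h3
        omega
      obtain ⟨h1, h2⟩ := ih h4
      rw [h1, h2]
      have hy1 : y % 2 = 1 := by omega
      refine ⟨by simp [hy1], ?_⟩
      unfold T
      rw [if_neg (by omega)]
      omega

theorem valid_pos {β : List Bool} {w : ℕ} (hw : 1 ≤ w)
    (h : (3 : ℤ) ^ cn β ∣ 2 ^ β.length * (w : ℤ) - rr β) :
    ∃ z : ℕ, 1 ≤ z ∧ 2 ^ β.length * w = 3 ^ cn β * z + rr β := by
  induction β generalizing w with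
  | nil => exact ⟨w, hw, by simp [rr]⟩
  | cons b β ih =>
    cases b
    · rw [cn_false, rr, List.length_cons] at h ⊢
      obtain ⟨z, hz, e⟩ := ih (w := 2 * w) (by omega) (by
        rw [pow_succ, mul_assoc] at h
        exact_mod_cast h)
      exact ⟨z, hz, by rw [pow_succ, mul_assoc, e]⟩
    · rw [cn_true, rr, List.length_cons] at h ⊢
      obtain ⟨v, rfl⟩ : ∃ v, w = v + 1 := ⟨w - 1, by omega⟩
      have e0 : (2 : ℤ) ^ (β.length + 1) * ((v + 1 : ℕ) : ℤ) - ((2 ^ β.length + 3 * rr β : ℕ) : ℤ) =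
          2 ^ β.length * (2 * v + 1) - 3 * rr β := by
        push_cast
        ring
      rw [e0] at h
      have d1 : (3 : ℤ) ∣ 2 ^ β.length * (2 * v + 1) := by
        have h5 : (3 : ℤ) ∣ 2 ^ β.length * (2 * v + 1) - 3 * rr β :=
          (Dvd.intro_left _ (pow_succ _ _).symm).trans h
        simpa using dvd_add h5 (dvd_mul_right (3 : ℤ) (rr β))
      obtain ⟨y, hy⟩ : 3 ∣ 2 * v + 1 :=
        (Nat.Coprime.pow_right β.length (by norm_num : Nat.Coprime 3 2)).dvd_of_dvd_mul_left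
          (by exact_mod_cast d1)
      have hy' : (2 * v + 1 : ℤ) = 3 * y := by exact_mod_cast hy
      rw [hy', show (2 : ℤ) ^ β.length * (3 * y) - 3 * rr β = (2 ^ β.length * y - rr β) * 3 by ring,
        pow_succ] at h
      obtain ⟨z, hz, e⟩ := ih (w := y) (by omega) ((mul_dvd_mul_iff_right (by norm_num)).1 h)
      refine ⟨z, hz, ?_⟩
      calc 2 ^ (β.length + 1) * (v + 1) = 2 ^ β.length * (2 * v + 1) + 2 ^ β.length := by ring
        _ = 3 * (2 ^ β.length * y) + 2 ^ β.length := by rw [hy]; ring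
        _ = _ := by rw [e]; ring

theorem T_pos {n : ℕ} (h : 1 ≤ n) (L : ℕ) : 1 ≤ T^[L] n := by
  induction L with
  | zero => exact h
  | succ L ih =>
    rw [Function.iterate_succ_apply']
    generalize T^[L] n = y at ih ⊢
    unfold T
    split_ifs <;> omega

theorem Inv.iter {S : Set ℕ} (h : Inv S) {n : ℕ} (hn : 1 ≤ n) (L : ℕ) : n ∈ S ↔ T^[L] n ∈ S := by
  induction L with
  | zero => rfl
  | succ L ih =>
    rw [Function.iterate_succ_apply', ih]
    exact h _ (T_pos hn L)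

theorem pth_pow (k : ℕ) : ∃ u : ℤ, (2 : ℤ) ^ (2 * 3 ^ k) = 1 + 3 ^ (k + 1) * (3 * u + 1) := by
  induction k with
  | zero => exact ⟨0, by norm_num⟩
  | succ k ih =>
    obtain ⟨u, hu⟩ := ih
    refine ⟨u + 3 ^ k * (3 * u + 1) ^ 2 + (3 ^ k) ^ 2 * (3 * u + 1) ^ 3, ?_⟩
    rw [show 2 * 3 ^ (k + 1) = 2 * 3 ^ k * 3 by ring, pow_mul, hu]
    ring

theorem pth_once (a b : ℤ) (k j : ℕ) (t : ℤ) (h : 2 ^ j * b = a + 3 ^ (k + 1) * t) :
    ∃ t' s : ℤ, 2 ^ (j + 2 * 3 ^ k) * b = a + 3 ^ (k + 1) * t' ∧ t' = t + a + 3 * s := by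
  obtain ⟨u, hu⟩ := pth_pow k
  refine ⟨_, a * u + 3 ^ k * t * (3 * u + 1), ?_, rfl⟩
  rw [pow_add, hu, mul_right_comm, h]
  ring

/-- Every class prime to three is reached by doubling. -/
theorem prim {a b : ℤ} (ha : ¬ 3 ∣ a) (hb : ¬ 3 ∣ b) (K J : ℕ) :
    ∃ j, J ≤ j ∧ (3 : ℤ) ^ K ∣ 2 ^ j * b - a := by
  rcases K with _ | K
  · exact ⟨J, le_rfl, by simp⟩
  induction K with
  | zero =>
    have h2 : ¬ (3 : ℤ) ∣ 2 ^ J * b := fun h => by
      rcases (Int.prime_three.dvd_or_dvd h) with h | h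
      · have := Int.prime_three.dvd_of_dvd_pow h
        omega
      · exact hb h
    by_cases h : (3 : ℤ) ∣ 2 ^ J * b - a
    · exact ⟨J, le_rfl, by simpa using h⟩
    · refine ⟨J + 1, by omega, ?_⟩
      rw [show (2 : ℤ) ^ (J + 1) * b = 2 * (2 ^ J * b) by ring]
      generalize (2 : ℤ) ^ J * b = c at h h2
      norm_num
      have a3 : a % 3 = 1 ∨ a % 3 = 2 := by omega
      have c3 : c % 3 = 1 ∨ c % 3 = 2 := by omega
      rcases a3 with a3 | a3 <;> rcases c3 with c3 | c3 <;> omega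
  | succ K ih =>
    obtain ⟨j, hj, t, ht⟩ := ih
    obtain ⟨t1, s1, h1, e1⟩ := pth_once a b K j t (by linarith only [ht])
    obtain ⟨t2, s2, h2, e2⟩ := pth_once a b K _ t1 h1
    have fin : ∀ (i : ℕ) (x : ℤ), 2 ^ i * b = a + 3 ^ (K + 1) * x → 3 ∣ x →
        (3 : ℤ) ^ (K + 1 + 1) ∣ 2 ^ i * b - a := by
      rintro i x hx ⟨y, rfl⟩
      exact ⟨y, by rw [hx]; ring⟩
    have h3 : (3 : ℤ) ∣ t ∨ (3 : ℤ) ∣ t1 ∨ (3 : ℤ) ∣ t2 := by
      clear fin h1 h2 ht
      have a3 : a % 3 = 1 ∨ a % 3 = 2 := by omega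
      have c3 : t % 3 = 0 ∨ t % 3 = 1 ∨ t % 3 = 2 := by omega
      rcases a3 with a3 | a3 <;> rcases c3 with c3 | c3 | c3 <;> omega
    rcases h3 with h | h | h
    · exact ⟨j, hj, fin j t (by linarith only [ht]) h⟩
    · exact ⟨_, hj.trans (Nat.le_add_right _ _), fin _ t1 h1 h⟩
    · exact ⟨_, hj.trans ((Nat.le_add_right _ _).trans (Nat.le_add_right _ _)), fin _ t2 h2 h⟩

end CzD
end
end

-- merged part: Pool.Agent.Work.MP_2efb47_nt.D.Bin
section
/-! Binomial estimates. `Ex_tail`: exponential moment `Ex L (fun k => l ^ k) = ((1 + l) / 2) ^ L`. -/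

open Finset Filter Topology
open scoped Classical

noncomputable section
namespace CzD

variable {φ ψ : ℕ → ℝ}

theorem Ex_zero (φ : ℕ → ℝ) : Ex 0 φ = φ 0 := by
  simp [Ex, allB]

theorem Ex_succ (L : ℕ) (φ : ℕ → ℝ) :
    Ex (L + 1) φ = 1 / 2 * Ex L φ + 1 / 2 * Ex L (fun k => φ (k + 1)) := by
  simp only [Ex, sum_allB_succ, cn_false, cn_true, sum_add_distrib, pow_succ]
  ring

theorem Ex_two (L : ℕ) (φ : ℕ → ℝ) : Ex (L + 2) φ =
    1 / 4 * Ex L φ + 1 / 2 * Ex L (fun k => φ (k + 1)) + 1 / 4 * Ex L (fun k => φ (k + 2)) := by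
  rw [Ex_succ (L + 1), Ex_succ L φ, Ex_succ L fun k => φ (k + 1)]
  simp only [add_assoc]
  ring

theorem Ex_mono {L : ℕ} (h : ∀ k ≤ L, φ k ≤ ψ k) : Ex L φ ≤ Ex L ψ := by
  unfold Ex
  gcongr with β hβ
  exact h _ (mem_allB.1 hβ ▸ cn_le β)

theorem Ex_const (L : ℕ) (c : ℝ) : Ex L (fun _ => c) = c := by
  simp only [Ex, sum_const, card_allB, nsmul_eq_mul]
  push_cast
  field_simp

theorem Ex_add (L : ℕ) (φ ψ : ℕ → ℝ) : Ex L (fun k => φ k + ψ k) = Ex L φ + Ex L ψ := by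
  simp only [Ex, sum_add_distrib, add_div]

theorem Ex_mul (L : ℕ) (c : ℝ) (φ : ℕ → ℝ) : Ex L (fun k => c * φ k) = c * Ex L φ := by
  simp only [Ex, ← mul_sum, mul_div_assoc]

theorem Ex_sum {ι : Type} (s : Finset ι) (L : ℕ) (φ : ι → ℕ → ℝ) :
    Ex L (fun k => ∑ i ∈ s, φ i k) = ∑ i ∈ s, Ex L (φ i) := by
  simp only [Ex, ← sum_div]
  rw [sum_comm]

theorem Ex_comp (L L' : ℕ) (φ : ℕ → ℝ) :
    Ex (L + L') φ = Ex L fun a => Ex L' fun b => φ (a + b) := by
  simp only [Ex, sum_allB_add, cn_append, ← sum_div, pow_add]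
  rw [div_div, mul_comm]

theorem Ex_ind (L : ℕ) (p : ℕ → Prop) :
    Ex L (fun k => ind (p k)) = ((allB L).filter fun β => p (cn β)).card / 2 ^ L := by
  simp only [Ex, ind, sum_boole]

theorem bin_pow (l : ℝ) (L : ℕ) : Ex L (fun k => l ^ k) = ((1 + l) / 2) ^ L := by
  induction L with
  | zero => simp [Ex_zero]
  | succ L ih =>
    rw [Ex_succ]
    simp only [pow_succ' l]
    rw [Ex_mul, ih]
    ring

theorem bin_tail (s δ : ℝ) (hs : s ^ 2 = 16 * δ ^ 2) (L : ℕ) (p : ℕ → Prop)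
    (hp : ∀ k, p k → 4 * δ ^ 2 * L ≤ s * (k - L / 2)) :
    Ex L (fun k => ind (p k)) ≤ Real.exp (-2 * δ ^ 2) ^ L := by
  have h1 : Ex L (fun k => ind (p k)) ≤
      Ex L fun k => Real.exp (-4 * δ ^ 2 - s / 2) ^ L * Real.exp s ^ k := by
    refine Ex_mono fun k _ => ?_
    unfold ind
    split_ifs with h
    · rw [← Real.exp_nat_mul, ← Real.exp_nat_mul, ← Real.exp_add]
      refine Real.one_le_exp ?_
      have := hp k h
      linarith only [this]
    · positivity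
  rw [Ex_mul, bin_pow, ← mul_pow] at h1
  refine h1.trans (pow_le_pow_left₀ (by positivity) ?_ L)
  have h2 := Real.cosh_le_exp_half_sq (s / 2)
  have h3 : Real.exp (-4 * δ ^ 2 - s / 2) * ((1 + Real.exp s) / 2) =
      Real.exp (-4 * δ ^ 2) * Real.cosh (s / 2) := by
    have a1 : Real.exp (-4 * δ ^ 2 - s / 2) = Real.exp (-4 * δ ^ 2) * Real.exp (-(s / 2)) := by
      rw [← Real.exp_add, sub_eq_add_neg]
    have a2 : Real.exp (-(s / 2)) * Real.exp s = Real.exp (s / 2) := by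
      rw [← Real.exp_add]
      exact congrArg _ (by ring)
    rw [a1, Real.cosh_eq, ← a2]
    ring
  rw [h3]
  refine (mul_le_mul_of_nonneg_left h2 (Real.exp_pos _).le).trans_eq ?_
  rw [← Real.exp_add]
  exact congrArg _ (by linarith only [hs])

theorem Ex_tail {δ : ℝ} (hδ : 0 < δ) : ∃ ρ : ℝ, 0 < ρ ∧ ρ < 1 ∧ ∀ L : ℕ,
    Ex L (fun k => ind ((1 / 2 + δ) * L ≤ k)) ≤ ρ ^ L ∧
      Ex L (fun k => ind ((k : ℝ) ≤ (1 / 2 - δ) * L)) ≤ ρ ^ L := by
  refine ⟨Real.exp (-2 * δ ^ 2), Real.exp_pos _, Real.exp_lt_one_iff.2 (by linarith only [hδ, mul_pos_of_neg_of_neg (Mathlib.Tactic.Linarith.sub_neg_of_lt hδ) (Mathlib.Tactic.Linarith.sub_neg_of_lt hδ)]), fun L =>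
    ⟨bin_tail (4 * δ) δ (by ring) L _ fun k h => ?_,
      bin_tail (-(4 * δ)) δ (by ring) L _ fun k h => ?_⟩⟩ <;> linarith only [hδ, h, mul_nonneg_of_nonpos_of_nonpos (le_of_lt (Mathlib.Tactic.Linarith.sub_neg_of_lt hδ)) (Mathlib.Tactic.Linarith.sub_nonpos_of_le h)]

end CzD
end
end

-- merged part: Pool.Agent.Work.MP_2efb47_nt.D.Tm
section
/-! The path operators and means over periods. `Per.av_tm`: by induction on `β` (`tm_append`), or directly: `z ↦ (rr β + 3 ^ k z) / 2 ^ L` is a bijection from the residues `z` mod `3 ^ n` onto the valid residues `w` mod `3 ^ (n + k)`. -/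

open Finset Filter Topology
open scoped Classical

noncomputable section
namespace CzD

variable {n : ℕ} {φ ψ : ℤ → ℝ} {β : List Bool}

theorem tm_append (β β' : List Bool) (φ : ℤ → ℝ) (w : ℤ) :
    tm (β ++ β') φ w = tm β (tm β' φ) w := by
  have e : (2 : ℤ) ^ (β ++ β').length * w - rr (β ++ β') =
      2 ^ β'.length * (2 ^ β.length * w - rr β) - 3 ^ cn β * rr β' := by
    rw [rr_append, List.length_append]
    push_cast
    ring
  have p3 : (0 : ℤ) < 3 ^ cn β := by positivity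
  rw [tm, e, cn_append, pow_add, tm]
  by_cases h : (3 : ℤ) ^ cn β ∣ 2 ^ β.length * w - rr β
  · obtain ⟨z, hz⟩ := h
    have e2 : (2 : ℤ) ^ β'.length * (3 ^ cn β * z) - 3 ^ cn β * rr β' =
        3 ^ cn β * (2 ^ β'.length * z - rr β') := by ring
    rw [hz, e2, if_pos (dvd_mul_right _ z), Int.mul_ediv_cancel_left _ p3.ne', tm,
      Int.mul_ediv_mul_of_pos _ _ p3, List.length_append]
    simp only [mul_dvd_mul_iff_left p3.ne']
    split_ifs
    · rw [pow_add, pow_add]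
      field_simp
    · simp
  · rw [if_neg h, if_neg fun h' => h ?_]
    have h2 := (dvd_sub_left (dvd_mul_right _ (rr β' : ℤ))).1 ((dvd_mul_right _ _).trans h')
    exact (IsCoprime.pow (by norm_num : IsCoprime (3 : ℤ) 2)).dvd_of_dvd_mul_left h2

theorem tm_add (β : List Bool) (φ ψ : ℤ → ℝ) (w : ℤ) :
    tm β (fun z => φ z + ψ z) w = tm β φ w + tm β ψ w := by
  unfold tm
  split_ifs <;> ring

theorem tm_sub (β : List Bool) (φ ψ : ℤ → ℝ) (w : ℤ) :
    tm β (fun z => φ z - ψ z) w = tm β φ w - tm β ψ w := by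
  unfold tm
  split_ifs <;> ring

theorem tm_mul (β : List Bool) (c : ℝ) (φ : ℤ → ℝ) (w : ℤ) :
    tm β (fun z => c * φ z) w = c * tm β φ w := by
  unfold tm
  split_ifs <;> ring

theorem tm_sum {ι : Type} (s : Finset ι) (β : List Bool) (φ : ι → ℤ → ℝ) (w : ℤ) :
    tm β (fun z => ∑ i ∈ s, φ i z) w = ∑ i ∈ s, tm β (φ i) w := by
  unfold tm
  split_ifs
  · rw [mul_sum]
  · simp

theorem tm_abs (β : List Bool) (φ : ℤ → ℝ) (w : ℤ) : |tm β φ w| = tm β (fun z => |φ z|) w := by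
  unfold tm
  split_ifs
  · rw [abs_mul, abs_of_nonneg (by positivity)]
  · simp

theorem tm_nonneg (h : ∀ z, 0 ≤ φ z) (β : List Bool) (w : ℤ) : 0 ≤ tm β φ w := by
  unfold tm
  split_ifs
  · exact mul_nonneg (by positivity) (h _)
  · exact le_rfl

theorem Per.mul (h : Per n φ) (w k : ℤ) : φ (w + k * 3 ^ n) = φ w := by
  exact Function.Periodic.int_mul (f := φ) (c := 3 ^ n) h k w

theorem Per.mono {n' : ℕ} (h : Per n φ) (hn : n ≤ n') : Per n' φ := by
  intro w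
  obtain ⟨d, rfl⟩ := Nat.exists_eq_add_of_le hn
  rw [pow_add, mul_comm, h.mul]

theorem Per.tm (h : Per n φ) (β : List Bool) : Per (n + cn β) (tm β φ) := by
  intro w
  have p3 : (3 : ℤ) ^ cn β ≠ 0 := by positivity
  have e : (2 : ℤ) ^ β.length * (w + 3 ^ (n + cn β)) - rr β =
      2 ^ β.length * w - rr β + 3 ^ cn β * (2 ^ β.length * 3 ^ n) := by ring
  simp only [CzD.tm, e, dvd_add_left (dvd_mul_right _ _), Int.add_mul_ediv_left _ _ p3, h.mul]

theorem tm1_mul (h : Per n φ) (m : ℕ) :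
    ∑ w ∈ range (m * 3 ^ n), φ w = m * ∑ w ∈ range (3 ^ n), φ w := by
  induction m with
  | zero => simp
  | succ m ih =>
    rw [Nat.succ_mul, sum_range_add, ih]
    push_cast
    simp only [add_comm ((m : ℤ) * 3 ^ n), h.mul]
    ring

theorem tm1_aff (h : Per n φ) {c : ℤ} (hc : IsCoprime c 3) (b : ℤ) :
    ∑ w ∈ range (3 ^ n), φ (c * w + b) = ∑ w ∈ range (3 ^ n), φ w := by
  have k1 : ∀ w : ℤ, φ w = φ ((w : ZMod (3 ^ n)).val : ℕ) := fun w => by
    rw [ZMod.val_intCast, ← h.mul (w % _) (w / (3 ^ n : ℕ))]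
    congr 1
    push_cast
    exact (Int.emod_add_ediv_mul _ _).symm
  have k2 : ∀ f : ZMod (3 ^ n) → ℝ, ∑ w ∈ range (3 ^ n), f w = ∑ x, f x := fun f =>
    sum_nbij' (fun w => (w : ZMod (3 ^ n))) ZMod.val (fun _ _ => mem_univ _)
      (fun x _ => mem_range.2 x.val_lt) (fun _ hw => ZMod.val_cast_of_lt (mem_range.1 hw))
      (fun x _ => ZMod.natCast_zmod_val x) fun _ _ => rfl
  have u : IsUnit (c : ZMod (3 ^ n)) := by
    rw [ZMod.coe_int_isUnit_iff_isCoprime]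
    push_cast
    exact hc.symm.pow_left
  have k3 := k2 fun x => φ ((c * x + b : ZMod (3 ^ n)).val : ℕ)
  have k4 := k2 fun x => φ (x.val : ℕ)
  rw [sum_congr rfl fun w _ => k1 _, sum_congr rfl fun (w : ℕ) _ => k1 w]
  push_cast
  rw [k3, k4]
  exact ((u.unit.mulLeft).trans (Equiv.addRight (b : ZMod (3 ^ n)))).sum_comp
    fun x => φ (x.val : ℕ)

theorem Per.av_eq {n' : ℕ} (h : Per n φ) (hn : n ≤ n') : av n' φ = av n φ := by
  obtain ⟨d, rfl⟩ := Nat.exists_eq_add_of_le hn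
  rw [av, av, pow_add, mul_comm, tm1_mul h, pow_add]
  push_cast
  field_simp

theorem Per.av_tm (h : Per n φ) (β : List Bool) :
    av (n + cn β) (CzD.tm β φ) = av n φ / 2 ^ β.length := by
  have p3 : (3 : ℤ) ^ cn β ≠ 0 := by positivity
  have hp : Per (n + cn β) fun y => if (3 : ℤ) ^ cn β ∣ y then φ (y / 3 ^ cn β) else 0 := fun y => by
    have := h (y / 3 ^ cn β)
    simp only [pow_add, mul_comm ((3 : ℤ) ^ n), dvd_add_left (dvd_mul_right _ _),
      Int.add_mul_ediv_left _ _ p3, this]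
  have k1 := tm1_aff hp (c := 2 ^ β.length) (IsCoprime.pow_left (by norm_num)) (-rr β)
  have k2 : ∑ y ∈ range (3 ^ (n + cn β)),
      (if (3 : ℤ) ^ cn β ∣ (y : ℕ) then φ ((y : ℕ) / 3 ^ cn β) else 0) =
      ∑ z ∈ range (3 ^ n), φ z := by
    rw [← sum_filter]
    refine (sum_nbij' (fun z => 3 ^ cn β * z) (fun y => y / 3 ^ cn β) ?_ ?_ ?_ ?_ ?_).symm
    · intro z hz
      refine mem_filter.2 ⟨mem_range.2 ?_, by push_cast; exact dvd_mul_right _ _⟩
      rw [pow_add, mul_comm (3 ^ n)]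
      exact Nat.mul_lt_mul_of_pos_left (mem_range.1 hz) (by positivity)
    · intro y hy
      refine mem_range.2 (Nat.div_lt_of_lt_mul ?_)
      rw [← pow_add, add_comm]
      exact mem_range.1 (mem_filter.1 hy).1
    · exact fun z _ => Nat.mul_div_cancel_left _ (by positivity)
    · exact fun y hy => Nat.mul_div_cancel' (by exact_mod_cast (mem_filter.1 hy).2)
    · intro z _
      push_cast
      rw [Int.mul_ediv_cancel_left _ p3]
  have k3 : ∀ w : ℤ, CzD.tm β φ w = 3 ^ cn β / 2 ^ β.length *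
      if (3 : ℤ) ^ cn β ∣ 2 ^ β.length * w + -rr β then
        φ ((2 ^ β.length * w + -rr β) / 3 ^ cn β) else 0 := fun w => by
    rw [CzD.tm, ← sub_eq_add_neg, mul_ite, mul_zero]
  simp only [av, k3]
  rw [← mul_sum, k1, k2, pow_add]
  field_simp

theorem av_mono (h : ∀ w, φ w ≤ ψ w) (n : ℕ) : av n φ ≤ av n ψ := by
  exact div_le_div_of_nonneg_right (sum_le_sum fun _ _ => h _) (by positivity)

theorem av_sum {ι : Type} (s : Finset ι) (φ : ι → ℤ → ℝ) (n : ℕ) :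
    av n (fun w => ∑ i ∈ s, φ i w) = ∑ i ∈ s, av n (φ i) := by
  simp only [av]
  rw [sum_comm, sum_div]

theorem av_mul (c : ℝ) (φ : ℤ → ℝ) (n : ℕ) : av n (fun w => c * φ w) = c * av n φ := by
  simp only [av]
  rw [← mul_sum, mul_div_assoc]

theorem Per.sum_Ico (h : Per n φ) (h0 : ∀ w, 0 ≤ φ w) (a : ℤ) (l : ℕ) :
    ∑ w ∈ Ico a (a + l), φ w ≤ (l + 3 ^ n) * av n φ := by
  have hp : Per n fun w => φ (1 * w + a) := fun w => by
    simp only [one_mul]
    rw [add_right_comm, h]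
  have k1 : ∑ w ∈ Ico a (a + l), φ w = ∑ i ∈ range l, φ (1 * i + a) := by
    refine (sum_nbij' (fun i : ℕ => 1 * i + a) (fun w => (w - a).toNat) ?_ ?_ ?_ ?_ ?_).symm
    all_goals simp only [mem_range, mem_Ico, implies_true]
    all_goals omega
  have p3 : 0 < 3 ^ n := by positivity
  have k2 : l ≤ (l / 3 ^ n + 1) * 3 ^ n := by
    rw [mul_comm]
    exact (Nat.lt_mul_div_succ l p3).le
  have k3 : (l / 3 ^ n + 1) * 3 ^ n ≤ l + 3 ^ n := by
    rw [add_one_mul]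
    exact Nat.add_le_add_right (Nat.div_mul_le_self _ _) _
  rw [k1]
  refine (sum_le_sum_of_subset_of_nonneg (range_mono k2) fun _ _ _ => h0 _).trans ?_
  rw [tm1_mul hp, tm1_aff h isCoprime_one_left, av, mul_div_assoc', le_div_iff₀ (by positivity),
    mul_right_comm]
  exact mul_le_mul_of_nonneg_right (by exact_mod_cast k3) (sum_nonneg fun _ _ => h0 _)

end CzD
end
end

-- merged part: Pool.Agent.Work.MP_2efb47_nt.D.Tm2
section
/-! The functions `FF`, `HH`. `FF 1 z - 1 = h0 z / 2`. -/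

open Finset Filter Topology
open scoped Classical

noncomputable section
namespace CzD

variable {n : ℕ} {φ ψ : ℤ → ℝ} {β : List Bool}

theorem per_h0 : Per 1 h0 := by
  intro w
  unfold h0
  have : (w + 3 ^ 1) % 3 = w % 3 := by omega
  rw [this]

theorem av_h0 : av 1 (fun w => |h0 w|) ≤ 2 := by
  simp [av, h0, Finset.sum_range_succ]
  norm_num

theorem FF_nonneg (L : ℕ) (w : ℤ) : 0 ≤ FF L w := by
  exact Finset.sum_nonneg fun β _ => tm_nonneg (fun _ => zero_le_one) β w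

theorem FF_add (L L' : ℕ) (w : ℤ) : FF (L + L') w = ∑ β ∈ allB L, tm β (FF L') w := by
  unfold FF
  rw [sum_allB_add]
  refine Finset.sum_congr rfl fun β _ => ?_
  rw [tm_sum]
  exact Finset.sum_congr rfl fun β' _ => tm_append β β' _ w

theorem tm2_one (z : ℤ) : FF 1 z = 1 + 1 / 2 * h0 z := by
  have e1 : tm [false] (fun _ => 1) z = 1 / 2 := by
    unfold tm
    rw [if_pos (by simp)]
    simp
  have e2 : tm [true] (fun _ => 1) z = if z % 3 = 2 then 3 / 2 else 0 := by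
    unfold tm
    refine if_congr ?_ (by simp) rfl
    simp only [cn_true, cn_nil, rr, List.length_cons, List.length_nil]
    norm_num
    omega
  unfold FF
  rw [sum_allB_succ]
  simp only [allB, Finset.sum_singleton, e1, e2, h0]
  split_ifs <;> norm_num

theorem tm2_le {L : ℕ} {β : List Bool} (h : β ∈ allB L) : cn β ≤ L :=
  mem_allB.1 h ▸ cn_le β

theorem FF_succ (L : ℕ) (w : ℤ) :
    FF (L + 1) w - FF L w = 1 / 2 * ∑ k ∈ range (L + 1), HH L k w := by
  have e : FF 1 = fun z => 1 + 1 / 2 * h0 z := funext tm2_one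
  rw [FF_add, e]
  simp only [tm_add, tm_mul]
  rw [Finset.sum_add_distrib, ← Finset.mul_sum]
  unfold HH
  rw [Finset.sum_fiberwise_of_maps_to fun β hβ => Finset.mem_range.2 (Nat.lt_succ_of_le (tm2_le hβ))]
  unfold FF
  ring

theorem tm2_sum {ι : Type} {s : Finset ι} {f : ι → ℤ → ℝ} (h : ∀ i ∈ s, Per n (f i)) :
    Per n fun w => ∑ i ∈ s, f i w := fun w => Finset.sum_congr rfl fun i hi => h i hi w

theorem tm2_const : Per 0 fun _ => (1 : ℝ) := fun _ => rfl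

theorem tm2_av (h : Per n φ) {n' : ℕ} (hn : n + cn β ≤ n') :
    av n' (tm β φ) = av n φ / 2 ^ β.length := by
  rw [(h.tm β).av_eq hn, h.av_tm]

theorem per_FF (L : ℕ) : Per L (FF L) := by
  exact tm2_sum fun β hβ => (tm2_const.tm β).mono (by simpa using tm2_le hβ)

theorem av_FF (L : ℕ) : av L (FF L) = 1 := by
  have e : av L (FF L) = ∑ β ∈ allB L, av L (tm β fun _ => 1) := av_sum _ _ _
  rw [e, Finset.sum_congr rfl fun β hβ => tm2_av tm2_const (by simpa using tm2_le hβ),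
    Finset.sum_congr rfl fun β hβ => by rw [mem_allB.1 hβ], Finset.sum_const, card_allB]
  simp [av]

theorem per_HH (L k : ℕ) : Per (k + 1) (HH L k) := by
  exact tm2_sum fun β hβ => (per_h0.tm β).mono (by rw [(Finset.mem_filter.1 hβ).2]; omega)

/-- Mean of a sum over a set of paths of length `L`. -/
theorem av_paths (h : Per n φ) {L n' : ℕ} {G : Finset (List Bool)} (hG : ∀ β ∈ G, β.length = L)
    (hn : ∀ β ∈ G, n + cn β ≤ n') :
    Per n' (fun w => ∑ β ∈ G, tm β φ w) ∧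
      av n' (fun w => ∑ β ∈ G, tm β φ w) = G.card / 2 ^ L * av n φ ∧
      av n' (fun w => |∑ β ∈ G, tm β φ w|) ≤ G.card / 2 ^ L * av n (fun w => |φ w|) := by
  have key : ∀ {φ : ℤ → ℝ}, Per n φ →
      av n' (fun w => ∑ β ∈ G, tm β φ w) = G.card / 2 ^ L * av n φ := by
    intro φ h
    rw [av_sum, Finset.sum_congr rfl fun β hβ => tm2_av h (hn β hβ),
      Finset.sum_congr rfl fun β hβ => by rw [hG β hβ], Finset.sum_const, nsmul_eq_mul]
    ring
  refine ⟨tm2_sum fun β hβ => (h.tm β).mono (hn β hβ), key h, ?_⟩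
  rw [← key (φ := fun w => |φ w|) fun w => congrArg _ (h w)]
  refine av_mono (fun w => (Finset.abs_sum_le_sum_abs _ _).trans (le_of_eq ?_)) _
  exact Finset.sum_congr rfl fun β _ => tm_abs β φ w

end CzD
end
end

-- merged part: Pool.Agent.Work.MP_2efb47_nt.D.Wk1
section
/-! The weighted kernel. -/

open Finset Filter Topology
open scoped Classical

noncomputable section
namespace CzD

variable {κ : ℝ} {n0 : ℕ} {B : ℕ → ℕ → ℕ → Prop} {c Q : ℕ → ℕ → ℝ} {φ ψ : ℕ → ℝ}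

theorem Kop_add (c : ℕ → ℕ → ℝ) (a b : ℕ) (φ : ℕ → ℝ) (t N : ℕ) :
    Kop c (a + b) φ t N = Kop c a (fun N' => Kop c b φ (t + a) N') t N := by
  induction a generalizing t N with
  | zero => simp [Kop]
  | succ a ih =>
    have e1 : a + 1 + b = (a + b) + 1 := by omega
    have e2 : t + (a + 1) = t + 1 + a := by omega
    rw [e1, e2]
    simp only [Kop]
    rw [ih, ih, ih]

theorem WK.mono (h : WK κ n0 B c Q) (j t N : ℕ) (e : ∀ N', N ≤ N' → N' ≤ N + 2 * j → φ N' ≤ ψ N') :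
    Kop c j φ t N ≤ Kop c j ψ t N := by
  induction j generalizing t N with
  | zero => exact e N le_rfl (by omega)
  | succ j ih =>
    have h0 := ih (t + 1) N fun N' a b => e N' a (by omega)
    have h1 := ih (t + 1) (N + 1) fun N' a b => e N' (by omega) (by omega)
    have h2 := ih (t + 1) (N + 2) fun N' a b => e N' (by omega) (by omega)
    have h3 := mul_le_mul_of_nonneg_left h1 (h.c01 t N).1
    simp only [Kop]
    linarith only [h0, h2, h3]

theorem Kop_lin (c : ℕ → ℕ → ℝ) (j : ℕ) (x : ℝ) (φ ψ : ℕ → ℝ) (t N : ℕ) :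
    Kop c j (fun N' => x * φ N' + ψ N') t N = x * Kop c j φ t N + Kop c j ψ t N := by
  induction j generalizing t N with
  | zero => simp [Kop]
  | succ j ih =>
    simp only [Kop]
    rw [ih, ih, ih]
    ring

theorem wk1_two (j N : ℕ) (φ : ℕ → ℝ) : (Ex (2 * (j + 1)) fun a => φ (N + a)) =
    1 / 4 * (Ex (2 * j) fun a => φ (N + a)) + 1 / 2 * (Ex (2 * j) fun a => φ (N + 1 + a)) +
      1 / 4 * (Ex (2 * j) fun a => φ (N + 2 + a)) := by
  have e1 : 2 * (j + 1) = 2 * j + 2 := by omega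
  have e2 : (fun k => φ (N + (k + 1))) = fun a => φ (N + 1 + a) := by
    funext k
    have : N + (k + 1) = N + 1 + k := by omega
    rw [this]
  have e3 : (fun k => φ (N + (k + 2))) = fun a => φ (N + 2 + a) := by
    funext k
    have : N + (k + 2) = N + 2 + k := by omega
    rw [this]
  rw [e1, Ex_two, e2, e3]

theorem WK.le_Ex (h : WK κ n0 B c Q) (j t N : ℕ) (e : ∀ N', 0 ≤ φ N') :
    0 ≤ Kop c j φ t N ∧ Kop c j φ t N ≤ Ex (2 * j) fun a => φ (N + a) := by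
  induction j generalizing t N with
  | zero =>
    refine ⟨e N, ?_⟩
    rw [Nat.mul_zero, Ex_zero]
    exact le_rfl
  | succ j ih =>
    obtain ⟨a0, b0⟩ := ih (t + 1) N
    obtain ⟨a1, b1⟩ := ih (t + 1) (N + 1)
    obtain ⟨a2, b2⟩ := ih (t + 1) (N + 2)
    obtain ⟨c0, c1⟩ := h.c01 t N
    have h3 := mul_nonneg c0 a1
    have h4 := mul_le_mul_of_nonneg_right c1 a1
    rw [wk1_two]
    simp only [Kop]
    constructor <;> linarith only [a0, a2, h3, b0, b1, b2, h4]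

theorem wk1_one (h : WK κ n0 B c Q) (j t N : ℕ) :
    0 ≤ Kop c j (fun _ => 1) t N ∧ Kop c j (fun _ => 1) t N ≤ 1 := by
  have := h.le_Ex (φ := fun _ => 1) j t N fun _ => zero_le_one
  rw [Ex_const] at this
  exact this

/-- Iteration of the recurrence inside the region. -/
theorem WK.iter (h : WK κ n0 B c Q) (j t N : ℕ) (hN : N + 2 * j + 1 ≤ n0) {D : ℝ}
    (e : ∀ N', N ≤ N' → N' ≤ N + 2 * j → Q (t + j) N' ≤ D) :
    Q t N ≤ D * Kop c j (fun _ => 1) t N := by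
  induction j generalizing t N with
  | zero =>
    have := e N le_rfl (by omega)
    simpa [Kop] using this
  | succ j ih =>
    have e2 : t + (j + 1) = t + 1 + j := by omega
    rw [e2] at e
    have h0 := ih (t + 1) N (by omega) fun N' a b => e N' a (by omega)
    have h1 := ih (t + 1) (N + 1) (by omega) fun N' a b => e N' (by omega) (by omega)
    have h2 := ih (t + 1) (N + 2) (by omega) fun N' a b => e N' (by omega) (by omega)
    have h3 := mul_le_mul_of_nonneg_left h1 (h.c01 t N).1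
    have h4 := h.rec' t N (by omega)
    simp only [Kop]
    linarith only [h0, h2, h3, h4]

theorem wk1_white (hW : WK κ n0 B c Q) (h t N : ℕ) (e : ¬ B t N 0) :
    Kop c (h + 1) (fun _ => 1) t N ≤ 1 - κ / 2 := by
  obtain ⟨-, b0⟩ := wk1_one hW h (t + 1) N
  obtain ⟨-, b1⟩ := wk1_one hW h (t + 1) (N + 1)
  obtain ⟨-, b2⟩ := wk1_one hW h (t + 1) (N + 2)
  have h3 := mul_le_mul_of_nonneg_left b1 (hW.c01 t N).1
  have h4 := hW.wh t N e
  simp only [Kop]
  linarith only [b0, b2, h3, h4]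

/-- A white point is met within `h + 1` steps. -/
theorem WK.gain (hW : WK κ n0 B c Q) (hκ : 0 < κ) (h t N : ℕ) (e : ¬ B t N h) :
    Kop c (h + 1) (fun _ => 1) t N ≤ 1 - κ / 2 := by
  induction h generalizing t N with
  | zero => exact wk1_white hW 0 t N e
  | succ h ih =>
    by_cases hb : B t N 0
    · have h0 := ih (t + 1) N (hW.nxt t N h 0 hb e (by omega))
      have h1 := ih (t + 1) (N + 1) (hW.nxt t N h 1 hb e (by omega))
      have h2 := ih (t + 1) (N + 2) (hW.nxt t N h 2 hb e (by omega))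
      obtain ⟨a1, -⟩ := wk1_one hW (h + 1) (t + 1) (N + 1)
      have h4 := mul_le_mul_of_nonneg_right (hW.c01 t N).2 a1
      rw [Kop]
      linarith only [h0, h1, h2, h4]
    · exact wk1_white hW (h + 1) t N hb

theorem wk1_ind (p : Prop) : 0 ≤ ind p := by
  unfold ind
  split_ifs <;> norm_num

/-- Checkpoints. -/
theorem WK.check (hW : WK κ n0 B c Q) (hκ : 0 < κ) (hκ1 : κ ≤ 1) {p H : ℕ → ℕ} (h0 : p 0 = 0)
    (hp : ∀ r, p (r + 1) = p r + (H r + 1)) (R t N : ℕ) :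
    Kop c (p R) (fun _ => 1) t N ≤ (1 - κ / 2) ^ R +
      ∑ r ∈ range R, Ex (2 * p r) fun a => ind (B (t + p r) (N + a) (H r)) := by
  induction R with
  | zero => simp [h0, Kop]
  | succ R ih =>
    have hS : 0 ≤ ∑ r ∈ range R, Ex (2 * p r) fun a => ind (B (t + p r) (N + a) (H r)) := by
      refine sum_nonneg fun r _ => ?_
      have := Ex_mono (L := 2 * p r) (φ := fun _ => 0)
        (ψ := fun a => ind (B (t + p r) (N + a) (H r))) fun k _ => wk1_ind _
      rwa [Ex_const] at this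
    have h1 : Kop c (p R) (fun N' => Kop c (H R + 1) (fun _ => 1) (t + p R) N') t N ≤
        Kop c (p R) (fun N' => (1 - κ / 2) * (fun _ => (1 : ℝ)) N' +
          (fun N' => ind (B (t + p R) N' (H R))) N') t N := by
      refine hW.mono _ _ _ fun N' _ _ => ?_
      by_cases hb : B (t + p R) N' (H R)
      · have := (wk1_one hW (H R + 1) (t + p R) N').2
        simp only [ind, if_pos hb]
        linarith only [hκ1, this]
      · have := hW.gain hκ (H R) (t + p R) N' hb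
        simp only [ind, if_neg hb]
        linarith only [this]
    rw [Kop_lin] at h1
    have h2 := (hW.le_Ex (φ := fun N' => ind (B (t + p R) N' (H R))) (p R) t N
      fun _ => wk1_ind _).2
    have h3 : 0 ≤ 1 - κ / 2 := by linarith only [hκ1]
    have h4 := mul_le_mul_of_nonneg_left ih h3
    have h5 := mul_nonneg hκ.le hS
    rw [hp, Kop_add, sum_range_succ, pow_succ]
    linarith only [h1, h2, h4, h5]

/-- Free steps. -/
theorem WK.free (h : WK κ n0 B c Q) (j t N : ℕ) :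
    Q t N ≤ Ex (2 * j) fun a => if N + a + 3 ≤ n0 then Q (t + j) (N + a) else 1 := by
  induction j generalizing t N with
  | zero =>
    rw [Nat.mul_zero, Ex_zero]
    split_ifs
    · exact le_rfl
    · exact (h.q01 t N).2
  | succ j ih =>
    by_cases hN : N + 3 ≤ n0
    · have e2 : t + (j + 1) = t + 1 + j := by omega
      have h0 := ih (t + 1) N
      have h1 := ih (t + 1) (N + 1)
      have h2 := ih (t + 1) (N + 2)
      have h3 := mul_le_mul_of_nonneg_right (h.c01 t N).2 (h.q01 (t + 1) (N + 1)).1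
      have h4 := h.rec' t N hN
      have h5 := wk1_two j N fun M => if M + 3 ≤ n0 then Q (t + 1 + j) M else 1
      rw [e2, h5]
      linarith only [h0, h1, h2, h3, h4]
    · have := Ex_mono (L := 2 * (j + 1)) (φ := fun _ => 1)
        (ψ := fun a => if N + a + 3 ≤ n0 then Q (t + (j + 1)) (N + a) else 1) fun k _ => by
          rw [if_neg (by omega)]
      rw [Ex_const] at this
      exact (h.q01 t N).2.trans this

end CzD
end
end

-- merged part: Pool.Agent.Work.MP_2efb47_nt.D.BinC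
section
/-! Clustered sets have small binomial weight. `Ex_cluster`: `Ex L φ = ∑ k, choose L k * φ k / 2 ^ L`; cut `ℕ` in windows of length `H + 1`, each holds at most `c + 1` bad points; the largest weight in a window is at most the mean weight plus the variation in the window; total variation is at most twice the central weight (unimodal), which is at most `1 / √L`. -/

open Finset Filter Topology
open scoped Classical

noncomputable section
namespace CzD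

theorem bc_ex (L : ℕ) : ∀ φ : ℕ → ℝ,
    Ex L φ = (∑ k ∈ range (L + 1), (L.choose k : ℝ) * φ k) / 2 ^ L := by
  induction L with
  | zero => intro φ; simp [Ex_zero]
  | succ L ih =>
    intro φ
    rw [Ex_succ, ih, ih, Finset.sum_choose_succ_mul (fun i _ => φ i) L]
    field_simp
    ring

theorem bc_cen (n : ℕ) : (2 * n + 1) * n.centralBinom ^ 2 ≤ 16 ^ n := by
  induction n with
  | zero => simp
  | succ n ih =>
    have e := Nat.succ_mul_centralBinom_succ n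
    refine Nat.le_of_mul_le_mul_left ?_ (show 0 < (n + 1) ^ 2 by positivity)
    calc (n + 1) ^ 2 * ((2 * (n + 1) + 1) * (n + 1).centralBinom ^ 2)
        = (2 * n + 3) * ((n + 1) * (n + 1).centralBinom) ^ 2 := by ring
      _ = (4 * (2 * n + 3) * (2 * n + 1)) * ((2 * n + 1) * n.centralBinom ^ 2) := by
          rw [e]; ring
      _ ≤ (16 * (n + 1) ^ 2) * 16 ^ n := Nat.mul_le_mul (by linarith only []) ih
      _ = (n + 1) ^ 2 * 16 ^ (n + 1) := by ring

theorem bc_max (L k : ℕ) : L * L.choose k ^ 2 ≤ 4 ^ L := by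
  obtain ⟨n, rfl | rfl⟩ := Nat.even_or_odd' L
  · calc 2 * n * (2 * n).choose k ^ 2 ≤ (2 * n + 1) * n.centralBinom ^ 2 :=
          Nat.mul_le_mul (by omega) (Nat.pow_le_pow_left (Nat.choose_le_centralBinom k n) 2)
      _ ≤ 16 ^ n := bc_cen n
      _ = 4 ^ (2 * n) := by rw [pow_mul]; norm_num
  · have h : (2 * n + 1).choose k ≤ 2 * n.centralBinom := by
      rcases k with _ | k
      · have := n.centralBinom_pos
        rw [Nat.choose_zero_right]
        omega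
      · have h1 := Nat.choose_le_centralBinom k n
        have h2 := Nat.choose_le_centralBinom (k + 1) n
        rw [Nat.choose_succ_succ']
        omega
    calc (2 * n + 1) * (2 * n + 1).choose k ^ 2 ≤ (2 * n + 1) * (2 * n.centralBinom) ^ 2 :=
          Nat.mul_le_mul_left _ (Nat.pow_le_pow_left h 2)
      _ = 4 * ((2 * n + 1) * n.centralBinom ^ 2) := by ring
      _ ≤ 4 * 16 ^ n := Nat.mul_le_mul_left _ (bc_cen n)
      _ = 4 ^ (2 * n + 1) := by rw [pow_succ, pow_mul]; norm_num [mul_comm]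

theorem bc_max' {L : ℕ} (hL : 1 ≤ L) (k : ℕ) : (L.choose k : ℝ) ≤ 2 ^ L / √L := by
  have h0 : (0 : ℝ) < √L := Real.sqrt_pos.2 (by exact_mod_cast hL)
  rw [le_div_iff₀ h0]
  refine (pow_le_pow_iff_left₀ (by positivity) (by positivity) two_ne_zero).1 ?_
  have h : (L : ℝ) * (L.choose k : ℝ) ^ 2 ≤ 4 ^ L := by exact_mod_cast bc_max L k
  rw [mul_pow, Real.sq_sqrt (Nat.cast_nonneg L), ← pow_mul, mul_comm L 2, pow_mul, mul_comm]
  norm_num
  exact h

theorem bc_up {L a b : ℕ} (h : a ≤ b) (hb : b ≤ L / 2) : L.choose a ≤ L.choose b := by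
  induction b, h using Nat.le_induction with
  | base => exact le_rfl
  | succ b _ ih => exact (ih (by omega)).trans (Nat.choose_le_succ_of_lt_half_left (by omega))

theorem bc_dn {L a b : ℕ} (h : a ≤ b) (ha : L / 2 < a) (hb : b ≤ L) :
    L.choose b ≤ L.choose a := by
  rw [← Nat.choose_symm hb, ← Nat.choose_symm (h.trans hb)]
  exact bc_up (by omega) (by omega)

theorem bc_card {p : ℕ → Prop} {c H : ℕ}
    (h : ∀ a b, p a → p b → a < b → b - a ≤ H → b - a ≤ c) {s : Finset ℕ} (hs : ∀ a ∈ s, p a)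
    (hH : ∀ a ∈ s, ∀ b ∈ s, b - a ≤ H) : (s.card : ℝ) ≤ c + 1 := by
  rcases s.eq_empty_or_nonempty with rfl | hne
  · simp only [card_empty, Nat.cast_zero]
    positivity
  have h1 : s ⊆ Icc (s.min' hne) (s.min' hne + c) := fun b hb => by
    have h2 := s.min'_le b hb
    have h3 := s.min'_mem hne
    rcases h2.eq_or_lt with e | e
    · rw [mem_Icc]; omega
    · have := h _ _ (hs _ h3) (hs _ hb) e (hH _ h3 _ hb)
      rw [mem_Icc]; omega
  have h2 := card_le_card h1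
  rw [Nat.card_Icc] at h2
  have h3 : s.card ≤ c + 1 := by omega
  exact_mod_cast h3

theorem Ex_cluster {p : ℕ → Prop} {c H L : ℕ} (hL : 1 ≤ L)
    (h : ∀ a b, p a → p b → a < b → b - a ≤ H → b - a ≤ c) :
    Ex L (fun k => ind (p k)) ≤ (c + 1) * (1 / (H + 1) + 4 / √L) := by
  have h0 : (0 : ℝ) < √L := Real.sqrt_pos.2 (by exact_mod_cast hL)
  have hH : (0 : ℝ) < H + 1 := by positivity
  obtain ⟨m, hm⟩ : ∃ m, m = L / 2 := ⟨_, rfl⟩
  obtain ⟨B, hB⟩ : ∃ B : Finset ℕ, B = (range (L + 1)).filter p := ⟨_, rfl⟩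
  have mB : ∀ k, k ∈ B ↔ k ≤ L ∧ p k := fun k => by
    rw [hB, mem_filter, mem_range, Nat.lt_succ_iff]
  have e1 : ∑ k ∈ range (L + 1), (L.choose k : ℝ) * ind (p k) = ∑ k ∈ B, (L.choose k : ℝ) := by
    rw [hB, sum_filter]
    refine sum_congr rfl fun k _ => ?_
    unfold ind
    split_ifs <;> simp
  have tot : ∑ j ∈ range (L + 1), (L.choose j : ℝ) = 2 ^ L := by
    exact_mod_cast Nat.sum_range_choose L
  obtain ⟨G, hG⟩ : ∃ G : Finset ℕ, G = B.filter fun k => m + H < k ∨ k + H ≤ m := ⟨_, rfl⟩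
  have mG : ∀ k, k ∈ G ↔ (k ≤ L ∧ p k) ∧ (m + H < k ∨ k + H ≤ m) := fun k => by
    rw [hG, mem_filter, mB]
  obtain ⟨J, hJ⟩ : ∃ J : ℕ → Finset ℕ, ∀ k, J k = if m < k then Icc (k - H) k else Icc k (k + H) :=
    ⟨_, fun _ => rfl⟩
  have mJ : ∀ k j, j ∈ J k ↔ (m < k ∧ k - H ≤ j ∧ j ≤ k) ∨ (k ≤ m ∧ k ≤ j ∧ j ≤ k + H) :=
    fun k j => by
      rw [hJ]
      split_ifs <;> rw [mem_Icc] <;> omega
  have a1 : ∀ k ∈ G, (H + 1 : ℝ) * L.choose k ≤
      ∑ j ∈ range (L + 1), if j ∈ J k then (L.choose j : ℝ) else 0 := fun k hk => by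
    obtain ⟨⟨k1, -⟩, k2⟩ := (mG k).1 hk
    have c1 : (J k).card = H + 1 := by
      rw [hJ]
      split_ifs <;> rw [Nat.card_Icc] <;> omega
    have c2 : (range (L + 1)).filter (fun j => j ∈ J k) = J k := by
      ext j
      rw [mem_filter, mem_range, mJ]
      omega
    rw [← sum_filter, c2]
    have c3 := card_nsmul_le_sum (J k) (fun j => (L.choose j : ℝ)) (L.choose k) fun j hj => by
      rcases (mJ k j).1 hj with e | e
      · exact_mod_cast bc_dn e.2.2 (by omega) k1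
      · exact_mod_cast bc_up e.2.1 (by omega)
    rw [c1, nsmul_eq_mul] at c3
    exact_mod_cast c3
  have a2 : (H + 1 : ℝ) * ∑ k ∈ G, (L.choose k : ℝ) ≤ (c + 1) * 2 ^ L := by
    rw [mul_sum, ← tot, mul_sum]
    refine (sum_le_sum a1).trans ?_
    rw [sum_comm]
    refine sum_le_sum fun j _ => ?_
    rw [← sum_filter, sum_const, nsmul_eq_mul]
    refine mul_le_mul_of_nonneg_right (bc_card h (fun a ha => ((mG a).1 (mem_filter.1 ha).1).1.2)
      fun a ha b hb => ?_) (Nat.cast_nonneg _)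
    have b1 := ((mG a).1 (mem_filter.1 ha).1).2
    have b2 := ((mG b).1 (mem_filter.1 hb).1).2
    have b3 := (mJ a j).1 (mem_filter.1 ha).2
    have b4 := (mJ b j).1 (mem_filter.1 hb).2
    omega
  have a3 : ∀ s : Finset ℕ, (∀ a ∈ s, p a) → (∀ a ∈ s, ∀ b ∈ s, b - a ≤ H) →
      ∑ k ∈ s, (L.choose k : ℝ) ≤ (c + 1) * (2 ^ L / √L) := fun s h1 h2 => by
    refine (sum_le_card_nsmul s _ _ fun k _ => bc_max' hL k).trans ?_
    rw [nsmul_eq_mul]
    exact mul_le_mul_of_nonneg_right (bc_card h h1 h2) (by positivity)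
  obtain ⟨R, hR⟩ : ∃ R : Finset ℕ, R = B.filter fun k => ¬ (m + H < k ∨ k + H ≤ m) := ⟨_, rfl⟩
  have mR : ∀ k, k ∈ R ↔ (k ≤ L ∧ p k) ∧ ¬ (m + H < k ∨ k + H ≤ m) := fun k => by
    rw [hR, mem_filter, mB]
  have a4 := a3 (R.filter fun k => k ≤ m) (fun a ha => ((mR a).1 (mem_filter.1 ha).1).1.2)
    fun a ha b hb => by
      have b1 := ((mR a).1 (mem_filter.1 ha).1).2
      have b2 := (mem_filter.1 hb).2
      omega
  have a5 := a3 (R.filter fun k => ¬ k ≤ m) (fun a ha => ((mR a).1 (mem_filter.1 ha).1).1.2)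
    fun a ha b hb => by
      have b1 := ((mR b).1 (mem_filter.1 hb).1).2
      have b2 := (mem_filter.1 ha).2
      omega
  have a6 := sum_filter_add_sum_filter_not R (fun k => k ≤ m) fun k => (L.choose k : ℝ)
  have a7 := sum_filter_add_sum_filter_not B (fun k => m + H < k ∨ k + H ≤ m)
    fun k => (L.choose k : ℝ)
  rw [← hG, ← hR] at a7
  have a8 : ∑ k ∈ G, (L.choose k : ℝ) ≤ (c + 1) * 2 ^ L / (H + 1) := by
    rw [le_div_iff₀ hH, mul_comm]
    exact a2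
  have a9 : (0 : ℝ) ≤ (c + 1) * (2 ^ L / √L) := by positivity
  rw [bc_ex, e1, div_le_iff₀ (by positivity)]
  have e2 : (c + 1 : ℝ) * (1 / (H + 1) + 4 / √L) * 2 ^ L =
      (c + 1) * 2 ^ L / (H + 1) + 4 * ((c + 1) * (2 ^ L / √L)) := by ring
  rw [e2]
  linarith only [a4, a5, a6, a7, a8, a9]

end CzD
end
end

-- merged part: Pool.Agent.Work.MP_2efb47_nt.D.Wk2
section
/-! Large height. Choose `R` with `(1 - κ / 2) ^ R ≤ 30 ^ (-A) / 8`, `K' = 8 R 30 ^ A`, `p 0 = 0`, `H r = K' (2 p r + 3)`, `p (r + 1) = p r + (H r + 1)`, `P = p R`.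
`WK.free` with `h + 1` steps; for `5 a ≤ 6 h` use `WK.iter` with `P` steps (`5 h ≤ 4 m`, so `30 (m - a - 2 P) ≥ m` for large `m`) and `WK.check`; the other `a` have probability at most `ρ ^ (2 h + 2)` (`Ex_tail` with `δ = 1 / 20`, `h ≥ 11`).
`Ex_comp` joins the two expectations: the point at time `h + (p r + 1)`, restricted to `4 b ≤ 5 h` (true as `40 P ≤ h`), is controlled by `WK.cl` and `Ex_cluster` with `c = 2 (p r + 1)`. -/

open Finset Filter Topology
open scoped Classical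

noncomputable section
namespace CzD

theorem wl_ind_nonneg (p : Prop) : 0 ≤ ind p := by
  unfold ind; split_ifs <;> norm_num

theorem wl_ind_mono {p q : Prop} (h : p → q) : ind p ≤ ind q := by
  unfold ind
  by_cases hp : p
  · simp [hp, h hp]
  · simp only [hp, if_false]; split_ifs <;> norm_num

theorem wl_Ex_nonneg {φ : ℕ → ℝ} (L : ℕ) (h : ∀ k, 0 ≤ φ k) : 0 ≤ Ex L φ := by
  have := Ex_mono (L := L) (φ := fun _ => 0) (ψ := φ) fun k _ => h k
  rwa [Ex_const] at this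

/-- After the free steps. -/
theorem wl_inner {κ : ℝ} (hκ : 0 < κ) (hκ1 : κ ≤ 1) {n0 : ℕ} {B : ℕ → ℕ → ℕ → Prop}
    {c Q : ℕ → ℕ → ℝ} (hW : WK κ n0 B c Q) {p H : ℕ → ℕ} (h0 : p 0 = 0)
    (hp : ∀ r, p (r + 1) = p r + (H r + 1)) (A R t N m a : ℕ) {D : ℝ} (hD : 1 ≤ D)
    (hm : n0 = N + m) (h1 : 1 ≤ m) (ha : 30 * (a + 2 * p R) ≤ 29 * m)
    (hQ : ∀ t' N', N ≤ N' → N' < n0 → Q t' N' * ((n0 - N' : ℕ) : ℝ) ^ A ≤ D) :
    Q t (N + a) ≤ D * 30 ^ A / (m : ℝ) ^ A * ((1 - κ / 2) ^ R +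
      ∑ r ∈ range R, Ex (2 * p r) fun a' => ind (B (t + p r) (N + a + a') (H r))) := by
  have hm0 : (0 : ℝ) < m := by exact_mod_cast h1
  refine (hW.iter (p R) t (N + a) (by omega) (D := D * 30 ^ A / (m : ℝ) ^ A) ?_).trans
    (mul_le_mul_of_nonneg_left (hW.check hκ hκ1 h0 hp R t (N + a)) (by positivity))
  intro N' e1 e2
  have e3 := hQ (t + p R) N' (by omega) (by omega)
  have e4 : (m : ℝ) ≤ 30 * ((n0 - N' : ℕ) : ℝ) := by
    have : m ≤ 30 * (n0 - N') := by omega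
    exact_mod_cast this
  have e5 : (m : ℝ) ^ A ≤ 30 ^ A * ((n0 - N' : ℕ) : ℝ) ^ A := by
    rw [← mul_pow]; exact pow_le_pow_left₀ hm0.le e4 A
  rw [le_div_iff₀ (by positivity)]
  have e6 := (hW.q01 (t + p R) N').1
  calc Q (t + p R) N' * (m : ℝ) ^ A ≤ Q (t + p R) N' * (30 ^ A * ((n0 - N' : ℕ) : ℝ) ^ A) :=
        mul_le_mul_of_nonneg_left e5 e6
    _ = Q (t + p R) N' * ((n0 - N' : ℕ) : ℝ) ^ A * 30 ^ A := by ring
    _ ≤ D * 30 ^ A := mul_le_mul_of_nonneg_right e3 (by positivity)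

/-- One checkpoint. -/
theorem wl_point {κ : ℝ} {n0 : ℕ} {B : ℕ → ℕ → ℕ → Prop} {c Q : ℕ → ℕ → ℝ} (hW : WK κ n0 B c Q)
    {t N h : ℕ} (hB : B t N h) (hB' : ¬ B t N (h + 1)) {K p : ℕ} (hK : 1 ≤ K)
    (hh : (4 * K * (2 * p + 3)) ^ 2 ≤ h) :
    (Ex (2 * (h + 1)) fun a => Ex (2 * p) fun a' => ind (4 * (a + a') ≤ 5 * h ∧
      B (t + (h + (p + 1))) (N + (a + a')) (K * (2 * p + 3)))) ≤ 2 / K := by
  rw [← Ex_comp (2 * (h + 1)) (2 * p) fun b => ind (4 * b ≤ 5 * h ∧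
      B (t + (h + (p + 1))) (N + b) (K * (2 * p + 3)))]
  refine (Ex_cluster (c := 2 * (p + 1)) (H := K * (2 * p + 3)) (by omega) ?_).trans ?_
  · intro a b ha hb hab e
    exact hW.cl t N h (p + 1) _ a b hB hB' (by omega) hab hb.1 ha.2 hb.2 e
  · have hK0 : (0 : ℝ) < K := by exact_mod_cast hK
    have hp0 : (0 : ℝ) < 2 * p + 3 := by positivity
    have e1 : (4 * K * (2 * p + 3) : ℝ) ≤ √((2 * (h + 1) + 2 * p : ℕ) : ℝ) := by
      apply Real.le_sqrt_of_sq_le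
      have : (4 * K * (2 * p + 3)) ^ 2 ≤ 2 * (h + 1) + 2 * p := by omega
      exact_mod_cast this
    have e2 : 4 / √((2 * (h + 1) + 2 * p : ℕ) : ℝ) ≤ 4 / (4 * K * (2 * p + 3) : ℝ) :=
      div_le_div_of_nonneg_left (by norm_num) (by positivity) e1
    have e3 : 1 / (((K * (2 * p + 3) : ℕ) : ℝ) + 1) ≤ 1 / (K * (2 * p + 3) : ℝ) := by
      apply one_div_le_one_div_of_le (by positivity)
      push_cast; linarith only []
    calc _ ≤ (((2 * (p + 1) : ℕ) : ℝ) + 1) *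
          (1 / (K * (2 * p + 3) : ℝ) + 4 / (4 * K * (2 * p + 3) : ℝ)) :=
          mul_le_mul_of_nonneg_left (add_le_add e3 e2) (by positivity)
      _ = 2 / K := by push_cast; field_simp; ring

/-- The checkpoint times. -/
def wl_p (K : ℕ) : ℕ → ℕ
  | 0 => 0
  | r + 1 => wl_p K r + (K * (2 * wl_p K r + 3) + 1)

theorem wl_p_mono (K : ℕ) : Monotone (wl_p K) :=
  monotone_nat_of_le_succ fun r => by rw [wl_p]; omega

theorem walk_large {κ η : ℝ} (hκ : 0 < κ) (hκ1 : κ ≤ 1) (hη : 0 < η) (A : ℕ) : ∃ m0 : ℕ,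
    ∀ (n0 : ℕ) (B : ℕ → ℕ → ℕ → Prop) (c Q : ℕ → ℕ → ℝ), WK κ n0 B c Q → ∀ (t N h : ℕ) (D : ℝ),
      N + m0 ≤ n0 → B t N h → ¬ B t N (h + 1) → η * ((n0 - N : ℕ) : ℝ) ≤ h → 1 ≤ D →
      (∀ t' N', N ≤ N' → N' < n0 → Q t' N' * ((n0 - N' : ℕ) : ℝ) ^ A ≤ D) →
      Q t N * ((n0 - N : ℕ) : ℝ) ^ A ≤ 3 / 4 * D := by
  obtain ⟨ρ, ρ0, ρ1, hρ⟩ := Ex_tail (δ := 1 / 20) (by norm_num)
  have hW0 : (0 : ℝ) < 30 ^ A := by positivity
  obtain ⟨R, hR⟩ := exists_pow_lt_of_lt_one (x := 1 / (8 * 30 ^ A)) (y := 1 - κ / 2)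
    (by positivity) (by linarith only [hκ])
  obtain ⟨h2, hh2⟩ := eventually_atTop.1 ((tendsto_pow_const_mul_const_pow_of_abs_lt_one A
    (r := ρ) (by rwa [abs_of_pos ρ0])).eventually
      (gt_mem_nhds (show (0 : ℝ) < 3 / 8 * η ^ A by positivity)))
  set K : ℕ := 8 * (R + 1) * 30 ^ A with hK
  have hK1 : 1 ≤ K := by rw [hK]; exact Nat.succ_le_of_lt (by positivity)
  set P := wl_p K R with hP
  set h0 : ℕ := 300 * P + 90 + (4 * K * (2 * P + 3)) ^ 2 + h2 with hh0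
  refine ⟨⌈(h0 : ℝ) / η⌉₊, ?_⟩
  intro n0 B c Q hW t N h D hN hB hB' hη' hD hQ
  obtain ⟨m, hm⟩ : ∃ m, n0 = N + m := ⟨n0 - N, by omega⟩
  have hmm : n0 - N = m := by omega
  rw [hmm] at hη' ⊢
  have g1 : h0 ≤ h := by
    have e1 : (h0 : ℝ) / η ≤ m := (Nat.ceil_le).1 (by omega)
    rw [div_le_iff₀ hη] at e1
    have : (h0 : ℝ) ≤ h := by linarith only [hη', e1]
    exact_mod_cast this
  have g0 : N < n0 := by
    by_contra e
    have e0 : m = 0 := by omega
    have e1 : (h0 : ℝ) / η ≤ m := (Nat.ceil_le).1 (by omega)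
    have e2 : (0 : ℝ) < (h0 : ℝ) / η := by
      apply div_pos _ hη
      have : 0 < h0 := by omega
      exact_mod_cast this
    rw [e0] at e1
    simp at e1
    linarith only [e2, e1]
  have g2 := hW.ht t N h g0 hB
  rw [hmm] at g2
  have g3 : 300 * P + 90 ≤ h := by omega
  have hm0 : (0 : ℝ) < m := by
    have : 0 < m := by omega
    exact_mod_cast this
  set G : ℕ → ℕ → ℝ := fun r a => Ex (2 * wl_p K r) fun a' => ind (4 * (a + a') ≤ 5 * h ∧
      B (t + (h + (wl_p K r + 1))) (N + (a + a')) (K * (2 * wl_p K r + 3))) with hG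
  set D' : ℝ := D * 30 ^ A / (m : ℝ) ^ A with hD'
  have D0 : 0 ≤ D' := by rw [hD']; positivity
  have γ0 : (0 : ℝ) ≤ (1 - κ / 2) ^ R := pow_nonneg (by linarith only [hκ1, ρ0, ρ1]) R
  have s1 : Q t N ≤ Ex (2 * (h + 1)) fun a => D' * ((1 - κ / 2) ^ R + ∑ r ∈ range R, G r a) +
      ind ((1 / 2 + 1 / 20 : ℝ) * ((2 * (h + 1) : ℕ) : ℝ) ≤ a) := by
    refine (hW.free (h + 1) t N).trans (Ex_mono fun a _ => ?_)
    by_cases ha : 5 * a ≤ 6 * h
    · rw [if_pos (by omega)]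
      refine (wl_inner hκ hκ1 hW (p := wl_p K) (H := fun r => K * (2 * wl_p K r + 3)) rfl
        (fun _ => rfl) A R (t + (h + 1)) N m a hD hm (by omega) (by omega) hQ).trans ?_
      refine le_add_of_le_of_nonneg (mul_le_mul_of_nonneg_left (add_le_add le_rfl
        (sum_le_sum fun r hr => Ex_mono fun a' ha' => wl_ind_mono fun e => ⟨?_, ?_⟩)) D0)
        (wl_ind_nonneg _)
      · have := wl_p_mono K (mem_range.1 hr).le
        omega
      · rw [show t + (h + (wl_p K r + 1)) = t + (h + 1) + wl_p K r by ring, ← add_assoc N]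
        exact e
    · have e1 : ind ((1 / 2 + 1 / 20 : ℝ) * ((2 * (h + 1) : ℕ) : ℝ) ≤ a) = 1 := by
        have e2 : 11 * (h + 1) ≤ 10 * a := by omega
        have e3 : (11 * (h + 1) : ℝ) ≤ 10 * a := by exact_mod_cast e2
        unfold ind
        rw [if_pos]
        push_cast; linarith only [e3]
      rw [e1]
      refine le_add_of_nonneg_of_le (mul_nonneg D0 (add_nonneg γ0 (sum_nonneg fun r _ =>
        wl_Ex_nonneg _ fun _ => wl_ind_nonneg _))) ?_
      split_ifs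
      · exact (hW.q01 _ _).2
      · exact le_rfl
  rw [Ex_add, Ex_mul, Ex_add, Ex_const, Ex_sum] at s1
  have s2 : ∑ r ∈ range R, Ex (2 * (h + 1)) (G r) ≤ 1 / (4 * 30 ^ A) := by
    have e1 : ∀ r ∈ range R, Ex (2 * (h + 1)) (G r) ≤ 2 / K := by
      intro r hr
      have e2 := wl_p_mono K (mem_range.1 hr).le
      refine wl_point hW hB hB' hK1 (le_trans ?_ (show (4 * K * (2 * P + 3)) ^ 2 ≤ h by omega))
      gcongr
    refine (sum_le_card_nsmul _ _ _ e1).trans ?_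
    rw [card_range, nsmul_eq_mul, hK]
    push_cast
    rw [← mul_div_assoc, div_le_div_iff₀ (by positivity) (by positivity)]
    linarith only [hW0]
  have s3 : ρ ^ (2 * (h + 1)) * (m : ℝ) ^ A ≤ 3 / 8 := by
    have e1 := hh2 h (by omega)
    have e2 : ρ ^ (2 * (h + 1)) ≤ ρ ^ h := pow_le_pow_of_le_one ρ0.le ρ1.le (by omega)
    have e3 : η ^ A * (m : ℝ) ^ A ≤ (h : ℝ) ^ A := by
      rw [← mul_pow]; exact pow_le_pow_left₀ (by positivity) hη' A
    have e4 : (0 : ℝ) < η ^ A := by positivity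
    refine le_of_mul_le_mul_right ?_ e4
    calc ρ ^ (2 * (h + 1)) * (m : ℝ) ^ A * η ^ A = η ^ A * (m : ℝ) ^ A * ρ ^ (2 * (h + 1)) := by
          ring
      _ ≤ (h : ℝ) ^ A * ρ ^ h := mul_le_mul e3 e2 (by positivity) (by positivity)
      _ ≤ _ := e1.le
  have s4 : Q t N ≤ D' * (1 / (8 * 30 ^ A) + 1 / (4 * 30 ^ A)) + ρ ^ (2 * (h + 1)) :=
    s1.trans (add_le_add (mul_le_mul_of_nonneg_left (add_le_add hR.le s2) D0) (hρ _).1)
  have s5 : D' * (1 / (8 * 30 ^ A) + 1 / (4 * 30 ^ A)) * (m : ℝ) ^ A = 3 / 8 * D := by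
    rw [hD']; field_simp; norm_num
  calc Q t N * (m : ℝ) ^ A ≤ (D' * (1 / (8 * 30 ^ A) + 1 / (4 * 30 ^ A)) + ρ ^ (2 * (h + 1))) *
        (m : ℝ) ^ A := mul_le_mul_of_nonneg_right s4 (by positivity)
    _ = 3 / 8 * D + ρ ^ (2 * (h + 1)) * (m : ℝ) ^ A := by rw [add_mul, s5]
    _ ≤ 3 / 4 * D := by linarith only [hD, s3]

end CzD
end
end

-- merged part: Pool.Agent.Work.MP_2efb47_nt.D.Equi1
section
/-! Invariant sets are equidistributed modulo three. `equi_path`: `z ↦ T^[L] z` is a bijection from the `z ≥ 1` in `S` with `par L z = β` onto the `w ≥ 1` in `S` at which `β` is valid; `z ≤ Z` iff `2 ^ L w ≤ 3 ^ k Z + rr β`; at most `rr β / 2 ^ L + 1 ≤ 2 (3 / 2) ^ L` values `w` lie above `3 ^ k Z / 2 ^ L`. -/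

open Finset Filter Topology
open scoped Classical

noncomputable section
namespace CzD

theorem eq1_spec {β : List Bool} {z : ℕ} (h : par β.length z = β) :
    2 ^ β.length * T^[β.length] z = 3 ^ cn β * z + rr β := by
  have := par_spec β.length z
  rwa [h] at this

theorem eq1_tm {β : List Bool} {w z : ℕ} (h : 2 ^ β.length * w = 3 ^ cn β * z + rr β) :
    2 ^ β.length / 3 ^ cn β * tm β h0 (w : ℕ) = h0 z := by
  have e : (2 : ℤ) ^ β.length * (w : ℤ) - rr β = 3 ^ cn β * z := by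
    have := congrArg (Nat.cast : ℕ → ℤ) h
    push_cast at this
    linarith only [h]
  rw [tm, e, if_pos (dvd_mul_right _ _), Int.mul_ediv_cancel_left _ (by positivity)]
  field_simp

theorem eq1_inj {β : List Bool} {z z' : ℕ} (h : par β.length z = β) (h' : par β.length z' = β)
    (e : T^[β.length] z = T^[β.length] z') : z = z' := by
  have a := eq1_spec h
  rw [e, eq1_spec h'] at a
  exact (Nat.eq_of_mul_eq_mul_left (by positivity) (Nat.add_right_cancel a)).symm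

theorem eq1_h0 (z : ℤ) : |h0 z| ≤ 2 := by
  unfold h0
  split_ifs <;> norm_num

theorem eq1_main {S : Set ℕ} (hS : Inv S) (β : List Bool) (Z : ℕ) :
    2 ^ β.length / 3 ^ cn β * ∑ w ∈ (Icc 1 (3 ^ cn β * Z / 2 ^ β.length)).filter (fun w => w ∈ S),
      tm β h0 (w : ℕ) = ∑ z ∈ ((Icc 1 Z).filter (fun z => z ∈ S ∧ par β.length z = β)).filter
        (fun z => T^[β.length] z ≤ 3 ^ cn β * Z / 2 ^ β.length), h0 z := by
  rw [mul_sum, ← sum_congr rfl fun z hz => eq1_tm (eq1_spec (mem_filter.1 (mem_filter.1 hz).1).2.2),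
    ← sum_image (g := fun z => T^[β.length] z)
      (f := fun w : ℕ => (2 : ℝ) ^ β.length / 3 ^ cn β * tm β h0 (w : ℕ)) fun z hz z' hz' e =>
        eq1_inj (mem_filter.1 (mem_filter.1 hz).1).2.2 (mem_filter.1 (mem_filter.1 hz').1).2.2 e]
  refine (sum_subset (fun w hw => ?_) fun w hw n => ?_).symm
  · obtain ⟨z, hz, rfl⟩ := mem_image.1 hw
    simp only [mem_filter, mem_Icc] at hz ⊢
    exact ⟨⟨T_pos hz.1.1.1 _, hz.2⟩, (hS.iter hz.1.1.1 _).1 hz.1.2.1⟩
  · simp only [mem_filter, mem_Icc] at hw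
    rw [tm, if_neg, mul_zero]
    intro d
    obtain ⟨z, z1, e⟩ := valid_pos hw.1.1 d
    obtain ⟨e1, e2⟩ := par_uniq e
    refine n (mem_image.2 ⟨z, ?_, e2⟩)
    simp only [mem_filter, mem_Icc]
    refine ⟨⟨⟨z1, ?_⟩, (hS.iter z1 β.length).2 (e2 ▸ hw.2), e1⟩, e2 ▸ hw.1.2⟩
    have a := (Nat.le_div_iff_mul_le (by positivity)).1 hw.1.2
    refine Nat.le_of_mul_le_mul_left (c := 3 ^ cn β) ?_ (by positivity)
    rw [mul_comm] at a
    omega

theorem eq1_card {S : Set ℕ} (β : List Bool) (Z : ℕ) :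
    ((((Icc 1 Z).filter (fun z => z ∈ S ∧ par β.length z = β)).filter
      (fun z => ¬ T^[β.length] z ≤ 3 ^ cn β * Z / 2 ^ β.length)).card : ℝ) ≤ (3 / 2) ^ β.length := by
  have c := card_le_card_of_injOn (s := ((Icc 1 Z).filter
      (fun z => z ∈ S ∧ par β.length z = β)).filter
      (fun z => ¬ T^[β.length] z ≤ 3 ^ cn β * Z / 2 ^ β.length))
    (t := Ioc (3 ^ cn β * Z / 2 ^ β.length) (3 ^ cn β * Z / 2 ^ β.length + (rr β / 2 ^ β.length + 1)))
    (fun z => T^[β.length] z) (fun z hz => by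
      have hz' := mem_coe.1 hz
      simp only [mem_filter, mem_Icc, not_le] at hz'
      refine mem_coe.2 (mem_Ioc.2 ⟨hz'.2, ?_⟩)
      have e := eq1_spec hz'.1.2.2
      have a : T^[β.length] z ≤ (3 ^ cn β * Z + rr β) / 2 ^ β.length :=
        (Nat.le_div_iff_mul_le (by positivity)).2 (by
          rw [mul_comm, e]
          exact Nat.add_le_add_right (Nat.mul_le_mul_left _ hz'.1.1.2) _)
      refine a.trans ?_
      rw [Nat.add_div (by positivity)]
      split_ifs <;> omega)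
    fun z hz z' hz' e => eq1_inj (mem_filter.1 (mem_filter.1 (mem_coe.1 hz)).1).2.2
      (mem_filter.1 (mem_filter.1 (mem_coe.1 hz')).1).2.2 e
  rw [Nat.card_Ioc, Nat.add_sub_cancel_left] at c
  have d : (rr β / 2 ^ β.length + 1) * 2 ^ β.length ≤ 3 ^ β.length := by
    have := rr_le β
    have := Nat.div_mul_le_self (rr β) (2 ^ β.length)
    rw [add_mul, one_mul]
    omega
  rw [div_pow, le_div_iff₀ (by positivity)]
  exact_mod_cast (Nat.mul_le_mul_right _ c).trans d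



theorem equi_path {S : Set ℕ} (hS : Inv S) (β : List Bool) (Z : ℕ) :
    |∑ z ∈ (Icc 1 Z).filter (fun z => z ∈ S ∧ par β.length z = β), h0 z -
      2 ^ β.length / 3 ^ cn β * ∑ w ∈ (Icc 1 (3 ^ cn β * Z / 2 ^ β.length)).filter (fun w => w ∈ S),
        tm β h0 (w : ℕ)| ≤ 4 * (3 / 2) ^ β.length := by
  rw [eq1_main hS, ← sum_filter_add_sum_filter_not _
    (fun z => T^[β.length] z ≤ 3 ^ cn β * Z / 2 ^ β.length), add_sub_cancel_left]
  refine (abs_sum_le_sum_abs _ _).trans ((sum_le_card_nsmul _ _ 2 fun (z : ℕ) _ => eq1_h0 z).trans ?_)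
  have := eq1_card (S := S) β Z
  have p : (0 : ℝ) < (3 / 2) ^ β.length := by positivity
  rw [nsmul_eq_mul]
  linarith only [this, p]

end CzD
end
end
end

-- merged part: Pool.Agent.Work.MP_2efb47_nt.D.Pos1
section
-- merged part: Pool.Agent.Work.MP_2efb47_nt.D.Par
section
/-! The `L²` step. With `q = 3 ^ (k + 1)`, `L = L1 + L2`, `ν w = (3 ^ k)⁻¹ ∑ ∑ tm (β ++ β') h0 w` is a function on `ZMod q`; for one path `γ` the points `w` with `tm γ h0 w ≠ 0` are `w = (rr γ + 3 ^ k z) / 2 ^ L`, `z = 0, 1, 2`, so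
`∑ w, ν w e(ξ w) = (∑ z, h0 z e(ξ 3 ^ k z / 2 ^ L)) * g ξ * Ph (k + 1) L2 (ξ 3 ^ k1 / 2 ^ L1) k2` with `g ξ = 2 ^ (-L1) ∑ β ∈ G, e(ξ rr β / 2 ^ L1)` (`rr_append`). The first factor vanishes if `3 ∣ ξ` and has norm `3` (or at most `4`) otherwise; `rr_inj` and `parseval` give `∑ ‖g ξ‖ ^ 2 ≤ q / 2 ^ L1`; Cauchy-Schwarz. -/

open Finset Filter Topology
open scoped Classical

noncomputable section
namespace CzD

theorem parseval {q : ℕ} [NeZero q] (f : ZMod q → ℂ) :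
    ∑ ξ : ZMod q, ‖∑ w : ZMod q, f w * ZMod.stdAddChar (ξ * w)‖ ^ 2 = q * ∑ w, ‖f w‖ ^ 2 := by
  have e : ∀ z : ℂ, ((‖z‖ : ℝ) : ℂ) ^ 2 = z * (starRingEnd ℂ) z := fun z => by
    rw [Complex.mul_conj, Complex.normSq_eq_norm_sq]; push_cast; rfl
  apply Complex.ofReal_injective
  push_cast
  simp only [e, map_sum, map_mul, ← AddChar.map_neg_eq_conj, sum_mul_sum]
  rw [sum_comm, mul_sum]
  refine sum_congr rfl fun w _ => ?_
  rw [sum_comm]
  have k : ∀ v : ZMod q, ∑ ξ : ZMod q, f w * ZMod.stdAddChar (ξ * w) *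
      ((starRingEnd ℂ) (f v) * ZMod.stdAddChar (-(ξ * v))) =
      if w = v then q * (f w * (starRingEnd ℂ) (f v)) else 0 := by
    intro v
    have := AddChar.sum_mulShift (w - v) (ZMod.isPrimitive_stdAddChar q)
    simp only [sub_eq_zero, ZMod.card] at this
    calc _ = f w * (starRingEnd ℂ) (f v) * ∑ ξ : ZMod q, ZMod.stdAddChar (ξ * (w - v)) := by
          rw [mul_sum]
          refine sum_congr rfl fun ξ _ => ?_
          rw [mul_sub, sub_eq_add_neg, AddChar.map_add_eq_mul]; ring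
      _ = _ := by rw [this]; split_ifs <;> simp [mul_comm]
  simp only [k, sum_ite_eq, mem_univ, if_true]

theorem par_pt {q : ℕ} [NeZero q] {ι : Type} (s : Finset ι) (c : ι → ℂ) (p : ι → ZMod q)
    (ξ : ZMod q) : ∑ w : ZMod q, (∑ i ∈ s, if w = p i then c i else 0) * ZMod.stdAddChar (ξ * w) =
      ∑ i ∈ s, c i * ZMod.stdAddChar (ξ * p i) := by
  simp only [sum_mul]
  rw [sum_comm]
  refine sum_congr rfl fun i _ => ?_
  simp [ite_mul]

theorem par_inj {q : ℕ} [NeZero q] {ι : Type} (s : Finset ι) (p : ι → ZMod q)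
    (hp : Set.InjOn p s) :
    ∑ ξ : ZMod q, ‖∑ i ∈ s, (ZMod.stdAddChar (ξ * p i) : ℂ)‖ ^ 2 = q * s.card := by
  have h := parseval fun w : ZMod q => ∑ i ∈ s, if w = p i then (1 : ℂ) else 0
  simp only [par_pt, one_mul] at h
  rw [h]
  congr 1
  have e : ∀ w : ZMod q, ‖∑ i ∈ s, if w = p i then (1 : ℂ) else 0‖ ^ 2 =
      ∑ i ∈ s, if w = p i then (1 : ℝ) else 0 := by
    intro w
    by_cases hw : ∃ i ∈ s, w = p i
    · obtain ⟨i, hi, rfl⟩ := hw
      have k : ∀ j ∈ s, j ≠ i → ¬ p i = p j := fun j hj n r => n (hp hj hi r.symm)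
      rw [sum_eq_single_of_mem i hi fun j hj n => if_neg (k j hj n),
        sum_eq_single_of_mem i hi fun j hj n => if_neg (k j hj n)]
      simp
    · rw [sum_eq_zero fun j hj => if_neg fun r => hw ⟨j, hj, r⟩,
        sum_eq_zero fun j hj => if_neg fun r => hw ⟨j, hj, r⟩]
      simp
  simp only [e]
  rw [sum_comm]
  simp

theorem par_range {q : ℕ} [NeZero q] (f : ZMod q → ℝ) :
    ∑ w ∈ range q, f (w : ZMod q) = ∑ x, f x := by
  refine sum_nbij' (fun w => (w : ZMod q)) ZMod.val (fun _ _ => mem_univ _)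
    (fun x _ => mem_range.2 (ZMod.val_lt x)) (fun w hw => ZMod.val_cast_of_lt (mem_range.1 hw))
    (fun x _ => ZMod.natCast_zmod_val x) fun _ _ => rfl

theorem par_pow (n L : ℕ) : 2 ^ L * i2 n ^ L = 1 := by rw [← mul_pow, two_i2, one_pow]

theorem par_tm (γ : List Bool) {k : ℕ} (hk : cn γ = k) (w : ℤ) :
    tm γ h0 w = 3 ^ k / 2 ^ γ.length * ∑ z ∈ range 3,
      if (w : ZMod (3 ^ (k + 1))) = (rr γ + 3 ^ k * z) * i2 (k + 1) ^ γ.length then h0 z else 0 := by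
  have e : ∀ z : ℕ, (w : ZMod (3 ^ (k + 1))) = (rr γ + 3 ^ k * z) * i2 (k + 1) ^ γ.length ↔
      (3 : ℤ) ^ (k + 1) ∣ 2 ^ γ.length * w - rr γ - 3 ^ k * z := by
    intro z
    have h := ZMod.intCast_zmod_eq_zero_iff_dvd (2 ^ γ.length * w - rr γ - 3 ^ k * z) (3 ^ (k + 1))
    push_cast at h
    rw [← h]
    have u := par_pow (k + 1) γ.length
    constructor
    · intro r
      rw [r]
      linear_combination ((rr γ : ZMod (3 ^ (k + 1))) + 3 ^ k * z) * u
    · intro r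
      linear_combination i2 (k + 1) ^ γ.length * r - (w : ZMod (3 ^ (k + 1))) * u
  simp only [e]
  unfold tm
  rw [hk]
  have p3 : (3 : ℤ) ^ k ≠ 0 := by positivity
  split_ifs with h
  · obtain ⟨y, hy⟩ := h
    rw [hy, Int.mul_ediv_cancel_left _ p3]
    congr 1
    simp only [← mul_sub, pow_succ, Int.mul_dvd_mul_iff_left p3, sum_range_succ, sum_range_zero, h0]
    push_cast
    split_ifs <;> first | omega | norm_num
  · rw [sum_eq_zero, mul_zero]
    refine fun z _ => if_neg fun r => h ?_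
    have := dvd_add ((pow_dvd_pow 3 k.le_succ).trans r) (dvd_mul_right ((3 : ℤ) ^ k) z)
    rwa [sub_add_cancel] at this

theorem par_lev {k1 k2 L1 L2 : ℕ} {δ : ℝ} (h0δ : 0 ≤ δ)
    (hδ : ∀ ξ, Lev (k1 + k2 + 1) (k2 + 1) ξ → ‖Ph (k1 + k2 + 1) L2 ξ k2‖ ≤ δ)
    (ξ c : ZMod (3 ^ (k1 + k2 + 1))) :
    ‖(∑ z ∈ range 3, (h0 z : ℂ) * ZMod.stdAddChar (ξ * 3 ^ (k1 + k2) * (z : ZMod (3 ^ (k1 + k2 + 1))) * c)) *
      Ph (k1 + k2 + 1) L2 (ξ * 3 ^ k1 * i2 (k1 + k2 + 1) ^ L1) k2‖ ≤ 4 * δ := by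
  by_cases hu : IsUnit ξ
  · rw [norm_mul]
    refine mul_le_mul ?_ (hδ _ ⟨ξ * i2 _ ^ L1, hu.mul
      (IsUnit.of_mul_eq_one_right _ (par_pow _ L1)), ?_⟩) (norm_nonneg _) (by norm_num)
    · refine (norm_sum_le _ _).trans ?_
      simp only [norm_mul, AddChar.norm_apply, mul_one, sum_range_succ, sum_range_zero, h0]
      norm_num
    · rw [show k1 + k2 + 1 - (k2 + 1) = k1 by omega]; ring
  · have h3 : 3 ∣ ξ.val := by
      by_contra r
      rw [← ZMod.natCast_zmod_val ξ, ZMod.isUnit_iff_coprime] at hu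
      exact hu (Nat.Coprime.pow_right _ ((Nat.prime_three.coprime_iff_not_dvd).2 r).symm)
    obtain ⟨y, hy⟩ := h3
    have z0 : ξ * 3 ^ (k1 + k2) = 0 := by
      have := ZMod.natCast_self (3 ^ (k1 + k2 + 1))
      rw [← ZMod.natCast_zmod_val ξ, hy]
      push_cast at this ⊢
      linear_combination (y : ZMod (3 ^ (k1 + k2 + 1))) * this
    simp only [z0, zero_mul, AddChar.map_zero_eq_one, mul_one, sum_range_succ, sum_range_zero, h0]
    norm_num
    exact h0δ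

theorem core {k1 k2 L1 L2 : ℕ} {G : Finset (List Bool)}
    (hG : ∀ β ∈ G, β.length = L1 ∧ cn β = k1 ∧ rr β < 3 ^ (k1 + k2 + 1)) {δ : ℝ} (h0δ : 0 ≤ δ)
    (hδ : ∀ ξ, Lev (k1 + k2 + 1) (k2 + 1) ξ → ‖Ph (k1 + k2 + 1) L2 ξ k2‖ ≤ δ) :
    av (k1 + k2 + 1) (fun w => |∑ β ∈ G, ∑ β' ∈ (allB L2).filter (fun β' => cn β' = k2),
      tm (β ++ β') h0 w|) ≤ 2 * δ * √(3 ^ (k1 + k2 + 1) / 2 ^ L1) := by
  set B := (allB L2).filter (fun β' => cn β' = k2) with hB
  have mB : ∀ β' ∈ B, β'.length = L2 ∧ cn β' = k2 := fun β' h =>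
    ⟨mem_allB.1 (mem_filter.1 h).1, (mem_filter.1 h).2⟩
  let j := i2 (k1 + k2 + 1)
  let p : List Bool × List Bool × ℕ → ZMod (3 ^ (k1 + k2 + 1)) := fun x =>
    (rr (x.1 ++ x.2.1) + 3 ^ (k1 + k2) * x.2.2) * j ^ (L1 + L2)
  let F : ZMod (3 ^ (k1 + k2 + 1)) → ℝ := fun w =>
    ∑ x ∈ G ×ˢ B ×ˢ range 3, if w = p x then h0 x.2.2 else 0
  have hF : ∀ w : ℕ, ∑ β ∈ G, ∑ β' ∈ B, tm (β ++ β') h0 w =
      3 ^ (k1 + k2) / 2 ^ (L1 + L2) * F w := by
    intro w
    simp only [F, sum_product, mul_sum]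
    refine sum_congr rfl fun β hβ => sum_congr rfl fun β' hβ' => ?_
    rw [par_tm _ (k := k1 + k2) (by rw [cn_append, (hG β hβ).2.1, (mB β' hβ').2]),
      List.length_append, (hG β hβ).1, (mB β' hβ').1, mul_sum, Int.cast_natCast]
  have hat : ∀ ξ, ‖∑ w, (F w : ℂ) * ZMod.stdAddChar (ξ * w)‖ ≤
      4 * δ * 2 ^ L2 *
        ‖∑ β ∈ G, (ZMod.stdAddChar (ξ * ((rr β : ZMod (3 ^ (k1 + k2 + 1))) * j ^ L1)) : ℂ)‖ := by
    intro ξ
    have e : ∑ w, (F w : ℂ) * ZMod.stdAddChar (ξ * w) =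
        (∑ z ∈ range 3, (h0 z : ℂ) * ZMod.stdAddChar
          (ξ * 3 ^ (k1 + k2) * (z : ZMod (3 ^ (k1 + k2 + 1))) * j ^ (L1 + L2))) *
          Ph (k1 + k2 + 1) L2 (ξ * 3 ^ k1 * j ^ L1) k2 * 2 ^ L2 *
          ∑ β ∈ G, (ZMod.stdAddChar (ξ * ((rr β : ZMod (3 ^ (k1 + k2 + 1))) * j ^ L1)) : ℂ) := by
      simp only [F, Complex.ofReal_sum, apply_ite Complex.ofReal, Complex.ofReal_zero, par_pt]
      rw [Ph, mul_assoc _ (_ / _), div_mul_cancel₀ _ (pow_ne_zero _ two_ne_zero), sum_product, mul_sum]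
      refine sum_congr rfl fun β hβ => ?_
      rw [sum_product, mul_comm (∑ z ∈ range 3, _), sum_mul_sum, sum_mul]
      refine sum_congr rfl fun β' hβ' => ?_
      rw [sum_mul]
      refine sum_congr rfl fun z _ => ?_
      rw [mul_left_comm (ZMod.stdAddChar _ : ℂ), mul_assoc ((h0 z : ℝ) : ℂ),
        ← AddChar.map_add_eq_mul, ← AddChar.map_add_eq_mul]
      congr 2
      simp only [p, rr_append, (hG β hβ).2.1, (mB β' hβ').1]
      push_cast
      linear_combination ξ * rr β * j ^ L1 * par_pow (k1 + k2 + 1) L2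
    rw [e, norm_mul, norm_mul, norm_pow, Complex.norm_two]
    gcongr
    exact par_lev h0δ hδ ξ _
  have inj : Set.InjOn (fun β => (rr β : ZMod (3 ^ (k1 + k2 + 1))) * j ^ L1) G := by
    intro β hβ β' hβ' r
    have r' := (IsUnit.of_mul_eq_one_right _ (par_pow _ L1)).mul_right_cancel r
    rw [ZMod.natCast_eq_natCast_iff', Nat.mod_eq_of_lt (hG β hβ).2.2,
      Nat.mod_eq_of_lt (hG β' hβ').2.2] at r'
    exact rr_inj ((hG β hβ).1.trans (hG β' hβ').1.symm)
      ((hG β hβ).2.1.trans (hG β' hβ').2.1.symm) r'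
  have cG : (G.card : ℝ) ≤ 2 ^ L1 := by
    have := card_le_card (s := G) (t := allB L1) fun β h => mem_allB.2 (hG β h).1
    rw [card_allB] at this
    exact_mod_cast this
  have q0 : (0 : ℝ) < 3 ^ (k1 + k2 + 1) := by positivity
  have l2 : ∑ w, |F w| ^ 2 ≤ (4 * δ * 2 ^ L2) ^ 2 * 2 ^ L1 := by
    have h1 := parseval fun w => (F w : ℂ)
    have h2 := par_inj G _ inj
    simp only [Complex.norm_real, Real.norm_eq_abs] at h1
    push_cast at h1 h2
    refine le_of_mul_le_mul_left ?_ q0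
    rw [← h1]
    calc _ ≤ ∑ ξ, (4 * δ * 2 ^ L2) ^ 2 *
          ‖∑ β ∈ G, (ZMod.stdAddChar (ξ * ((rr β : ZMod (3 ^ (k1 + k2 + 1))) * j ^ L1)) : ℂ)‖ ^ 2 :=
          sum_le_sum fun ξ _ => by
            rw [← mul_pow]
            exact pow_le_pow_left₀ (norm_nonneg _) (hat ξ) 2
      _ = (4 * δ * 2 ^ L2) ^ 2 * (3 ^ (k1 + k2 + 1) * G.card) := by rw [← mul_sum, h2]
      _ ≤ (4 * δ * 2 ^ L2) ^ 2 * (3 ^ (k1 + k2 + 1) * 2 ^ L1) := by gcongr
      _ = _ := by ring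
  have l1 : ∑ w, |F w| ≤ 4 * δ * 2 ^ (L1 + L2) * √(3 ^ (k1 + k2 + 1) / 2 ^ L1) := by
    refine (abs_le_of_sq_le_sq' ?_ (by positivity)).2
    have h := sq_sum_le_card_mul_sum_sq (s := univ) (f := fun w => |F w|)
    rw [card_univ, ZMod.card] at h
    push_cast at h
    refine h.trans ((mul_le_mul_of_nonneg_left l2 q0.le).trans (le_of_eq ?_))
    rw [mul_pow _ (√_), Real.sq_sqrt (by positivity)]
    field_simp
    ring
  unfold av
  simp only [hF, abs_mul]
  rw [← mul_sum, par_range fun w => |F w|, abs_of_nonneg (by positivity), div_le_iff₀ q0]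
  have s0 : 0 ≤ δ * √(3 ^ (k1 + k2 + 1) / 2 ^ L1) * 3 ^ (k1 + k2) := by positivity
  calc _ ≤ 3 ^ (k1 + k2) / 2 ^ (L1 + L2) *
        (4 * δ * 2 ^ (L1 + L2) * √(3 ^ (k1 + k2 + 1) / 2 ^ L1)) := by gcongr
    _ = 4 * (δ * √(3 ^ (k1 + k2 + 1) / 2 ^ L1) * 3 ^ (k1 + k2)) := by field_simp
    _ ≤ 6 * (δ * √(3 ^ (k1 + k2 + 1) / 2 ^ L1) * 3 ^ (k1 + k2)) := by linarith only [s0]
    _ = _ := by ring

end CzD
end
end

-- merged part: Pool.Agent.Work.MP_2efb47_nt.D.Wk3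
section
/-! Small height and the induction. `walk_small`: `WK.iter` with `h + 1` steps and `WK.gain`; choose `η` with `(1 - κ / 2) ≤ (1 - κ / 4) (1 - 3 η) ^ A`.
`walk`: no induction is needed. Let `s` be the supremum of `Q t N (n0 - N) ^ A` over all `t` and `N < n0` (bounded by `n0 ^ A`), `D = max 1 s`, `g = max (3 / 4) (1 - κ / 4) < 1`. For `N + m0 ≤ n0` let `h` be the least height with `¬ B t N h` (it exists by `WK.ht`); `walk_small` if `h ≤ η m + 1`, else `walk_large` at `h - 1`; so `s ≤ max (m0 ^ A) (g D)`, hence `s ≤ max 1 (m0 ^ A)`. -/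

open Finset Filter Topology
open scoped Classical

noncomputable section
namespace CzD

theorem walk_small {κ : ℝ} (hκ : 0 < κ) (hκ1 : κ ≤ 1) (A : ℕ) : ∃ η : ℝ, 0 < η ∧ ∃ m0 : ℕ,
    ∀ (n0 : ℕ) (B : ℕ → ℕ → ℕ → Prop) (c Q : ℕ → ℕ → ℝ), WK κ n0 B c Q → ∀ (t N h : ℕ) (D : ℝ),
      N + m0 ≤ n0 → ¬ B t N h → (h : ℝ) ≤ η * ((n0 - N : ℕ) : ℝ) + 1 → 1 ≤ D →
      (∀ t' N', N ≤ N' → N' < n0 → Q t' N' * ((n0 - N' : ℕ) : ℝ) ^ A ≤ D) →
      Q t N * ((n0 - N : ℕ) : ℝ) ^ A ≤ (1 - κ / 4) * D := by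
  have hA : (0 : ℝ) ≤ A := Nat.cast_nonneg A
  obtain ⟨η, hη, e⟩ : ∃ η : ℝ, 0 < η ∧ 12 * (A + 1) * η = κ :=
    ⟨κ / (12 * (A + 1)), by positivity, by field_simp⟩
  have hAη := mul_nonneg hA hη.le
  have h12 : η ≤ 1 / 12 := by linarith only [hκ1, e, hAη]
  have hb : 1 - κ / 4 ≤ (1 - 3 * η) ^ A := by
    have := one_add_mul_le_pow (a := -(3 * η)) (by linarith only [hκ1, hη, e, hAη]) A
    rw [← sub_eq_add_neg] at this
    linarith only [hη, e, this]
  refine ⟨η, hη, ⌈4 / η⌉₊, fun n0 B c Q W t N h D h1 h2 h3 h4 h5 => ?_⟩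
  obtain ⟨m, rfl⟩ : ∃ m, n0 = N + m := ⟨n0 - N, by omega⟩
  rw [Nat.add_sub_cancel_left] at h3 ⊢
  have m0 : (0 : ℝ) ≤ m := Nat.cast_nonneg m
  have k1 : 4 ≤ η * m := by
    have : 4 / η ≤ m := (Nat.le_ceil _).trans (Nat.cast_le.2 (by omega))
    rwa [div_le_iff₀' hη] at this
  have k2 : η * m ≤ 1 / 12 * m := mul_le_mul_of_nonneg_right h12 m0
  have k3 : 2 * h + 3 ≤ m := by
    have : (2 * h + 3 : ℝ) ≤ m := by linarith only [h3, k1, k2]
    exact_mod_cast this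
  have k4 : 0 < ((1 - 3 * η) * m) ^ A := pow_pos (by linarith only [k1, k2]) A
  have k5 := W.iter (h + 1) t N (by omega) (D := D / ((1 - 3 * η) * m) ^ A) fun N' a b => by
    rw [le_div_iff₀ k4]
    refine le_trans (mul_le_mul_of_nonneg_left (pow_le_pow_left₀ (by linarith only [k1, k2]) ?_ A)
      (W.q01 _ _).1) (h5 (t + (h + 1)) N' a (by omega))
    have : m ≤ N + m - N' + (2 * h + 2) := by omega
    have : (m : ℝ) ≤ (N + m - N' : ℕ) + (2 * h + 2) := by exact_mod_cast this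
    linarith only [h3, k1, this]
  have k6 := k5.trans (mul_le_mul_of_nonneg_left (W.gain hκ h t N h2) (by positivity))
  rw [div_mul_eq_mul_div, le_div_iff₀ k4, mul_pow, mul_left_comm] at k6
  have k7 : 0 ≤ Q t N * (m : ℝ) ^ A := mul_nonneg (W.q01 _ _).1 (by positivity)
  have k8 := (mul_le_mul_of_nonneg_right hb k7).trans k6
  refine le_of_mul_le_mul_left (a := 1 - κ / 4) (k8.trans ?_) (by linarith only [hκ1])
  linarith only [h4, mul_nonneg (sq_nonneg κ) (zero_le_one.trans h4), sq_nonneg κ]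

theorem walk {κ : ℝ} (hκ : 0 < κ) (hκ1 : κ ≤ 1) (A : ℕ) : ∃ C : ℝ,
    ∀ (n0 : ℕ) (B : ℕ → ℕ → ℕ → Prop) (c Q : ℕ → ℕ → ℝ), WK κ n0 B c Q →
      ∀ t N, N < n0 → Q t N * ((n0 - N : ℕ) : ℝ) ^ A ≤ C := by
  obtain ⟨η, hη, m1, H1⟩ := walk_small hκ hκ1 A
  obtain ⟨m2, H2⟩ := walk_large hκ hκ1 hη A
  refine ⟨max 1 (((m1 + m2 : ℕ) : ℝ) ^ A), fun n0 B c Q W t0 N0 h0 => ?_⟩
  have le : ∀ t N (m : ℕ), n0 - N ≤ m → Q t N * ((n0 - N : ℕ) : ℝ) ^ A ≤ (m : ℝ) ^ A :=
    fun t N m h => (mul_le_of_le_one_left (by positivity) (W.q01 t N).2).trans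
      (pow_le_pow_left₀ (Nat.cast_nonneg _) (Nat.cast_le.2 h) A)
  set S : Set ℝ := {x | ∃ t N, N < n0 ∧ x = Q t N * ((n0 - N : ℕ) : ℝ) ^ A}
  have hb : BddAbove S := ⟨(n0 : ℝ) ^ A, by
    rintro _ ⟨t, N, -, rfl⟩
    exact le t N n0 (Nat.sub_le _ _)⟩
  have hs : ∀ t N, N < n0 → Q t N * ((n0 - N : ℕ) : ℝ) ^ A ≤ max 1 (sSup S) :=
    fun t N h => (le_csSup hb ⟨t, N, h, rfl⟩).trans (le_max_right _ _)
  have h1 : (1 : ℝ) ≤ max 1 (sSup S) := le_max_left _ _
  have key : sSup S ≤ max (((m1 + m2 : ℕ) : ℝ) ^ A) ((1 - κ / 4) * max 1 (sSup S)) := by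
    refine csSup_le ⟨_, t0, N0, h0, rfl⟩ ?_
    rintro _ ⟨t, N, hN, rfl⟩
    by_cases hm : N + (m1 + m2) ≤ n0
    swap
    · exact (le t N _ (by omega)).trans (le_max_left _ _)
    refine le_trans ?_ (le_max_right _ _)
    have ex : ∃ h, ¬ B t N h := ⟨n0, fun k => by have := W.ht t N n0 hN k; omega⟩
    by_cases hh : (Nat.find ex : ℝ) ≤ η * ((n0 - N : ℕ) : ℝ) + 1
    · exact H1 n0 B c Q W t N _ _ (by omega) (Nat.find_spec ex) hh h1 fun t' N' _ => hs t' N'
    · have hp : 0 ≤ η * ((n0 - N : ℕ) : ℝ) := by positivity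
      obtain ⟨h, e⟩ : ∃ h, Nat.find ex = h + 1 := Nat.exists_eq_succ_of_ne_zero fun e => by
        rw [e, Nat.cast_zero] at hh
        linarith only [hh, hp]
      have k1 := Nat.find_spec ex
      have k2 := not_not.1 (Nat.find_min ex (m := h) (by omega))
      rw [e] at k1 hh
      push_cast at hh
      refine (H2 n0 B c Q W t N h _ (by omega) k2 k1 (by linarith only [hh]) h1
        fun t' N' _ => hs t' N').trans (mul_le_mul_of_nonneg_right (by linarith only [hκ1]) (by linarith only [h1]))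
  refine (hs t0 N0 h0).trans (max_le (le_max_left _ _) ?_)
  rcases le_max_iff.1 key with k | k
  · exact k.trans (le_max_right _ _)
  · refine le_trans (not_lt.1 fun c => ?_) (le_max_left _ _)
    rw [max_eq_right c.le] at k
    linarith only [hκ, k, c, mul_pos_of_neg_of_neg (Mathlib.Tactic.Linarith.sub_neg_of_lt hκ) (Mathlib.Tactic.Linarith.sub_neg_of_lt c)]

end CzD
end
end

-- merged part: Pool.Agent.Work.MP_2efb47_nt.D.Blk
section
/-! Black points. Equalities in `ZMod (3 ^ n)` of integer casts are divisibilities (`ZMod.intCast_eq_intCast_iff_dvd_sub`).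
`Bl_next`: `3 ^ j x - 4 ^ (h + 1) x'` is divisible by `q` and of size at most `13 q / 20`, so it vanishes and `4 ^ (h + 1) ∣ x`.
`Bl_cluster`: `ω = 4 ^ h x0`, `¬ 4 ∣ x0`; `4 ^ (p + H) x - 3 ^ a x0 = u q` with `0 < 10 |u| ≤ 4 ^ p` (use `3 ^ b ≤ 4 ^ h`); for the two points `u' - 3 ^ (b - a) u` is divisible by `4 ^ (p + H)` and smaller, so zero, and `3 ^ (b - a) ≤ |u'| ≤ 4 ^ p`. -/

open Finset Filter Topology
open scoped Classical

noncomputable section
namespace CzD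

variable {n : ℕ} {ω : ZMod (3 ^ n)}

theorem blk_i2 (n : ℕ) : 2 * i2 n = 1 := by
  have : Nat.Coprime 2 (3 ^ n) := Nat.Coprime.pow_right n (by norm_num)
  simpa [i2] using ZMod.coe_mul_inv_eq_one 2 this

theorem blk_w (n t : ℕ) : 4 ^ t * (i2 n ^ 2) ^ t = 1 := by
  rw [← mul_pow, show (4 : ZMod (3 ^ n)) * i2 n ^ 2 = (2 * i2 n) ^ 2 by ring, blk_i2, one_pow,
    one_pow]

theorem blk_dvd {a b : ℤ} (h : (a : ZMod (3 ^ n)) = b) : (3 : ℤ) ^ n ∣ b - a := by
  simpa using (ZMod.intCast_eq_intCast_iff_dvd_sub a b (3 ^ n)).1 h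

theorem blk_cop (a b : ℕ) : IsCoprime ((4 : ℤ) ^ a) (3 ^ b) :=
  IsCoprime.pow ⟨1, -1, by norm_num⟩

theorem blk_pt {h p H a : ℕ} {x0 : ℤ} (e0 : ω = 4 ^ h * x0) (l0 : 20 * 4 ^ h * |x0| ≤ 3 ^ n)
    (n0 : ¬ 4 ∣ x0) (hp : 1 ≤ p) (ha : (3 : ℤ) ^ a ≤ 4 ^ h) (hB : Bl n (om n ω (h + p) a) H) :
    ∃ x u : ℤ, 4 ^ (p + H) * x - 3 ^ a * x0 = 3 ^ n * u ∧ u ≠ 0 ∧ 10 * |u| ≤ 4 ^ p := by
  obtain ⟨x, e, l⟩ := hB
  have e1 : ((3 ^ a * x0 : ℤ) : ZMod (3 ^ n)) = (4 ^ (p + H) * x : ℤ) := by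
    push_cast
    rw [pow_add, mul_assoc, ← e, om, e0]
    linear_combination (-(3 : ZMod (3 ^ n)) ^ a * x0) * blk_w n (h + p)
  obtain ⟨u, hu⟩ := blk_dvd e1
  refine ⟨x, u, hu, fun z => n0 ?_, ?_⟩
  · rw [z, mul_zero, sub_eq_zero] at hu
    have d : (4 : ℤ) ^ 1 ∣ 3 ^ a * x0 := hu ▸ (pow_dvd_pow 4 (by omega)).mul_right x
    simpa using (blk_cop 1 a).dvd_of_dvd_mul_left d
  · have q : (0 : ℤ) < 3 ^ n := by positivity
    have a1 := abs_sub (4 ^ (p + H) * x) (3 ^ a * x0)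
    rw [hu, abs_mul, abs_mul, abs_mul, abs_of_pos q, abs_of_pos (by positivity : (0 : ℤ) < 4 ^ (p + H)),
      abs_of_pos (by positivity : (0 : ℤ) < 3 ^ a), pow_add] at a1
    have a2 := mul_le_mul_of_nonneg_right ha (abs_nonneg x0)
    have a3 : (1 : ℤ) ≤ 4 ^ p := one_le_pow₀ (by norm_num)
    have a4 := mul_le_mul_of_nonneg_left l (zero_le_one.trans a3)
    have a5 := mul_le_mul_of_nonneg_right a3 q.le
    refine le_of_mul_le_mul_left ?_ q
    linarith only [l0, a1, a2, a4, a5]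

theorem Bl_next {h j : ℕ} (h0 : Bl n ω 0) (h1 : ¬ Bl n ω (h + 1)) (hj : j ≤ 2) :
    ¬ Bl n (om n ω 1 j) h := by
  rintro ⟨x', e', l'⟩
  obtain ⟨x, e, l⟩ := h0
  have e1 : ((3 ^ j * x : ℤ) : ZMod (3 ^ n)) = (4 ^ (h + 1) * x' : ℤ) := by
    push_cast
    rw [pow_succ', mul_assoc, ← e', om, e]
    linear_combination (-(3 : ZMod (3 ^ n)) ^ j * x) * blk_w n 1
  have q : (0 : ℤ) < 3 ^ n := by positivity
  have a1 := abs_sub (4 ^ (h + 1) * x') (3 ^ j * x)
  rw [abs_mul, abs_mul, abs_of_pos (by positivity : (0 : ℤ) < 4 ^ (h + 1)),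
    abs_of_pos (by positivity : (0 : ℤ) < 3 ^ j), pow_succ] at a1
  have a2 : (3 : ℤ) ^ j ≤ 3 ^ 2 := pow_le_pow_right₀ (by norm_num) hj
  have a3 := mul_le_mul_of_nonneg_right a2 (abs_nonneg x)
  have e2 := Int.eq_zero_of_abs_lt_dvd (blk_dvd e1) (by rw [pow_succ]; linarith only [l', l, q, a1, a3])
  obtain ⟨y, rfl⟩ : (4 : ℤ) ^ (h + 1) ∣ x :=
    (blk_cop (h + 1) j).dvd_of_dvd_mul_left ⟨x', by linarith only [e2]⟩
  refine h1 ⟨y, by simpa using e, ?_⟩
  rw [abs_mul, abs_of_pos (by positivity : (0 : ℤ) < 4 ^ (h + 1))] at l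
  linarith

theorem Bl_height {m h : ℕ} (hl : Lev n m ω) (h1 : 1 ≤ m) (h2 : m ≤ n) (hB : Bl n ω h) :
    5 * h ≤ 4 * m := by
  obtain ⟨u, hu, e⟩ := hl
  obtain ⟨x, e', l⟩ := hB
  obtain ⟨k, rfl⟩ := Nat.exists_eq_add_of_le h2
  rw [Nat.add_sub_cancel_left] at e
  have q0 : (3 : ZMod (3 ^ (m + k))) ^ (m + k) = 0 := by
    exact_mod_cast ZMod.natCast_self (3 ^ (m + k))
  have x0 : x ≠ 0 := fun z => by
    rw [z, e, Int.cast_zero, mul_zero, hu.mul_left_eq_zero] at e'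
    have d : 3 ^ (m + k) ∣ 3 ^ k := (ZMod.natCast_eq_zero_iff _ _).1 (by simpa using e')
    have := (Nat.pow_dvd_pow_iff_le_right (by norm_num)).1 d
    omega
  have e1 : ((0 : ℤ) : ZMod (3 ^ (m + k))) = (3 ^ m * (4 ^ h * x) : ℤ) := by
    push_cast
    rw [← e', e, ← mul_assoc, ← pow_add, q0, zero_mul]
  have d := blk_dvd e1
  rw [sub_zero, pow_add, mul_dvd_mul_iff_left (by positivity)] at d
  have d2 := Int.le_abs_of_dvd x0 ((blk_cop h k).symm.dvd_of_dvd_mul_left d)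
  have a1 : (4 : ℤ) ^ h ≤ 3 ^ m := by
    have q : (0 : ℤ) < 3 ^ k := by positivity
    have q' : (0 : ℤ) < 4 ^ h := by positivity
    have := mul_le_mul_of_nonneg_left d2 q'.le
    rw [pow_add] at l
    refine le_of_mul_le_mul_right ?_ q
    linarith only [l, this, q', q, mul_pos q' q]
  have a2 : (4 : ℤ) ^ (5 * h) ≤ 4 ^ (4 * m) := by
    calc (4 : ℤ) ^ (5 * h) = (4 ^ h) ^ 5 := by rw [← pow_mul, mul_comm]
      _ ≤ (3 ^ m) ^ 5 := pow_le_pow_left₀ (by positivity) a1 5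
      _ = 243 ^ m := by rw [← pow_mul, mul_comm, pow_mul]; norm_num
      _ ≤ 256 ^ m := pow_le_pow_left₀ (by norm_num) (by norm_num) m
      _ = 4 ^ (4 * m) := by rw [pow_mul]; norm_num
  exact (pow_le_pow_iff_right₀ (by norm_num)).1 a2

theorem Bl_cluster {h p H a b : ℕ} (h0 : Bl n ω h) (h1 : ¬ Bl n ω (h + 1)) (hp : 1 ≤ p)
    (hab : a < b) (hb : 4 * b ≤ 5 * h) (ha' : Bl n (om n ω (h + p) a) H)
    (hb' : Bl n (om n ω (h + p) b) H) (hH : b - a ≤ H) : b - a ≤ 2 * p := by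
  obtain ⟨x0, e0, l0⟩ := h0
  have n0 : ¬ 4 ∣ x0 := by
    rintro ⟨y, rfl⟩
    refine h1 ⟨y, by rw [e0]; push_cast; ring, ?_⟩
    rw [abs_mul, abs_of_pos (by norm_num : (0 : ℤ) < 4)] at l0
    rw [pow_succ]
    linarith only [l0]
  have b1 : (3 : ℤ) ^ b ≤ 4 ^ h := by
    refine le_of_pow_le_pow_left₀ (n := 4) (by norm_num) (by positivity) ?_
    calc ((3 : ℤ) ^ b) ^ 4 = 3 ^ (4 * b) := by rw [← pow_mul, mul_comm]
      _ ≤ 3 ^ (5 * h) := pow_le_pow_right₀ (by norm_num) hb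
      _ = 243 ^ h := by rw [pow_mul]; norm_num
      _ ≤ 256 ^ h := pow_le_pow_left₀ (by norm_num) (by norm_num) h
      _ = (4 ^ h) ^ 4 := by rw [← pow_mul, mul_comm, pow_mul]; norm_num
  obtain ⟨x, u, e, u0, l⟩ := blk_pt e0 l0 n0 hp
    ((pow_le_pow_right₀ (by norm_num) hab.le).trans b1) ha'
  obtain ⟨x', u', e', -, l'⟩ := blk_pt e0 l0 n0 hp b1 hb'
  obtain ⟨d, rfl⟩ := Nat.exists_eq_add_of_le hab.le
  rw [Nat.add_sub_cancel_left] at hH ⊢
  have d1 : (4 : ℤ) ^ (p + H) ∣ u' - 3 ^ d * u :=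
    (blk_cop (p + H) n).dvd_of_dvd_mul_left ⟨x' - 3 ^ d * x, by
      rw [pow_add 3 a d] at e'
      linear_combination (3 : ℤ) ^ d * e - e'⟩
  have q : (0 : ℤ) < 3 ^ d := by positivity
  have q1 : (1 : ℤ) ≤ 4 ^ H := one_le_pow₀ (by norm_num)
  have q2 : (0 : ℤ) < 4 ^ p := by positivity
  have a0 : (3 : ℤ) ^ d ≤ 4 ^ H :=
    (pow_le_pow_left₀ (by norm_num) (by norm_num) d).trans (pow_le_pow_right₀ (by norm_num) hH)
  have a1 := abs_sub u' (3 ^ d * u)
  rw [abs_mul, abs_of_pos q] at a1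
  have a2 := mul_le_mul a0 l (by positivity) (by positivity)
  have a3 := mul_le_mul_of_nonneg_left q1 q2.le
  have e2 := Int.eq_zero_of_abs_lt_dvd d1 (by rw [pow_add]; linarith only [l', q2, a1, a2, a3])
  rw [sub_eq_zero.1 e2, abs_mul, abs_of_pos q] at l'
  have a4 := mul_le_mul_of_nonneg_left (Int.one_le_abs u0) q.le
  have a5 : (4 : ℤ) ^ p ≤ 3 ^ (2 * p) := by
    rw [pow_mul]
    exact pow_le_pow_left₀ (by norm_num) (by norm_num) p
  exact (pow_le_pow_iff_right₀ (by norm_num : (1 : ℤ) < 3)).1 (by linarith only [l', q, a4, a5])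

theorem om_om (ω : ZMod (3 ^ n)) (t N t' N' : ℕ) :
    om n (om n ω t N) t' N' = om n ω (t + t') (N + N') := by
  simp only [om, pow_add]
  ring

theorem Lev.om {m : ℕ} (hl : Lev n m ω) (hm : m ≤ n) (t : ℕ) {N : ℕ} (hN : N ≤ m) :
    Lev n (m - N) (om n ω t N) := by
  obtain ⟨u, hu, e⟩ := hl
  have i : IsUnit (i2 n) := IsUnit.of_mul_eq_one_right 2 (blk_i2 n)
  refine ⟨(i2 n ^ 2) ^ t * u, ((i.pow 2).pow t).mul hu, ?_⟩
  rw [CzD.om, e, show n - (m - N) = N + (n - m) by omega, pow_add]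
  ring

end CzD
end
end

-- merged part: Pool.Agent.Work.MP_2efb47_nt.D.Phi
section
/-! The characteristic function. `cc_lt`: `x = ω.valMinAbs`, `20 |x| > q`, `2 |x| ≤ q`, `‖1 + exp (i θ)‖ ^ 2 = 2 + 2 cos θ`.
`Ph_two`: `sum_allB_succ` twice (`sum_filter`); the four first pairs of bits give the phases `1`, `e(ω)`, `e(2 ω)`, `e(5 ω)` since `4 * i2 n ^ (L + 2) = i2 n ^ L` and `2 ^ L * i2 n ^ L = 1`. -/

open Finset Filter Topology
open scoped Classical

noncomputable section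
namespace CzD

theorem phi_norm (n : ℕ) (a : ZMod (3 ^ n)) : ‖(ZMod.stdAddChar a : ℂ)‖ = 1 := by
  rw [ZMod.stdAddChar_apply]
  exact Circle.norm_coe _

theorem phi_sq (θ : ℝ) : ‖(1 : ℂ) + Complex.exp (θ * Complex.I)‖ ^ 2 = 2 + 2 * Real.cos θ := by
  rw [Complex.sq_norm, Complex.normSq_apply]
  simp only [Complex.add_re, Complex.one_re, Complex.exp_ofReal_mul_I_re, Complex.add_im,
    Complex.one_im, Complex.exp_ofReal_mul_I_im]
  nlinarith [Real.sin_sq_add_cos_sq θ]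

theorem phi_pow (n L : ℕ) : (2 : ZMod (3 ^ n)) ^ L * i2 n ^ L = 1 := by
  rw [← mul_pow, two_i2, one_pow]

theorem phi_four (n L : ℕ) : 4 * i2 n ^ (L + 2) = i2 n ^ L := by
  have h := phi_pow n 2
  calc 4 * i2 n ^ (L + 2) = (2 ^ 2 * i2 n ^ 2) * i2 n ^ L := by ring
    _ = i2 n ^ L := by rw [h, one_mul]

theorem phi_phase (n L : ℕ) (ω : ZMod (3 ^ n)) (a b r : ℕ) :
    (ZMod.stdAddChar (4 * ω * ((a * 2 ^ L + b * r : ℕ) : ZMod (3 ^ n)) * i2 n ^ (L + 2)) : ℂ) =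
      ZMod.stdAddChar ((a : ZMod (3 ^ n)) * ω) *
        ZMod.stdAddChar ((b : ZMod (3 ^ n)) * ω * (r : ZMod (3 ^ n)) * i2 n ^ L) := by
  rw [← AddChar.map_add_eq_mul]
  have h1 := phi_pow n L
  have h2 := phi_four n L
  have : 4 * ω * ((a * 2 ^ L + b * r : ℕ) : ZMod (3 ^ n)) * i2 n ^ (L + 2) =
      (a : ZMod (3 ^ n)) * ω + (b : ZMod (3 ^ n)) * ω * (r : ZMod (3 ^ n)) * i2 n ^ L := by
    push_cast
    linear_combination (ω * ((a : ZMod (3 ^ n)) * 2 ^ L + b * r)) * h2 + (a : ZMod (3 ^ n)) * ω * h1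
  rw [this]

theorem phi_eq (n L : ℕ) (ω : ZMod (3 ^ n)) (k : ℕ) : Ph n (L + 2) (4 * ω) (k + 2) =
    1 / 4 * Ph n L ω (k + 2) +
      1 / 4 * (ZMod.stdAddChar ω * (1 + ZMod.stdAddChar ω)) * Ph n L (3 * ω) (k + 1) +
      1 / 4 * ZMod.stdAddChar (5 * ω) * Ph n L (9 * ω) k := by
  have key : ∑ β ∈ (allB (L + 2)).filter (fun β => cn β = k + 2),
      (ZMod.stdAddChar (4 * ω * (rr β : ZMod (3 ^ n)) * i2 n ^ (L + 2)) : ℂ) =
      ∑ β ∈ (allB L).filter (fun β => cn β = k + 2),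
        (ZMod.stdAddChar (ω * (rr β : ZMod (3 ^ n)) * i2 n ^ L) : ℂ) +
      (ZMod.stdAddChar ω * (1 + ZMod.stdAddChar ω)) *
        ∑ β ∈ (allB L).filter (fun β => cn β = k + 1),
          (ZMod.stdAddChar (3 * ω * (rr β : ZMod (3 ^ n)) * i2 n ^ L) : ℂ) +
      ZMod.stdAddChar (5 * ω) * ∑ β ∈ (allB L).filter (fun β => cn β = k),
          (ZMod.stdAddChar (9 * ω * (rr β : ZMod (3 ^ n)) * i2 n ^ L) : ℂ) := by
    simp only [sum_filter]
    rw [sum_allB_succ, sum_allB_succ, mul_sum, mul_sum, ← sum_add_distrib, ← sum_add_distrib]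
    refine sum_congr rfl fun β hβ => ?_
    have hl : β.length = L := mem_allB.1 hβ
    have c1 : cn (false :: false :: β) = cn β := by simp [cn]
    have c2 : cn (true :: false :: β) = cn β + 1 := by simp [cn]
    have c3 : cn (false :: true :: β) = cn β + 1 := by simp [cn]
    have c4 : cn (true :: true :: β) = cn β + 2 := by simp [cn]
    have r1 : rr (false :: false :: β) = 0 * 2 ^ L + 1 * rr β := by simp [rr]
    have r2 : rr (true :: false :: β) = 2 * 2 ^ L + 3 * rr β := by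
      simp only [rr, List.length_cons, hl]; ring
    have r3 : rr (false :: true :: β) = 1 * 2 ^ L + 3 * rr β := by
      simp only [rr, hl]; ring
    have r4 : rr (true :: true :: β) = 5 * 2 ^ L + 9 * rr β := by
      simp only [rr, List.length_cons, hl]; ring
    have e2 : (ZMod.stdAddChar (2 * ω) : ℂ) = ZMod.stdAddChar ω * ZMod.stdAddChar ω := by
      rw [two_mul, AddChar.map_add_eq_mul]
    rw [c1, c2, c3, c4, r1, r2, r3, r4, phi_phase, phi_phase, phi_phase, phi_phase]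
    simp only [Nat.cast_zero, Nat.cast_one, Nat.cast_ofNat, zero_mul, one_mul, AddChar.map_zero_eq_one, e2]
    have i1 : (cn β + 1 = k + 2) ↔ (cn β = k + 1) := by omega
    have i2' : (cn β + 2 = k + 2) ↔ (cn β = k) := by omega
    simp only [i1, i2']
    split_ifs <;> ring
  unfold Ph
  rw [key]
  have h2 : (2 : ℂ) ^ L ≠ 0 := pow_ne_zero _ two_ne_zero
  field_simp
  ring

theorem cc_mem (n : ℕ) (ω : ZMod (3 ^ n)) : 0 ≤ cc n ω ∧ cc n ω ≤ 1 := by
  refine ⟨by unfold cc; positivity, ?_⟩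
  unfold cc
  have h := norm_add_le (1 : ℂ) (ZMod.stdAddChar ω : ℂ)
  rw [phi_norm, norm_one] at h
  linarith only [h]

theorem cc_lt : ∃ κ : ℝ, 0 < κ ∧ ∀ (n : ℕ) (ω : ZMod (3 ^ n)), ¬ Bl n ω 0 → cc n ω ≤ 1 - κ := by
  have hc : Real.cos (Real.pi / 10) < 1 := by
    have h := Real.cos_lt_cos_of_nonneg_of_le_pi (x := 0) (y := Real.pi / 10) le_rfl
      (by linarith only [Real.pi_pos]) (by linarith [Real.pi_pos])
    rwa [Real.cos_zero] at h
  refine ⟨(1 - Real.cos (Real.pi / 10)) / 4, by linarith, fun n ω hB => ?_⟩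
  set x : ℤ := ω.valMinAbs with hx
  have hω : ω = (x : ZMod (3 ^ n)) := (ZMod.coe_valMinAbs ω).symm
  have h1 : (3 : ℤ) ^ n < 20 * |x| := by
    by_contra h
    exact hB ⟨x, by simpa using hω, by simpa using not_lt.1 h⟩
  have h2 : 2 * |x| ≤ (3 : ℤ) ^ n := by
    have h := ZMod.natAbs_valMinAbs_le ω
    have h' : 2 * x.natAbs ≤ 3 ^ n := by rw [hx]; omega
    have h'' : ((2 * x.natAbs : ℕ) : ℤ) ≤ ((3 ^ n : ℕ) : ℤ) := by exact_mod_cast h'
    simpa using h''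
  have h1r : (3 : ℝ) ^ n < 20 * |(x : ℝ)| := by exact_mod_cast h1
  have h2r : 2 * |(x : ℝ)| ≤ (3 : ℝ) ^ n := by exact_mod_cast h2
  have hq : (0 : ℝ) < 3 ^ n := by positivity
  set θ : ℝ := 2 * Real.pi * x / 3 ^ n with hθ
  have he : (ZMod.stdAddChar ω : ℂ) = Complex.exp (θ * Complex.I) := by
    rw [hω, ZMod.stdAddChar_coe, hθ]
    push_cast
    ring_nf
  have habs : |θ| = 2 * Real.pi * |(x : ℝ)| / 3 ^ n := by
    rw [hθ, abs_div, abs_mul, abs_of_pos hq, abs_of_pos (by positivity : (0 : ℝ) < 2 * Real.pi)]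
  have hlo : Real.pi / 10 ≤ |θ| := by
    rw [habs, le_div_iff₀ hq]
    linarith only [h1r, Real.pi_pos, mul_pos_of_neg_of_neg (Mathlib.Tactic.Linarith.sub_neg_of_lt h1r) (Mathlib.Tactic.Linarith.sub_neg_of_lt Real.pi_pos)]
  have hhi : |θ| ≤ Real.pi := by
    rw [habs, div_le_iff₀ hq]
    linarith only [h2r, Real.pi_pos, mul_nonneg_of_nonpos_of_nonpos (Mathlib.Tactic.Linarith.sub_nonpos_of_le h2r) (le_of_lt (Mathlib.Tactic.Linarith.sub_neg_of_lt Real.pi_pos))]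
  have hcos : Real.cos θ ≤ Real.cos (Real.pi / 10) := by
    rw [← Real.cos_abs θ]
    exact Real.cos_le_cos_of_nonneg_of_le_pi (by positivity) hhi hlo
  have hs := phi_sq θ
  unfold cc
  rw [he]
  linarith only [hcos, hs, sq_nonneg (‖(1 : ℂ) + Complex.exp (θ * Complex.I)‖ - 2), sq_nonneg (‖(1 : ℂ) + Complex.exp (↑θ * Complex.I)‖ - (2 : ℝ))]

theorem Ph_le (n L : ℕ) (ξ : ZMod (3 ^ n)) (k : ℕ) : ‖Ph n L ξ k‖ ≤ 1 := by
  unfold Ph
  rw [norm_div, norm_pow, Complex.norm_ofNat, div_le_one (by positivity)]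
  refine (norm_sum_le _ _).trans ?_
  simp only [phi_norm, sum_const, nsmul_eq_mul, mul_one]
  have h := card_filter_le (allB L) (fun β => cn β = k)
  rw [card_allB] at h
  exact_mod_cast h

theorem Ph_zero (n : ℕ) {L k : ℕ} (ξ : ZMod (3 ^ n)) (h : L < k) : Ph n L ξ k = 0 := by
  unfold Ph
  rw [filter_eq_empty_iff.2, sum_empty, zero_div]
  intro β hβ hc
  have h1 := cn_le β
  have h2 := mem_allB.1 hβ
  omega

theorem Ph_two (n L : ℕ) (ω : ZMod (3 ^ n)) (k : ℕ) : ‖Ph n (L + 2) (4 * ω) (k + 2)‖ ≤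
    1 / 4 * ‖Ph n L ω (k + 2)‖ + 1 / 2 * cc n ω * ‖Ph n L (3 * ω) (k + 1)‖ +
      1 / 4 * ‖Ph n L (9 * ω) k‖ := by
  rw [phi_eq]
  refine (norm_add₃_le).trans (le_of_eq ?_)
  simp only [norm_mul, norm_div, norm_one, Complex.norm_ofNat, phi_norm, cc]
  ring

end CzD
end
end

-- merged part: Pool.Agent.Work.MP_2efb47_nt.D.Dec
section
/-! Decay of the characteristic function: `walk` for `n0 = m`, `ω = ξ / 4`, `B t N = Bl n (om n ω t N)`, `Q t N = ⨆ L, ‖Ph n L (4 * om n ω t N) (m - 1 - N)‖`. -/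

open Finset Filter Topology
open scoped Classical

noncomputable section
namespace CzD

theorem dec_i2 (n : ℕ) : 4 * i2 n ^ 2 = 1 := by
  have h : (2 : ZMod (3 ^ n)) * i2 n = 1 := by
    have := ZMod.coe_mul_inv_eq_one (n := 3 ^ n) 2 (Nat.Coprime.pow_right n (by norm_num))
    simpa [i2] using this
  calc 4 * i2 n ^ 2 = (2 * i2 n) ^ 2 := by ring
    _ = 1 := by rw [h, one_pow]

theorem dec_om (n : ℕ) (ω : ZMod (3 ^ n)) (t N j : ℕ) :
    4 * om n ω (t + 1) (N + j) = 3 ^ j * om n ω t N := by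
  unfold om
  calc 4 * (3 ^ (N + j) * (i2 n ^ 2) ^ (t + 1) * ω)
      = (4 * i2 n ^ 2) * (3 ^ j * (3 ^ N * (i2 n ^ 2) ^ t * ω)) := by ring
    _ = _ := by rw [dec_i2, one_mul]

theorem dec_le (n L : ℕ) (ξ : ZMod (3 ^ n)) (k : ℕ) : ‖Ph n L ξ k‖ ≤ ⨆ L, ‖Ph n L ξ k‖ :=
  le_ciSup (f := fun L => ‖Ph n L ξ k‖) ⟨1, by
    rintro _ ⟨L, rfl⟩
    exact Ph_le n L ξ k⟩ L

theorem dec_wk {κ : ℝ} (hκ : ∀ (n : ℕ) (ω : ZMod (3 ^ n)), ¬ Bl n ω 0 → cc n ω ≤ 1 - κ)
    {n m : ℕ} {ω : ZMod (3 ^ n)} (hm : m ≤ n) (hl : Lev n m ω) :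
    WK (min κ 1) m (fun t N => Bl n (om n ω t N)) (fun t N => cc n (om n ω t N))
      fun t N => ⨆ L, ‖Ph n L (4 * om n ω t N) (m - 1 - N)‖ := by
  have q0 : ∀ (ξ : ZMod (3 ^ n)) (k : ℕ), 0 ≤ ⨆ L, ‖Ph n L ξ k‖ := fun ξ k =>
    Real.iSup_nonneg fun _ => norm_nonneg _
  refine ⟨fun t N => ⟨q0 _ _, ciSup_le fun L => Ph_le _ _ _ _⟩, fun t N => cc_mem _ _,
    fun t N h => (hκ _ _ h).trans (by linarith only [min_le_left κ 1]), fun t N h => ?_,
    fun t N h j h0 h1 hj => ?_, fun t N h hN hB => ?_,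
    fun t N h p H a b h0 h1 hp hab hb ha' hb' hH => ?_⟩
  · obtain ⟨j, e⟩ : ∃ j, m - 1 - N = j + 2 := ⟨m - 3 - N, by omega⟩
    have e1 : m - 1 - (N + 1) = j + 1 := by omega
    have e2 : m - 1 - (N + 2) = j := by omega
    have c0 := (cc_mem n (om n ω t N)).1
    have f0 := dec_om n ω t N 0
    have f1 := dec_om n ω t N 1
    have f2 := dec_om n ω t N 2
    rw [add_zero, pow_zero, one_mul] at f0
    rw [pow_one] at f1
    rw [show (3 : ZMod (3 ^ n)) ^ 2 = 9 by norm_num] at f2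
    rw [e, e1, e2, f0, f1, f2]
    refine ciSup_le fun L => ?_
    by_cases hL : L < 2
    · rw [Ph_zero n _ (show L < j + 2 by omega), norm_zero]
      have := q0 (om n ω t N) (j + 2)
      have := q0 (3 * om n ω t N) (j + 1)
      have := q0 (9 * om n ω t N) j
      positivity
    · obtain ⟨L, rfl⟩ : ∃ L', L = L' + 2 := ⟨L - 2, by omega⟩
      refine (Ph_two n L _ j).trans (add_le_add (add_le_add ?_ ?_) ?_)
      · exact mul_le_mul_of_nonneg_left (dec_le _ _ _ _) (by norm_num)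
      · exact mul_le_mul_of_nonneg_left (dec_le _ _ _ _) (by positivity)
      · exact mul_le_mul_of_nonneg_left (dec_le _ _ _ _) (by norm_num)
  · have := Bl_next h0 h1 hj
    rwa [om_om] at this
  · exact Bl_height (hl.om hm t hN.le) (by omega) (by omega) hB
  · rw [← om_om] at ha' hb'
    exact Bl_cluster h0 h1 hp hab hb ha' hb' hH

theorem dec (A : ℕ) : ∃ C : ℝ, 0 < C ∧ ∀ (n k L : ℕ) (ξ : ZMod (3 ^ n)), k + 1 ≤ n →
    Lev n (k + 1) ξ → ‖Ph n L ξ k‖ ≤ C / ((k : ℝ) + 1) ^ A := by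
  obtain ⟨κ, h0, hκ⟩ := cc_lt
  obtain ⟨C, hC⟩ := walk (lt_min h0 one_pos) (min_le_right κ 1) A
  refine ⟨max C 1, lt_max_of_lt_right one_pos, fun n k L ξ hk hl => ?_⟩
  have h1 := hC _ _ _ _ (dec_wk hκ hk (hl.om hk 1 (Nat.zero_le _))) 0 0 (by omega)
  have e : 4 * om n (om n ξ 1 0) 0 0 = ξ := by
    rw [om_om, dec_om n ξ 0 0 0]
    simp [om]
  simp only [e, Nat.sub_zero, Nat.add_sub_cancel, Nat.cast_add, Nat.cast_one] at h1
  rw [le_div_iff₀ (by positivity)]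
  exact (mul_le_mul_of_nonneg_right (dec_le n L ξ k) (by positivity)).trans
    (h1.trans (le_max_left _ _))

end CzD
end
end

-- merged part: Pool.Agent.Work.MP_2efb47_nt.D.Mix1
section
/-! Fine scale mixing. `mix_one`: `M = L ^ (A + 1)`, `q = 3 ^ (k + 1)`, `L1` least with `q ≤ M 2 ^ (L1 + 1)`, so `q / 2 ^ L1 ≤ 2 M` and `L1 = 0` or `M 2 ^ L1 < q`; `100 k ≤ 53 L` gives `L1 ≤ 17 L / 20` (`3 ^ 5 ≤ 2 ^ 8`), `L2 = L - L1`. Split the paths `β ++ β'` (`sum_allB_add`) in three groups: `q ≤ rr β` (`card_rr_gt`, `av_paths`; empty if `L1 = 0`), `cn β' ≤ L2 / 3` (`Ex_tail`, `av_paths`), the rest by `k1 = cn β` (`core`, `dec` with exponent `2 A + 2`, `k2 ≥ L / 20`). -/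

open Finset Filter Topology
open scoped Classical

noncomputable section
namespace CzD

theorem mx1_add (φ ψ : ℤ → ℝ) (n : ℕ) :
    av n (fun w => φ w + ψ w) = av n φ + av n ψ := by
  simp only [av, sum_add_distrib, add_div]

theorem mx1_one {γ : List Bool} {k : ℕ} (h : cn γ = k) :
    av (k + 1) (fun w => |tm γ h0 w|) ≤ 2 / 2 ^ γ.length := by
  have p : Per 1 (fun w => |h0 w|) := fun w => by simp only [per_h0 w]
  have e := p.av_tm γ
  rw [h, add_comm] at e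
  simp only [tm_abs]
  rw [e]
  exact div_le_div_of_nonneg_right av_h0 (by positivity)

theorem mx1_geo {ρ : ℝ} (h0 : 0 < ρ) (h1 : ρ < 1) (A : ℕ) :
    ∃ C : ℝ, ∀ n : ℕ, (n : ℝ) ^ A * ρ ^ n ≤ C := by
  have := (tendsto_pow_const_mul_const_pow_of_abs_lt_one A
    (show |ρ| < 1 by rwa [abs_of_pos h0])).bddAbove_range
  obtain ⟨C, hC⟩ := this
  exact ⟨C, fun n => hC ⟨n, rfl⟩⟩

/-- the pointwise splitting -/
theorem mx1_split (L1 L2 k q : ℕ) (w : ℤ) :
    |HH (L1 + L2) k w| ≤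
      (∑ β ∈ allB L1, ∑ β' ∈ allB L2, (ind (q ≤ rr β) + ind (3 * cn β' ≤ L2)) *
        (ind (cn (β ++ β') = k) * |tm (β ++ β') h0 w|)) +
      ∑ k1 ∈ range (k + 1), ind (L2 < 3 * (k - k1)) *
        |∑ β ∈ (allB L1).filter (fun β => cn β = k1 ∧ rr β < q),
          ∑ β' ∈ (allB L2).filter (fun β' => cn β' = k - k1), tm (β ++ β') h0 w| := by
  have e : HH (L1 + L2) k w =
      (∑ β ∈ allB L1, ∑ β' ∈ allB L2, ind (q ≤ rr β ∨ 3 * cn β' ≤ L2) *
        (ind (cn (β ++ β') = k) * tm (β ++ β') h0 w)) +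
      ∑ k1 ∈ range (k + 1), ind (L2 < 3 * (k - k1)) *
        ∑ β ∈ (allB L1).filter (fun β => cn β = k1 ∧ rr β < q),
          ∑ β' ∈ (allB L2).filter (fun β' => cn β' = k - k1), tm (β ++ β') h0 w := by
    rw [HH, sum_filter, sum_allB_add]
    simp only [sum_filter, mul_sum]
    have e2 : ∀ k1 β, (if cn β = k1 ∧ rr β < q then
        ∑ β' ∈ allB L2, if cn β' = k - k1 then tm (β ++ β') h0 w else 0 else 0) =
        ∑ β' ∈ allB L2, if cn β = k1 ∧ rr β < q then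
          (if cn β' = k - k1 then tm (β ++ β') h0 w else 0) else 0 := fun k1 β => by
      split_ifs <;> simp
    simp only [e2, mul_sum]
    rw [sum_comm (s := range (k + 1)), ← sum_add_distrib]
    refine sum_congr rfl fun β _ => ?_
    rw [sum_comm (s := range (k + 1)), ← sum_add_distrib]
    refine sum_congr rfl fun β' _ => ?_
    rw [cn_append, sum_eq_single (cn β)]
    · by_cases hk : cn β + cn β' = k
      · have hk' : cn β' = k - cn β := by omega
        rw [← hk']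
        by_cases h1 : rr β < q <;> by_cases h2 : L2 < 3 * cn β' <;>
          simp [ind, hk, h1, h2, not_lt.1, not_le.2]
      · by_cases hk' : cn β' = k - cn β
        · have h3 : cn β' = 0 := by omega
          rw [← hk']
          simp [ind, h3]
        · simp [ind, hk, hk']
    · intro k1 _ h
      simp [Ne.symm h]
    · intro h
      have h3 : k - cn β = 0 := by
        rw [mem_range] at h
        omega
      simp [ind, h3]
  rw [e]
  refine (abs_add_le _ _).trans (add_le_add ?_ ?_)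
  · refine (abs_sum_le_sum_abs _ _).trans (sum_le_sum fun β _ => ?_)
    refine (abs_sum_le_sum_abs _ _).trans (sum_le_sum fun β' _ => ?_)
    have := abs_nonneg (tm (β ++ β') h0 w)
    rw [abs_mul, abs_mul]
    unfold ind
    split_ifs <;> first | (simp; done) | (simp; linarith) | (exfalso; tauto)
  · refine (abs_sum_le_sum_abs _ _).trans (sum_le_sum fun k1 _ => ?_)
    rw [abs_mul]
    unfold ind
    split_ifs <;> simp

theorem mx1_bad (L1 L2 k q : ℕ) :
    av (k + 1) (fun w => ∑ β ∈ allB L1, ∑ β' ∈ allB L2, (ind (q ≤ rr β) + ind (3 * cn β' ≤ L2)) *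
        (ind (cn (β ++ β') = k) * |tm (β ++ β') h0 w|)) ≤
      2 * (((allB L1).filter fun β => q ≤ rr β).card / 2 ^ L1 +
        Ex L2 (fun j => ind (3 * j ≤ L2))) := by
  have i0 : ∀ p : Prop, 0 ≤ ind p := fun p => by unfold ind; split_ifs <;> norm_num
  rw [av_sum]
  simp only [av_sum, av_mul]
  refine (sum_le_sum fun β hβ => sum_le_sum fun β' hβ' =>
    mul_le_mul_of_nonneg_left (c := 2 / 2 ^ (L1 + L2)) ?_ (add_nonneg (i0 _) (i0 _))).trans (le_of_eq ?_)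
  · unfold ind
    split_ifs with h
    · have := mx1_one h
      rwa [List.length_append, mem_allB.1 hβ, mem_allB.1 hβ', ← one_mul (av _ _)] at this
    · rw [zero_mul]; positivity
  · have e : (((allB L1).filter fun β => q ≤ rr β).card : ℝ) = ∑ β ∈ allB L1, ind (q ≤ rr β) := by
      rw [card_filter]
      push_cast
      exact sum_congr rfl fun β _ => by unfold ind; split_ifs <;> rfl
    simp only [add_mul, sum_add_distrib, sum_const, card_allB, ← sum_mul, nsmul_eq_mul, ← mul_sum,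
      Ex, e]
    push_cast
    rw [pow_add]
    field_simp

theorem mx1_good {A : ℕ} {C : ℝ} (hC : 0 < C)
    (hd : ∀ (n k L : ℕ) (ξ : ZMod (3 ^ n)), k + 1 ≤ n → Lev n (k + 1) ξ →
      ‖Ph n L ξ k‖ ≤ C / ((k : ℝ) + 1) ^ (2 * A + 2))
    {L L1 L2 k1 k2 : ℕ} (hL : 1 ≤ L) (h2 : 3 * L ≤ 20 * L2) (hk : L2 < 3 * k2)
    (hq : 3 ^ (k1 + k2 + 1) ≤ L ^ (A + 1) * 2 ^ (L1 + 1)) :
    av (k1 + k2 + 1) (fun w =>
      |∑ β ∈ (allB L1).filter (fun β => cn β = k1 ∧ rr β < 3 ^ (k1 + k2 + 1)),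
        ∑ β' ∈ (allB L2).filter (fun β' => cn β' = k2), tm (β ++ β') h0 w|) ≤
      4 * C * 20 ^ (2 * A + 2) / (L : ℝ) ^ (A + 1) := by
  have hL' : (1 : ℝ) ≤ L := by exact_mod_cast hL
  have hM : (1 : ℝ) ≤ (L : ℝ) ^ (A + 1) := one_le_pow₀ hL'
  refine (core (L1 := L1) (δ := C / ((k2 : ℝ) + 1) ^ (2 * A + 2)) (fun β hβ => ?_) (by positivity)
    fun ξ hξ => hd _ _ _ ξ (by omega) hξ).trans ?_
  · rw [mem_filter, mem_allB] at hβ
    exact hβ
  have s : √((3 : ℝ) ^ (k1 + k2 + 1) / 2 ^ L1) ≤ 2 * (L : ℝ) ^ (A + 1) := by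
    have : (3 : ℝ) ^ (k1 + k2 + 1) / 2 ^ L1 ≤ 2 * (L : ℝ) ^ (A + 1) := by
      rw [div_le_iff₀ (by positivity)]
      have : (3 : ℝ) ^ (k1 + k2 + 1) ≤ (L : ℝ) ^ (A + 1) * 2 ^ (L1 + 1) := by exact_mod_cast hq
      rw [pow_succ 2 L1] at this
      linarith only [this]
    rw [Real.sqrt_le_left (by positivity)]
    linarith only [hM, this, mul_nonneg_of_nonpos_of_nonpos (Mathlib.Tactic.Linarith.sub_nonpos_of_le hM) (Mathlib.Tactic.Linarith.sub_nonpos_of_le hM)]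
  have d : C / ((k2 : ℝ) + 1) ^ (2 * A + 2) ≤ C * 20 ^ (2 * A + 2) / (L : ℝ) ^ (2 * A + 2) := by
    rw [div_le_div_iff₀ (by positivity) (by positivity), mul_assoc, ← mul_pow]
    refine mul_le_mul_of_nonneg_left (pow_le_pow_left₀ (by positivity) ?_ _) hC.le
    have : L ≤ 20 * (k2 + 1) := by omega
    exact_mod_cast this
  calc _ ≤ 2 * (C * 20 ^ (2 * A + 2) / (L : ℝ) ^ (2 * A + 2)) * (2 * (L : ℝ) ^ (A + 1)) := by
        gcongr
    _ = _ := by
        rw [show 2 * A + 2 = (A + 1) + (A + 1) by ring, pow_add (L : ℝ)]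
        field_simp
        ring

theorem mix_one (A : ℕ) : ∃ (C : ℝ) (L0 : ℕ), ∀ L k : ℕ, L0 ≤ L → 100 * k ≤ 53 * L →
    av (k + 1) (fun w => |HH L k w|) ≤ C / (L : ℝ) ^ A := by
  obtain ⟨C, hC, hd⟩ := dec (2 * A + 2)
  obtain ⟨ρ, r0, r1, hρ⟩ := Ex_tail (δ := 1 / 6) (by norm_num)
  obtain ⟨C2, hC2⟩ := mx1_geo r0 r1 A
  refine ⟨2 * (1 / 4 + 7 ^ A * C2) + 4 * C * 20 ^ (2 * A + 2), 800, fun L k hL hk => ?_⟩
  have hL' : (1 : ℝ) ≤ L := by exact_mod_cast (by omega : 1 ≤ L)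
  have hM : 1 ≤ L ^ (A + 1) := Nat.one_le_pow _ _ (by omega)
  have ex : ∃ j, 3 ^ (k + 1) ≤ L ^ (A + 1) * 2 ^ (j + 1) :=
    ⟨3 ^ (k + 1), (Nat.lt_two_pow_self.le.trans (Nat.pow_le_pow_right two_pos (Nat.le_succ _))).trans
      (Nat.le_mul_of_pos_left _ hM)⟩
  obtain ⟨L1, hq, hm⟩ : ∃ L1, 3 ^ (k + 1) ≤ L ^ (A + 1) * 2 ^ (L1 + 1) ∧
      (L1 = 0 ∨ L ^ (A + 1) * 2 ^ L1 < 3 ^ (k + 1)) := by
    refine ⟨Nat.find ex, Nat.find_spec ex, ?_⟩
    rcases e : Nat.find ex with _ | j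
    · exact Or.inl rfl
    · exact Or.inr (not_le.1 (Nat.find_min ex (by omega)))
  have h1 : 20 * L1 ≤ 17 * L := by
    rcases hm with h | h
    · omega
    · have a1 : 2 ^ L1 < 3 ^ (k + 1) := (Nat.le_mul_of_pos_left _ hM).trans_lt h
      have a2 : 2 ^ (L1 * 5) < 2 ^ (8 * (k + 1)) := by
        calc 2 ^ (L1 * 5) < (3 ^ (k + 1)) ^ 5 := by
              rw [pow_mul]; exact Nat.pow_lt_pow_left a1 (by norm_num)
          _ = (3 ^ 5) ^ (k + 1) := by rw [← pow_mul, ← pow_mul, mul_comm]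
          _ ≤ (2 ^ 8) ^ (k + 1) := Nat.pow_le_pow_left (by norm_num) _
          _ = _ := by rw [← pow_mul]
      have := (Nat.pow_lt_pow_iff_right one_lt_two).1 a2
      omega
  obtain ⟨L2, rfl⟩ : ∃ L2, L = L1 + L2 := ⟨L - L1, by omega⟩
  refine (av_mono (mx1_split L1 L2 k (3 ^ (k + 1))) _).trans ?_
  rw [mx1_add, add_div]
  set L := L1 + L2 with hLe
  have P : (0 : ℝ) < (L : ℝ) ^ A := by positivity
  refine add_le_add ((mx1_bad L1 L2 k _).trans ?_) ?_
  · rw [mul_div_assoc, add_div]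
    refine mul_le_mul_of_nonneg_left (add_le_add ?_ ?_) zero_le_two
    · have c1 := card_rr_gt L1 (M := (L : ℝ) ^ (A + 1)) (by positivity)
      have c2 : ((allB L1).filter fun β => 3 ^ (k + 1) ≤ rr β) ⊆
          (allB L1).filter fun β => (L : ℝ) ^ (A + 1) * 2 ^ L1 < rr β := by
        intro β hβ
        rw [mem_filter] at hβ ⊢
        refine ⟨hβ.1, ?_⟩
        rcases hm with h | h
        · have := mem_allB.1 hβ.1
          rw [h, List.length_eq_zero_iff] at this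
          have h3 := hβ.2
          rw [this] at h3
          exact absurd h3 (not_le.2 (by simp [rr]))
        · exact_mod_cast h.trans_le hβ.2
      rw [div_le_iff₀ (by positivity)]
      refine ((Nat.cast_le.2 (card_le_card c2)).trans c1).trans
        (mul_le_mul_of_nonneg_right ?_ (by positivity))
      have : (L1 : ℝ) ≤ L := by exact_mod_cast Nat.le_add_right L1 L2
      rw [div_le_div_iff₀ (by positivity) P, pow_succ]
      (refine le_of_not_gt fun h_nl => ?_; linarith only [h_nl, r0, r1, P, this, mul_pos_of_neg_of_neg (Mathlib.Tactic.Linarith.sub_neg_of_lt r0) (Mathlib.Tactic.Linarith.sub_neg_of_lt h_nl), mul_pos_of_neg_of_neg (Mathlib.Tactic.Linarith.sub_neg_of_lt r1) (Mathlib.Tactic.Linarith.sub_neg_of_lt h_nl), mul_nonneg_of_nonpos_of_nonpos (le_of_lt (Mathlib.Tactic.Linarith.sub_neg_of_lt P)) (Mathlib.Tactic.Linarith.sub_nonpos_of_le this)])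
    · have e : (fun j : ℕ => ind (3 * j ≤ L2)) = fun j : ℕ => ind ((j : ℝ) ≤ (1 / 2 - 1 / 6) * L2) := by
        funext j
        have : 3 * j ≤ L2 ↔ (j : ℝ) ≤ (1 / 2 - 1 / 6) * L2 := by
          rw [← Nat.cast_le (α := ℝ)]
          push_cast
          constructor <;> intro h <;> linarith only [h]
        rw [this]
      rw [e]
      refine (hρ L2).2.trans ?_
      rw [le_div_iff₀ P]
      have a1 : (L : ℝ) ^ A ≤ 7 ^ A * (L2 : ℝ) ^ A := by
        rw [← mul_pow]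
        refine pow_le_pow_left₀ (by positivity) ?_ _
        have : L ≤ 7 * L2 := by omega
        exact_mod_cast this
      calc ρ ^ L2 * (L : ℝ) ^ A ≤ ρ ^ L2 * (7 ^ A * (L2 : ℝ) ^ A) := by gcongr
        _ = 7 ^ A * ((L2 : ℝ) ^ A * ρ ^ L2) := by ring
        _ ≤ _ := by gcongr; exact hC2 L2
  · rw [av_sum]
    refine (sum_le_card_nsmul _ _ (4 * C * 20 ^ (2 * A + 2) / (L : ℝ) ^ (A + 1))
      fun k1 hk1 => ?_).trans ?_
    · rw [av_mul]
      unfold ind
      split_ifs with h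
      · obtain ⟨k2, rfl⟩ : ∃ k2, k = k1 + k2 := ⟨k - k1, by rw [mem_range] at hk1; omega⟩
        rw [Nat.add_sub_cancel_left] at h ⊢
        rw [one_mul]
        exact mx1_good hC hd (by omega) (by omega) h hq
      · rw [zero_mul]; positivity
    · rw [card_range, nsmul_eq_mul, pow_succ (L : ℝ) A]
      have : ((k + 1 : ℕ) : ℝ) ≤ L := by exact_mod_cast (by omega : k + 1 ≤ L)
      calc _ ≤ (L : ℝ) * (4 * C * 20 ^ (2 * A + 2) / ((L : ℝ) ^ A * L)) := by gcongr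
        _ = _ := by field_simp

end CzD
end
end

-- merged part: Pool.Agent.Work.MP_2efb47_nt.D.Mix
section
/-! Fine scale mixing, summed forms. `mix`: the `k` with `100 k > 53 L` by `av_paths` and `Ex_tail`. Small `L`: the sum is at most `2`. `mixF`: telescope with `FF_succ`, `Per.av_eq`. -/

open Finset Filter Topology
open scoped Classical

noncomputable section
namespace CzD

theorem mx2_nn (n : ℕ) (φ : ℤ → ℝ) : 0 ≤ av n (fun w => |φ w|) := by
  unfold av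
  exact div_nonneg (sum_nonneg fun _ _ => abs_nonneg _) (by positivity)

theorem mx2_k (L k : ℕ) : av (k + 1) (fun w => |HH L k w|) ≤
    2 * (((allB L).filter fun β => cn β = k).card / 2 ^ L) := by
  have h := (av_paths per_h0 (L := L) (n' := k + 1)
    (G := (allB L).filter fun β => cn β = k)
    (fun β hβ => mem_allB.1 (mem_filter.1 hβ).1)
    (fun β hβ => by have := (mem_filter.1 hβ).2; omega)).2.2
  have h2 := av_h0
  have h3 : (0 : ℝ) ≤ ((allB L).filter fun β => cn β = k).card / 2 ^ L := by positivity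
  calc av (k + 1) (fun w => |HH L k w|)
      ≤ ((allB L).filter fun β => cn β = k).card / 2 ^ L * av 1 (fun w => |h0 w|) := h
    _ ≤ ((allB L).filter fun β => cn β = k).card / 2 ^ L * 2 := mul_le_mul_of_nonneg_left h2 h3
    _ = _ := mul_comm _ _

theorem mx2_set (L : ℕ) (s : Finset ℕ) :
    ∑ k ∈ s, av (k + 1) (fun w => |HH L k w|) ≤
      2 * (((allB L).filter fun β => cn β ∈ s).card / 2 ^ L) := by
  have h : (((allB L).filter fun β => cn β ∈ s).card : ℝ) =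
      ∑ k ∈ s, (((allB L).filter fun β => cn β = k).card : ℝ) := by
    have := card_eq_sum_card_fiberwise (f := cn) (s := (allB L).filter fun β => cn β ∈ s) (t := s)
      (fun β hβ => (mem_filter.1 (mem_coe.1 hβ)).2)
    rw [this]
    push_cast
    refine sum_congr rfl fun k hk => ?_
    congr 2
    ext β
    simp only [mem_filter]
    constructor
    · rintro ⟨⟨a, _⟩, c⟩
      exact ⟨a, c⟩
    · rintro ⟨a, c⟩
      exact ⟨⟨a, c ▸ hk⟩, c⟩
  rw [h, sum_div, mul_sum]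
  exact sum_le_sum fun k _ => mx2_k L k

theorem mx2_two (L : ℕ) (s : Finset ℕ) :
    ∑ k ∈ s, av (k + 1) (fun w => |HH L k w|) ≤ 2 := by
  refine (mx2_set L s).trans ?_
  have h1 : (((allB L).filter fun β => cn β ∈ s).card : ℝ) ≤ 2 ^ L := by
    have := card_filter_le (allB L) (fun β => cn β ∈ s)
    rw [card_allB] at this
    exact_mod_cast this
  have h2 : (((allB L).filter fun β => cn β ∈ s).card : ℝ) / 2 ^ L ≤ 1 :=
    div_le_one_of_le₀ h1 (by positivity)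
  linarith only [h2]

theorem mx2_geo (A : ℕ) {ρ : ℝ} (h0 : 0 < ρ) (h1 : ρ < 1) :
    ∃ C : ℝ, 0 < C ∧ ∀ L : ℕ, 1 ≤ L → ρ ^ L ≤ C / (L : ℝ) ^ A := by
  have ht := tendsto_pow_const_mul_const_pow_of_abs_lt_one A (r := ρ) (by rwa [abs_of_pos h0])
  obtain ⟨C, hC⟩ := ht.bddAbove_range
  refine ⟨|C| + 1, by positivity, fun L hL => ?_⟩
  have hp : (0 : ℝ) < (L : ℝ) ^ A := by
    have : (0 : ℝ) < L := by exact_mod_cast hL
    positivity
  rw [le_div_iff₀ hp]
  have := hC ⟨L, rfl⟩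
  have h3 := le_abs_self C
  simp only at this
  linarith only [h0, h1, this, h3]

theorem mix (A : ℕ) : ∃ C : ℝ, 0 < C ∧ ∀ L : ℕ, 1 ≤ L →
    ∑ k ∈ range (L + 1), av (k + 1) (fun w => |HH L k w|) ≤ C / (L : ℝ) ^ A := by
  obtain ⟨C1, L0, h1⟩ := mix_one (A + 1)
  obtain ⟨ρ, hρ0, hρ1, hρ⟩ := Ex_tail (δ := 3 / 100) (by norm_num)
  obtain ⟨C2, hC2, h2⟩ := mx2_geo A hρ0 hρ1
  refine ⟨2 * |C1| + 2 * C2 + 2 * (L0 : ℝ) ^ A, by positivity, fun L hL => ?_⟩
  have hL0 : (0 : ℝ) < L := by exact_mod_cast hL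
  have hL1 : (1 : ℝ) ≤ L := by exact_mod_cast hL
  have hp : (0 : ℝ) < (L : ℝ) ^ A := by positivity
  by_cases hs : L < L0
  · refine (mx2_two L _).trans ?_
    rw [le_div_iff₀ hp]
    have : (L : ℝ) ^ A ≤ (L0 : ℝ) ^ A :=
      pow_le_pow_left₀ hL0.le (by exact_mod_cast hs.le) A
    have := abs_nonneg C1
    linarith
  · push Not at hs
    rw [← sum_filter_add_sum_filter_not (range (L + 1)) (fun k => 100 * k ≤ 53 * L)]
    have a1 : ∑ k ∈ (range (L + 1)).filter (fun k => 100 * k ≤ 53 * L),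
        av (k + 1) (fun w => |HH L k w|) ≤ 2 * |C1| / (L : ℝ) ^ A := by
      have b1 : ∑ k ∈ (range (L + 1)).filter (fun k => 100 * k ≤ 53 * L),
          av (k + 1) (fun w => |HH L k w|) ≤
          ((range (L + 1)).filter (fun k => 100 * k ≤ 53 * L)).card • (|C1| / (L : ℝ) ^ (A + 1)) := by
        refine sum_le_card_nsmul _ _ _ fun k hk => (h1 L k hs (mem_filter.1 hk).2).trans ?_
        exact div_le_div_of_nonneg_right (le_abs_self _) (by positivity)
      refine b1.trans ?_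
      rw [nsmul_eq_mul]
      have b2 : (((range (L + 1)).filter (fun k => 100 * k ≤ 53 * L)).card : ℝ) ≤ 2 * L := by
        have := card_filter_le (range (L + 1)) (fun k => 100 * k ≤ 53 * L)
        rw [card_range] at this
        have h5 : (((range (L + 1)).filter (fun k => 100 * k ≤ 53 * L)).card : ℝ) ≤ L + 1 := by
          exact_mod_cast this
        linarith only [hL1, h5]
      calc _ ≤ 2 * L * (|C1| / (L : ℝ) ^ (A + 1)) :=
            mul_le_mul_of_nonneg_right b2 (by positivity)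
        _ = 2 * |C1| / (L : ℝ) ^ A := by rw [pow_succ]; field_simp
    have a2 : ∑ k ∈ (range (L + 1)).filter (fun k => ¬ 100 * k ≤ 53 * L),
        av (k + 1) (fun w => |HH L k w|) ≤ 2 * C2 / (L : ℝ) ^ A := by
      refine (mx2_set L _).trans ?_
      have b1 := (hρ L).1
      rw [Ex_ind L (fun k => (1 / 2 + 3 / 100 : ℝ) * L ≤ k)] at b1
      have b2 : (((allB L).filter fun β => cn β ∈ (range (L + 1)).filter
          (fun k => ¬ 100 * k ≤ 53 * L)).card : ℝ) ≤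
          ((allB L).filter fun β => (1 / 2 + 3 / 100 : ℝ) * L ≤ (cn β : ℝ)).card := by
        refine Nat.cast_le.2 (card_le_card fun β hβ => ?_)
        simp only [mem_filter] at hβ ⊢
        refine ⟨hβ.1, ?_⟩
        have h6 : 53 * L ≤ 100 * cn β := by have := hβ.2.2; omega
        have h7 : (53 : ℝ) * L ≤ 100 * cn β := by exact_mod_cast h6
        linarith only [h7]
      have b3 := div_le_div_of_nonneg_right b2 (show (0 : ℝ) ≤ 2 ^ L by positivity)
      have b4 := h2 L hL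
      rw [mul_div_assoc]
      linarith only [b1, b3, b4]
    have a3 : (0 : ℝ) ≤ 2 * (L0 : ℝ) ^ A / (L : ℝ) ^ A := by positivity
    rw [add_div, add_div]
    linarith only [a1, a2, a3]

theorem mx2_step (L n : ℕ) (h : L + 1 ≤ n) :
    av n (fun w => |FF (L + 1) w - FF L w|) ≤
      ∑ k ∈ range (L + 1), av (k + 1) (fun w => |HH L k w|) := by
  have h1 : av n (fun w => |FF (L + 1) w - FF L w|) ≤
      av n (fun w => ∑ k ∈ range (L + 1), |HH L k w|) := by
    refine av_mono (fun w => ?_) n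
    rw [FF_succ, abs_mul]
    have a := abs_sum_le_sum_abs (fun k => HH L k w) (range (L + 1))
    have b : (0 : ℝ) ≤ |∑ k ∈ range (L + 1), HH L k w| := abs_nonneg _
    rw [abs_of_pos (show (0 : ℝ) < 1 / 2 by norm_num)]
    linarith only [a, b]
  refine h1.trans ?_
  rw [av_sum (range (L + 1)) (fun k w => |HH L k w|) n]
  refine sum_le_sum fun k hk => le_of_eq ?_
  have hp : Per (k + 1) (fun w => |HH L k w|) := fun w => by
    simp only [per_HH L k w]
  exact hp.av_eq (by have := mem_range.1 hk; omega)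

theorem mixF (A : ℕ) : ∃ C : ℝ, 0 < C ∧ ∀ j j' n : ℕ, 1 ≤ j → j ≤ j' → j' ≤ n →
    av n (fun w => |FF j' w - FF j w|) ≤ j' * C / (j : ℝ) ^ A := by
  obtain ⟨C, hC, h⟩ := mix A
  refine ⟨C, hC, fun j j' n hj hjj hn => ?_⟩
  have hj0 : (0 : ℝ) < j := by exact_mod_cast hj
  have h1 : av n (fun w => |FF j' w - FF j w|) ≤
      av n (fun w => ∑ L ∈ Ico j j', |FF (L + 1) w - FF L w|) := by
    refine av_mono (fun w => ?_) n
    rw [← sum_Ico_sub (fun L => FF L w) hjj]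
    exact abs_sum_le_sum_abs _ _
  refine h1.trans ?_
  rw [av_sum (Ico j j') (fun L w => |FF (L + 1) w - FF L w|) n]
  have h2 : ∑ L ∈ Ico j j', av n (fun w => |FF (L + 1) w - FF L w|) ≤
      (Ico j j').card • (C / (j : ℝ) ^ A) := by
    refine sum_le_card_nsmul _ _ _ fun L hL => ?_
    obtain ⟨a, b⟩ := mem_Ico.1 hL
    refine (mx2_step L n (by omega)).trans ((h L (by omega)).trans ?_)
    exact div_le_div_of_nonneg_left hC.le (by positivity)
      (pow_le_pow_left₀ hj0.le (by exact_mod_cast a) A)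
  refine h2.trans ?_
  rw [nsmul_eq_mul, mul_div_assoc, Nat.card_Ico]
  refine mul_le_mul_of_nonneg_right ?_ (by positivity)
  exact_mod_cast Nat.sub_le _ _

end CzD
end
end

-- merged part: Pool.Agent.Work.MP_2efb47_nt.D.Equi
section
/-! Invariant sets are equidistributed modulo three. `equi`: `L = Nat.log 2 Z / 10 + 1`; sum over `β` by `k = cn β`; `Per.sum_Ico` for `|HH L k|` on `[1, 3 ^ k Z / 2 ^ L]`; `mix 2`. -/

open Finset Filter Topology
open scoped Classical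

noncomputable section
namespace CzD

theorem eq2_HH (S : Set ℕ) (L k l : ℕ) :
    |∑ w ∈ (Icc 1 l).filter (fun w => w ∈ S), HH L k (w : ℕ)| ≤
      (l + 3 ^ (k + 1)) * av (k + 1) (fun w => |HH L k w|) := by
  have hp : Per (k + 1) (fun w => |HH L k w|) := fun w => congrArg abs (per_HH L k w)
  refine (abs_sum_le_sum_abs _ _).trans (le_trans ?_ (hp.sum_Ico (fun _ => abs_nonneg _) 1 l))
  rw [← sum_image (s := (Icc 1 l).filter (fun w => w ∈ S)) (g := fun w : ℕ => (w : ℤ))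
    (f := fun w => |HH L k w|) (fun a _ b _ e => Nat.cast_injective e)]
  refine sum_le_sum_of_subset_of_nonneg (fun w hw => ?_) fun _ _ _ => abs_nonneg _
  obtain ⟨a, ha, rfl⟩ := mem_image.1 hw
  have := mem_Icc.1 (mem_filter.1 ha).1
  exact mem_Ico.2 ⟨by omega, by omega⟩

theorem eq2_av (L k : ℕ) : 0 ≤ av (k + 1) (fun w => |HH L k w|) :=
  div_nonneg (sum_nonneg fun _ _ => abs_nonneg _) (by positivity)

theorem eq2_main {S : Set ℕ} (hS : Inv S) (L Z : ℕ) :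
    |∑ z ∈ (Icc 1 Z).filter (fun z => z ∈ S), h0 z| ≤
      (Z + 3 * 2 ^ L) * ∑ k ∈ range (L + 1), av (k + 1) (fun w => |HH L k w|) + 4 * 3 ^ L := by
  set X : List Bool → ℝ := fun β => 2 ^ L / 3 ^ cn β *
    ∑ w ∈ (Icc 1 (3 ^ cn β * Z / 2 ^ L)).filter (fun w => w ∈ S), tm β h0 (w : ℕ) with hX
  set Y : List Bool → ℝ := fun β =>
    ∑ z ∈ (Icc 1 Z).filter (fun z => z ∈ S ∧ par L z = β), h0 z with hY
  have e1 : ∑ z ∈ (Icc 1 Z).filter (fun z => z ∈ S), h0 z = ∑ β ∈ allB L, Y β := by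
    rw [← sum_fiberwise_of_maps_to (t := allB L) (g := par L)
      (fun z _ => mem_allB.2 (par_len L z))]
    refine sum_congr rfl fun β _ => ?_
    rw [filter_filter]
  have e2 : |∑ β ∈ allB L, (Y β - X β)| ≤ 4 * 3 ^ L := by
    refine (abs_sum_le_sum_abs _ _).trans ?_
    refine (sum_le_card_nsmul _ _ (4 * (3 / 2) ^ L) fun β hβ => ?_).trans (le_of_eq ?_)
    · have := equi_path hS β Z
      rw [mem_allB.1 hβ] at this
      exact this
    · rw [card_allB, nsmul_eq_mul, div_pow]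
      push_cast
      field_simp
  have e3 : ∑ β ∈ allB L, X β = ∑ k ∈ range (L + 1), (2 : ℝ) ^ L / 3 ^ k *
      ∑ w ∈ (Icc 1 (3 ^ k * Z / 2 ^ L)).filter (fun w => w ∈ S), HH L k (w : ℕ) := by
    rw [← sum_fiberwise_of_maps_to (s := allB L) (t := range (L + 1)) (g := cn)
      (fun β hβ => mem_range.2 (Nat.lt_succ_of_le (mem_allB.1 hβ ▸ cn_le β)))]
    refine sum_congr rfl fun k _ => ?_
    simp only [HH]
    rw [sum_comm, mul_sum]
    refine sum_congr rfl fun β hβ => ?_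
    simp only [hX, (mem_filter.1 hβ).2]
  have e4 : |∑ β ∈ allB L, X β| ≤
      (Z + 3 * 2 ^ L) * ∑ k ∈ range (L + 1), av (k + 1) (fun w => |HH L k w|) := by
    rw [e3, mul_sum]
    refine (abs_sum_le_sum_abs _ _).trans (sum_le_sum fun k _ => ?_)
    have h1 : (0 : ℝ) ≤ 2 ^ L / 3 ^ k := by positivity
    rw [abs_mul, abs_of_nonneg h1]
    refine (mul_le_mul_of_nonneg_left (eq2_HH S L k _) h1).trans ?_
    rw [← mul_assoc]
    refine mul_le_mul_of_nonneg_right ?_ (eq2_av L k)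
    have h2 : ((3 ^ k * Z / 2 ^ L : ℕ) : ℝ) ≤ 3 ^ k * Z / 2 ^ L := by
      simpa using Nat.cast_div_le (α := ℝ) (m := 3 ^ k * Z) (n := 2 ^ L)
    refine (mul_le_mul_of_nonneg_left (add_le_add_left h2 _) h1).trans (le_of_eq ?_)
    field_simp
    ring
  rw [e1]
  rw [sum_sub_distrib] at e2
  have := abs_sub_abs_le_abs_sub (∑ β ∈ allB L, Y β) (∑ β ∈ allB L, X β)
  linarith only [e2, e4, this]

theorem equi : ∃ C : ℝ, ∀ S : Set ℕ, Inv S → ∀ Z : ℕ, 2 ≤ Z →
    |∑ z ∈ (Icc 1 Z).filter (fun z => z ∈ S), h0 z| ≤ C * Z / Real.log Z ^ 2 := by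
  obtain ⟨C, hC, hmix⟩ := mix 2
  refine ⟨100 * (3073 * C + 4096), fun S hS Z hZ => ?_⟩
  obtain ⟨L, hL⟩ : ∃ L, L = Nat.log 2 Z / 10 + 1 := ⟨_, rfl⟩
  have hL1 : 1 ≤ L := by omega
  have a1 : 2 ^ Nat.log 2 Z ≤ Z := Nat.pow_log_le_self 2 (by omega)
  have a2 : Z < 2 ^ (Nat.log 2 Z + 1) := Nat.lt_pow_succ_log_self (by norm_num) Z
  have a3 : 1024 ^ L ≤ 1024 * Z := by
    calc 1024 ^ L = 2 ^ (10 * L) := by rw [pow_mul]; norm_num
      _ ≤ 2 ^ (10 + Nat.log 2 Z) := Nat.pow_le_pow_right (by norm_num) (by omega)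
      _ = 1024 * 2 ^ Nat.log 2 Z := by rw [pow_add]; norm_num
      _ ≤ 1024 * Z := Nat.mul_le_mul_left _ a1
  have a4 : Z ≤ 2 ^ (10 * L) := a2.le.trans (Nat.pow_le_pow_right (by norm_num) (by omega))
  have a5 : 2 ^ L ≤ 1024 * Z := (Nat.pow_le_pow_left (by norm_num) L).trans a3
  have a6 : 3 ^ L * L ^ 2 ≤ 1024 * Z := by
    have : L ^ 2 ≤ (2 ^ L) ^ 2 := Nat.pow_le_pow_left (Nat.lt_two_pow_self).le 2
    calc 3 ^ L * L ^ 2 ≤ 3 ^ L * (2 ^ L) ^ 2 := Nat.mul_le_mul_left _ this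
      _ = 12 ^ L := by rw [← pow_mul, mul_comm L 2, pow_mul, ← mul_pow]; norm_num
      _ ≤ 1024 ^ L := Nat.pow_le_pow_left (by norm_num) L
      _ ≤ 1024 * Z := a3
  have hZ' : (2 : ℝ) ≤ Z := by exact_mod_cast hZ
  have hL' : (1 : ℝ) ≤ L := by exact_mod_cast hL1
  have b1 : 0 < Real.log Z := Real.log_pos (by linarith only [hZ'])
  have b2 : Real.log Z ≤ 10 * L := by
    have h1 : (Z : ℝ) ≤ 2 ^ (10 * L) := by exact_mod_cast a4
    have h2 := Real.log_le_log (by linarith only [hZ']) h1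
    rw [Real.log_pow] at h2
    have h3 : Real.log 2 ≤ 1 := by linarith only [Real.log_two_lt_d9]
    push_cast at h2
    linarith only [h2, h3, mul_nonneg_of_nonpos_of_nonpos (Mathlib.Tactic.Linarith.sub_nonpos_of_le (Mathlib.Tactic.Linarith.natCast_nonneg ℝ L)) (Mathlib.Tactic.Linarith.sub_nonpos_of_le h3)]
  have b5 : (2 : ℝ) ^ L ≤ 1024 * Z := by exact_mod_cast a5
  have b6 : (3 : ℝ) ^ L ≤ 1024 * Z / L ^ 2 := by
    rw [le_div_iff₀ (by positivity)]
    exact_mod_cast a6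
  have b7 : (Z + 3 * 2 ^ L) * ∑ k ∈ range (L + 1), av (k + 1) (fun w => |HH L k w|) ≤
      3073 * Z * (C / (L : ℝ) ^ 2) :=
    mul_le_mul (by linarith only [b5]) (hmix L hL1) (sum_nonneg fun k _ => eq2_av L k) (by positivity)
  refine (eq2_main hS L Z).trans ?_
  calc _ ≤ 3073 * Z * (C / (L : ℝ) ^ 2) + 4 * (1024 * Z / L ^ 2) := by linarith only [b6, b7]
    _ = 100 * (3073 * C + 4096) * Z / (10 * L) ^ 2 := by field_simp; ring
    _ ≤ _ := div_le_div_of_nonneg_left (by positivity) (by positivity)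
        (pow_le_pow_left₀ b1.le b2 2)

end CzD
end
end

-- merged part: Pool.Agent.Work.MP_2efb47_nt.D.Pos0
section
/-! The pointwise bootstrap. `intv`: the end points of the valid paths are distinct (`rr_inj`) integers in an interval of length `M 2 ^ L / 3 ^ k ≥ 3 ^ n`; `Per.sum_Ico`.
`pow_ok`: raise to the power `20`, `3 ^ 12 ≤ 2 ^ 20`. `stage1`: `tm_sub`, `intvG`, `mixF 7`. -/

open Finset Filter Topology
open scoped Classical

noncomputable section
namespace CzD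

theorem intv {n L k M : ℕ} {φ : ℤ → ℝ} (hφ : Per n φ) {G : Finset (List Bool)}
    (hG : ∀ β ∈ G, β.length = L ∧ cn β = k ∧ rr β ≤ M * 2 ^ L) (h : 3 ^ (n + k) ≤ M * 2 ^ L)
    (a : ℤ) : |∑ β ∈ G, tm β φ a| ≤ 3 * M * av n fun w => |φ w| := by
  have hψ : Per n fun w => |φ w| := fun w => by simp only [hφ w]
  have h3 : (0 : ℤ) < 3 ^ k := by positivity
  set e : List Bool → ℤ := fun β => (2 ^ L * a - rr β) / 3 ^ k with he
  set G' := G.filter fun β => (3 : ℤ) ^ k ∣ 2 ^ L * a - rr β with hG'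
  set q : ℕ := M * 2 ^ L / 3 ^ k with hq
  set t : ℤ := 2 ^ L * a / 3 ^ k with ht
  have hme : ∀ β ∈ G', e β * 3 ^ k = 2 ^ L * a - rr β := fun β hβ =>
    Int.ediv_mul_cancel (mem_filter.1 hβ).2
  have hinj : Set.InjOn e G' := fun β hβ β' hβ' hh => by
    have k1 := hme β hβ
    have k2 := hme β' hβ'
    rw [hh, k2] at k1
    obtain ⟨a1, a2, -⟩ := hG β (mem_filter.1 hβ).1
    obtain ⟨b1, b2, -⟩ := hG β' (mem_filter.1 hβ').1
    refine rr_inj (a1.trans b1.symm) (a2.trans b2.symm) ?_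
    have : (rr β : ℤ) = rr β' := by linarith only [k1]
    exact_mod_cast this
  have hsub : G'.image e ⊆ Ico (t - q) (t - q + (q + 1 : ℕ)) := by
    intro z hz
    obtain ⟨β, hβ, rfl⟩ := mem_image.1 hz
    have k1 := hme β hβ
    have k2 : (rr β : ℤ) ≤ M * 2 ^ L := by exact_mod_cast (hG β (mem_filter.1 hβ).1).2.2
    have k3 : t * 3 ^ k ≤ 2 ^ L * a := Int.ediv_mul_le _ h3.ne'
    have k4 : e β ≤ t := Int.le_ediv_of_mul_le h3 (by
      have : (0 : ℤ) ≤ rr β := by positivity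
      linarith only [k1])
    have k5 : t - e β ≤ q := by
      rw [hq]
      push_cast
      exact Int.le_ediv_of_mul_le h3 (by linarith only [k1, k2, k3])
    rw [mem_Ico]
    push_cast
    constructor <;> linarith only [k5, k4]
  have hav : 0 ≤ av n fun w => |φ w| :=
    div_nonneg (sum_nonneg fun _ _ => abs_nonneg _) (by positivity)
  have hc : (0 : ℝ) < 3 ^ k / 2 ^ L := by positivity
  have hqr : (q : ℝ) ≤ M * 2 ^ L / 3 ^ k := by
    have := @Nat.cast_div_le ℝ _ _ _ (M * 2 ^ L) (3 ^ k)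
    push_cast at this
    exact this
  have hn : (3 : ℝ) ^ n ≤ M * 2 ^ L / 3 ^ k := by
    rw [le_div_iff₀ (by positivity), ← pow_add]
    exact_mod_cast h
  have h1 : (1 : ℝ) ≤ 3 ^ n := one_le_pow₀ (by norm_num)
  calc |∑ β ∈ G, tm β φ a| ≤ ∑ β ∈ G, |tm β φ a| := abs_sum_le_sum_abs _ _
    _ = ∑ β ∈ G', 3 ^ k / 2 ^ L * |φ (e β)| := by
      rw [hG', sum_filter]
      refine sum_congr rfl fun β hβ => ?_
      obtain ⟨a1, a2, -⟩ := hG β hβ
      rw [tm_abs, tm, a1, a2]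
    _ = 3 ^ k / 2 ^ L * ∑ z ∈ G'.image e, |φ z| := by rw [sum_image hinj, mul_sum]
    _ ≤ 3 ^ k / 2 ^ L * ((((q + 1 : ℕ) : ℝ) + 3 ^ n) * av n fun w => |φ w|) :=
      mul_le_mul_of_nonneg_left ((sum_le_sum_of_subset_of_nonneg hsub fun _ _ _ => abs_nonneg _).trans
        (hψ.sum_Ico (fun _ => abs_nonneg _) _ _)) hc.le
    _ ≤ 3 ^ k / 2 ^ L * ((3 * (M * 2 ^ L / 3 ^ k)) * av n fun w => |φ w|) := by
      refine mul_le_mul_of_nonneg_left (mul_le_mul_of_nonneg_right ?_ hav) hc.le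
      push_cast
      linarith only [hqr, hn, h1]
    _ = _ := by field_simp

theorem pow_ok {d k : ℕ} (hd : 80 ≤ d) (hk : 20 * k ≤ 11 * d ^ 2) : 3 ^ (4 * d + k) ≤ 2 ^ d ^ 2 := by
  refine (Nat.pow_le_pow_iff_left (n := 20) (by norm_num)).1 ?_
  calc (3 ^ (4 * d + k)) ^ 20 = 3 ^ ((4 * d + k) * 20) := (pow_mul _ _ _).symm
    _ ≤ 3 ^ (12 * d ^ 2) := Nat.pow_le_pow_right (by norm_num) (by nlinarith only [hk, hd])
    _ = (3 ^ 12) ^ d ^ 2 := pow_mul _ _ _
    _ ≤ (2 ^ 20) ^ d ^ 2 := Nat.pow_le_pow_left (by norm_num) _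
    _ = (2 ^ d ^ 2) ^ 20 := by rw [← pow_mul, ← pow_mul, mul_comm]

theorem intvG {d : ℕ} (hd : 80 ≤ d) {φ : ℤ → ℝ} (hφ : Per (4 * d) φ) (a : ℤ) :
    |∑ β ∈ GG d, tm β φ a| ≤ 6 * (d : ℝ) ^ 4 * av (4 * d) fun w => |φ w| := by
  have hav : 0 ≤ av (4 * d) fun w => |φ w| :=
    div_nonneg (sum_nonneg fun _ _ => abs_nonneg _) (by positivity)
  have hd1 : 1 ≤ d ^ 2 := Nat.one_le_pow _ _ (by omega)
  rw [← sum_fiberwise_of_maps_to (s := GG d) (t := range (d ^ 2 + 1)) (g := cn) (fun β hβ => by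
    have := (mem_filter.1 hβ).2.1
    rw [mem_range]
    omega)]
  refine (abs_sum_le_sum_abs _ _).trans ?_
  refine (sum_le_card_nsmul _ _ (3 * ((d ^ 2 : ℕ) : ℝ) * av (4 * d) fun w => |φ w|) fun k _ => ?_).trans ?_
  · by_cases hk : 20 * k ≤ 11 * d ^ 2
    · refine intv (L := d ^ 2) (k := k) hφ (fun β hβ => ?_)
        ((pow_ok hd hk).trans (Nat.le_mul_of_pos_left _ hd1)) a
      obtain ⟨h1, h2⟩ := mem_filter.1 hβ
      obtain ⟨h3, -, h4⟩ := mem_filter.1 h1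
      exact ⟨mem_allB.1 h3, h2, h4⟩
    · rw [sum_eq_zero fun β hβ => ?_, abs_zero]
      · positivity
      · obtain ⟨h1, h2⟩ := mem_filter.1 hβ
        exact absurd (h2 ▸ (mem_filter.1 h1).2.1) hk
  · have h1 : (1 : ℝ) ≤ (d : ℝ) ^ 2 := by exact_mod_cast hd1
    rw [card_range, nsmul_eq_mul, ← mul_assoc]
    refine mul_le_mul_of_nonneg_right ?_ hav
    push_cast
    linarith only [h1, mul_nonneg_of_nonpos_of_nonpos (Mathlib.Tactic.Linarith.sub_nonpos_of_le (sq_nonneg ↑d)) (Mathlib.Tactic.Linarith.sub_nonpos_of_le h1)]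

theorem stage1 : ∃ C : ℝ, 0 < C ∧ ∀ d j : ℕ, 80 ≤ d → d ≤ j → j ≤ 4 * d → ∀ a,
    PP d d a - C / (d : ℝ) ^ 2 ≤ PP d j a := by
  obtain ⟨C, hC, h⟩ := mixF 7
  refine ⟨24 * C, by positivity, fun d j hd h1 h2 a => ?_⟩
  have hp : Per (4 * d) fun w => FF j w - FF d w := fun w => by
    simp only [(per_FF j).mono h2 w, (per_FF d).mono (h1.trans h2) w]
  have k1 := intvG hd hp a
  have k2 := h d j (4 * d) (by omega) h1 h2
  have hd0 : (0 : ℝ) < d := by exact_mod_cast (by omega : 0 < d)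
  have hj : (j : ℝ) ≤ 4 * d := by exact_mod_cast h2
  have k3 : 6 * (d : ℝ) ^ 4 * (av (4 * d) fun w => |FF j w - FF d w|) ≤ 24 * C / (d : ℝ) ^ 2 :=
    calc _ ≤ 6 * (d : ℝ) ^ 4 * (4 * d * C / (d : ℝ) ^ 7) := by
          refine mul_le_mul_of_nonneg_left (k2.trans ?_) (by positivity)
          gcongr
      _ = _ := by field_simp; ring
  simp only [tm_sub, sum_sub_distrib] at k1
  have k4 := (abs_le.1 (k1.trans k3)).1
  simp only [PP]
  linarith only [k4]

end CzD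
end
end

-- merged part: Pool.Agent.Work.MP_2efb47_nt.D.Pos1
section
/-! The second step of the bootstrap. `stage2`: `FF (3 d + 2) = ∑ β' ∈ allB (2 d + 1), tm β' (FF (d + 1))`; blocks with `20 cn β' ≤ 11 (2 d + 1)` extend `GG d` into `GG (d + 1)` (`rr_append`, `rr_le`, `pow_ok`, `tm_append`, `sum_allB_add`), the others are bounded by `intvG`, `av_paths`, `Ex_tail`. -/

open Finset Filter Topology
open scoped Classical

noncomputable section
namespace CzD

theorem ps1_bd {ρ : ℝ} (h0 : 0 < ρ) (h1 : ρ < 1) :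
    ∃ C : ℝ, 0 < C ∧ ∀ d : ℕ, (d : ℝ) ^ 6 * ρ ^ d ≤ C := by
  have h := tendsto_pow_const_mul_const_pow_of_abs_lt_one 6 (r := ρ) (by rw [abs_of_pos h0]; exact h1)
  obtain ⟨C, hC⟩ := h.bddAbove_range
  refine ⟨max C 1, lt_of_lt_of_le one_pos (le_max_right _ _), fun d => ?_⟩
  exact (hC ⟨d, rfl⟩).trans (le_max_left _ _)

theorem ps1_ext {d : ℕ} (hd : 80 ≤ d) {β β' : List Bool} (hβ' : β'.length = 2 * d + 1)
    (h1 : 20 * cn β ≤ 11 * d ^ 2) (h2 : rr β ≤ d ^ 2 * 2 ^ d ^ 2)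
    (h3 : 20 * cn β' ≤ 11 * (2 * d + 1)) :
    20 * cn (β ++ β') ≤ 11 * (d + 1) ^ 2 ∧ rr (β ++ β') ≤ (d + 1) ^ 2 * 2 ^ (d + 1) ^ 2 := by
  have e : (d + 1) ^ 2 = d ^ 2 + (2 * d + 1) := by ring
  refine ⟨?_, ?_⟩
  · rw [cn_append, e]; omega
  · have h4 := rr_le β'
    have h5 := pow_ok hd h1
    rw [hβ'] at h4
    have h6 : rr β' ≤ 3 ^ (4 * d) :=
      (le_trans (Nat.le_add_right _ _) h4).trans (Nat.pow_le_pow_right (by norm_num) (by omega))
    have h7 : 3 ^ cn β * rr β' ≤ 2 ^ (d + 1) ^ 2 := by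
      calc 3 ^ cn β * rr β' ≤ 3 ^ cn β * 3 ^ (4 * d) := Nat.mul_le_mul_left _ h6
        _ = 3 ^ (4 * d + cn β) := by rw [← pow_add, add_comm]
        _ ≤ 2 ^ d ^ 2 := h5
        _ ≤ 2 ^ (d + 1) ^ 2 := Nat.pow_le_pow_right (by norm_num) (by rw [e]; omega)
    have h8 : 2 ^ (2 * d + 1) * rr β ≤ d ^ 2 * 2 ^ (d + 1) ^ 2 := by
      calc 2 ^ (2 * d + 1) * rr β ≤ 2 ^ (2 * d + 1) * (d ^ 2 * 2 ^ d ^ 2) := Nat.mul_le_mul_left _ h2
        _ = d ^ 2 * 2 ^ (d + 1) ^ 2 := by rw [e, pow_add 2 (d ^ 2)]; ring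
    rw [rr_append, hβ']
    calc 2 ^ (2 * d + 1) * rr β + 3 ^ cn β * rr β'
        ≤ d ^ 2 * 2 ^ (d + 1) ^ 2 + 2 ^ (d + 1) ^ 2 := Nat.add_le_add h8 h7
      _ = (d ^ 2 + 1) * 2 ^ (d + 1) ^ 2 := by ring
      _ ≤ (d + 1) ^ 2 * 2 ^ (d + 1) ^ 2 := Nat.mul_le_mul_right _ (by rw [e]; omega)

theorem ps1_good {d : ℕ} (hd : 80 ≤ d) (a : ℤ) :
    ∑ β ∈ GG d, tm β (fun w => ∑ β' ∈ (allB (2 * d + 1)).filter
      (fun β' => 20 * cn β' ≤ 11 * (2 * d + 1)), tm β' (FF (d + 1)) w) a ≤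
      PP (d + 1) (d + 1) a := by
  have e : (d + 1) ^ 2 = d ^ 2 + (2 * d + 1) := by ring
  have hn : ∀ γ, 0 ≤ tm γ (FF (d + 1)) a := fun γ => tm_nonneg (FF_nonneg _) γ a
  have e1 : PP (d + 1) (d + 1) a = ∑ β ∈ allB (d ^ 2), ∑ β' ∈ allB (2 * d + 1),
      if 20 * cn (β ++ β') ≤ 11 * (d + 1) ^ 2 ∧ rr (β ++ β') ≤ (d + 1) ^ 2 * 2 ^ (d + 1) ^ 2 then
        tm (β ++ β') (FF (d + 1)) a else 0 := by
    rw [← sum_allB_add (d ^ 2) (2 * d + 1) (fun γ =>
      if 20 * cn γ ≤ 11 * (d + 1) ^ 2 ∧ rr γ ≤ (d + 1) ^ 2 * 2 ^ (d + 1) ^ 2 then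
        tm γ (FF (d + 1)) a else 0), ← e]
    unfold PP GG
    rw [sum_filter]
  rw [e1]
  unfold GG
  rw [sum_filter]
  refine sum_le_sum fun β _ => ?_
  split_ifs with hβ
  · rw [tm_sum, sum_filter]
    refine sum_le_sum fun β' hβ' => ?_
    split_ifs with h3 h4
    · rw [tm_append]
    · exact absurd (ps1_ext hd (mem_allB.1 hβ') hβ.1 hβ.2 h3) h4
    · exact hn _
    · exact le_rfl
  · refine sum_nonneg fun β' _ => ?_
    split_ifs
    · exact hn _
    · exact le_rfl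

theorem ps1_bad {d : ℕ} (hd : 80 ≤ d) (a : ℤ) {ρ : ℝ}
    (hρ : Ex (2 * d + 1) (fun k => ind ((1 / 2 + 1 / 20 : ℝ) * ((2 * d + 1 : ℕ) : ℝ) ≤ k)) ≤ ρ) :
    ∑ β ∈ GG d, tm β (fun w => ∑ β' ∈ (allB (2 * d + 1)).filter
      (fun β' => ¬ 20 * cn β' ≤ 11 * (2 * d + 1)), tm β' (FF (d + 1)) w) a ≤
      6 * (d : ℝ) ^ 4 * ρ := by
  obtain ⟨p1, -, p3⟩ := av_paths (per_FF (d + 1)) (L := 2 * d + 1) (n' := 4 * d)
    (G := (allB (2 * d + 1)).filter (fun β' => ¬ 20 * cn β' ≤ 11 * (2 * d + 1)))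
    (fun β hβ => mem_allB.1 (mem_filter.1 hβ).1)
    (fun β hβ => by
      have h1 := cn_le β
      rw [mem_allB.1 (mem_filter.1 hβ).1] at h1
      omega)
  have e1 : (fun w => |FF (d + 1) w|) = FF (d + 1) := funext fun w => abs_of_nonneg (FF_nonneg _ w)
  rw [e1, av_FF, mul_one] at p3
  have h2 := intvG hd p1 a
  have h3 : (((allB (2 * d + 1)).filter (fun β' => ¬ 20 * cn β' ≤ 11 * (2 * d + 1))).card : ℝ) /
      2 ^ (2 * d + 1) ≤ ρ := by
    refine le_trans ?_ hρ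
    rw [Ex_ind (2 * d + 1) (fun k => (1 / 2 + 1 / 20 : ℝ) * ((2 * d + 1 : ℕ) : ℝ) ≤ k)]
    refine div_le_div_of_nonneg_right ?_ (by positivity)
    refine Nat.cast_le.2 (card_le_card fun β hβ => ?_)
    rw [mem_filter] at hβ ⊢
    refine ⟨hβ.1, ?_⟩
    have h4 : 11 * (2 * d + 1) ≤ 20 * cn β := by have := hβ.2; omega
    have h5 : (11 : ℝ) * ((2 * d + 1 : ℕ) : ℝ) ≤ 20 * (cn β : ℝ) := by exact_mod_cast h4
    linarith only [h5]
  refine (le_abs_self _).trans (h2.trans ?_)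
  exact mul_le_mul_of_nonneg_left (p3.trans h3) (by positivity)

theorem stage2 : ∃ C : ℝ, 0 < C ∧ ∀ d : ℕ, 80 ≤ d → ∀ a,
    PP d (3 * d + 2) a - C / (d : ℝ) ^ 2 ≤ PP (d + 1) (d + 1) a := by
  obtain ⟨ρ, h0, h1, hρ⟩ := Ex_tail (δ := 1 / 20) (by norm_num)
  obtain ⟨C, hC, hb⟩ := ps1_bd h0 h1
  refine ⟨6 * C, by positivity, fun d hd a => ?_⟩
  have e0 : FF (3 * d + 2) = fun w =>
      (∑ β' ∈ (allB (2 * d + 1)).filter (fun β' => 20 * cn β' ≤ 11 * (2 * d + 1)),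
        tm β' (FF (d + 1)) w) +
      ∑ β' ∈ (allB (2 * d + 1)).filter (fun β' => ¬ 20 * cn β' ≤ 11 * (2 * d + 1)),
        tm β' (FF (d + 1)) w := by
    funext w
    rw [sum_filter_add_sum_filter_not, ← FF_add, show 2 * d + 1 + (d + 1) = 3 * d + 2 by ring]
  have g1 := ps1_good hd a
  have g2 := ps1_bad hd a (hρ (2 * d + 1)).1
  have hd0 : (0 : ℝ) < d := by exact_mod_cast (show 0 < d by omega)
  have g3 : 6 * (d : ℝ) ^ 4 * ρ ^ (2 * d + 1) ≤ 6 * C / (d : ℝ) ^ 2 := by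
    rw [le_div_iff₀ (by positivity)]
    have g4 : ρ ^ (2 * d + 1) ≤ ρ ^ d := pow_le_pow_of_le_one h0.le h1.le (by omega)
    calc 6 * (d : ℝ) ^ 4 * ρ ^ (2 * d + 1) * (d : ℝ) ^ 2 = 6 * ((d : ℝ) ^ 6 * ρ ^ (2 * d + 1)) := by
          ring
      _ ≤ 6 * ((d : ℝ) ^ 6 * ρ ^ d) := by gcongr
      _ ≤ 6 * C := by have := hb d; linarith only [this]
  have e1 : PP d (3 * d + 2) a =
      (∑ β ∈ GG d, tm β (fun w => ∑ β' ∈ (allB (2 * d + 1)).filter
        (fun β' => 20 * cn β' ≤ 11 * (2 * d + 1)), tm β' (FF (d + 1)) w) a) +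
      ∑ β ∈ GG d, tm β (fun w => ∑ β' ∈ (allB (2 * d + 1)).filter
        (fun β' => ¬ 20 * cn β' ≤ 11 * (2 * d + 1)), tm β' (FF (d + 1)) w) a := by
    unfold PP
    rw [← sum_add_distrib, e0]
    exact sum_congr rfl fun β _ => tm_add β _ _ a
  linarith only [g1, g2, g3, e1]

end CzD
end
end
end
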